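import Pool.Agent.FC14.CompDefs

/-!
# No accepted colouring of the join

Paper proof of `comp_sound`: a broken component is properly coloured as `G_i`, so it uses at least `q_i + 1` colours;
an unbroken one uses at least `q_i` colours (if `G_i - a_i b_i` had a colouring with `q_i - 1` colours, give
`a_i` a new colour). The colour sets are disjoint, so at least `Σ q_i + 2 = q + 1` colours are used.
-/

set_option autoImplicit false

namespace Pool.Agent.FC14

open SimpleGraph

variable {ι : Type} [Fintype ι] [DecidableEq ι]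

/-- A graph whose edges are properly coloured with colours from `C` is `|C|`-colourable. -/
private theorem compA_colorable {V : Type} (H : SimpleGraph V) {q : ℕ} (φ : V → Fin q)
    (C : Finset (Fin q)) (hC : ∀ v, φ v ∈ C) (h : ∀ u v, H.Adj u v → φ u ≠ φ v) :
    H.Colorable C.card := by
  have h1 : H.Coloring C := Coloring.mk (fun v => (⟨φ v, hC v⟩ : C)) (by
    intro u v huv heq
    exact h u v huv (congrArg Subtype.val heq))
  have h2 := h1.colorable
  rwa [Fintype.card_coe] at h2

/-- The same with one new colour for the vertex `a`. -/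
private theorem compA_colorable_succ {V : Type} (H : SimpleGraph V) {q : ℕ} (φ : V → Fin q)
    (C : Finset (Fin q)) (hC : ∀ v, φ v ∈ C) (a : V)
    (h : ∀ u v, H.Adj u v → u ≠ a → v ≠ a → φ u ≠ φ v) :
    H.Colorable (C.card + 1) := by
  classical
  have h1 : H.Coloring (Option C) :=
    Coloring.mk (fun v => if v = a then none else some (⟨φ v, hC v⟩ : C)) (by
      intro u v huv heq
      by_cases hu : u = a
      · have hv : v ≠ a := by
          rintro rfl
          exact huv.ne hu
        simp [hu, hv] at heq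
      · by_cases hv : v = a
        · simp [hu, hv] at heq
        · simp only [hu, hv, if_false, Option.some.injEq, Subtype.mk.injEq] at heq
          exact h u v huv hu hv heq)
  have h2 := h1.colorable
  rwa [Fintype.card_option, Fintype.card_coe] at h2

theorem comp_sound (qs : ι → ℕ) (hqs : ∀ i, 2 ≤ qs i) {n : ι → ℕ}
    (G : ∀ i, SimpleGraph (Fin (n i))) (hG : ∀ i, FC (qs i) (G i)) (a b : ∀ i, Fin (n i))
    (hab : ∀ i, (G i).Adj (a i) (b i)) :
    ¬ Accepts (1 + ∑ i, qs i) (joinG G a b) (joinτ a b) (joinAcc _) := by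
  classical
  rintro ⟨φ, i₀, j₀, hij, hi, hj⟩
  have hi' : φ ⟨i₀, a i₀⟩ ≠ φ ⟨i₀, b i₀⟩ := hi
  have hj' : φ ⟨j₀, a j₀⟩ ≠ φ ⟨j₀, b j₀⟩ := hj
  -- colours used by the components
  set C : ι → Finset (Fin (1 + ∑ i, qs i)) :=
    fun i => Finset.univ.image (fun x : Fin (n i) => φ ⟨i, x⟩) with hC
  have hmem : ∀ i (x : Fin (n i)), φ ⟨i, x⟩ ∈ C i := by
    intro i x
    rw [hC]
    exact Finset.mem_image_of_mem _ (Finset.mem_univ x)
  have hdisj : ∀ i j, i ≠ j → Disjoint (C i) (C j) := by
    intro i j hij
    rw [Finset.disjoint_left]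
    intro c hci hcj
    simp only [hC, Finset.mem_image, Finset.mem_univ, true_and] at hci hcj
    obtain ⟨x, hx⟩ := hci
    obtain ⟨y, hy⟩ := hcj
    have hadj : (joinG G a b).Adj ⟨i, x⟩ ⟨j, y⟩ := Or.inl hij
    exact φ.valid hadj (hx.trans hy.symm)
  have hinner : ∀ i (x y : Fin (n i)), (G i).Adj x y → s(x, y) ≠ s(a i, b i) →
      φ ⟨i, x⟩ ≠ φ ⟨i, y⟩ := by
    intro i x y hxy hne
    apply φ.valid
    refine Or.inr ⟨i, x, y, rfl, rfl, ?_⟩
    rw [deleteEdges_adj]
    exact ⟨hxy, by simpa using hne⟩
  have hlow : ∀ i, qs i ≤ (C i).card := by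
    intro i
    have h1 : (G i).Colorable ((C i).card + 1) := by
      apply compA_colorable_succ (G i) (fun x => φ ⟨i, x⟩) (C i) (hmem i) (a i)
      intro x y hxy hx hy
      apply hinner i x y hxy
      intro heq
      rw [Sym2.eq_iff] at heq
      rcases heq with ⟨h, _⟩ | ⟨_, h⟩
      · exact hx h
      · exact hy h
    by_contra hlt
    exact (hG i).1 (h1.mono (by omega))
  have hbrok : ∀ i, φ ⟨i, a i⟩ ≠ φ ⟨i, b i⟩ → qs i + 1 ≤ (C i).card := by
    intro i hne
    have h1 : (G i).Colorable ((C i).card) := by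
      apply compA_colorable (G i) (fun x => φ ⟨i, x⟩) (C i) (hmem i)
      intro x y hxy
      by_cases heq : s(x, y) = s(a i, b i)
      · rw [Sym2.eq_iff] at heq
        rcases heq with ⟨h, h'⟩ | ⟨h, h'⟩
        · rw [h, h']
          exact hne
        · rw [h, h']
          exact hne.symm
      · exact hinner i x y hxy heq
    by_contra hlt
    exact (hG i).1 (h1.mono (by omega))
  have hcard : ∑ i, (C i).card ≤ 1 + ∑ i, qs i := by
    rw [← Finset.card_biUnion (fun i _ j _ hne => hdisj i j hne)]
    calc (Finset.univ.biUnion C).card ≤ Fintype.card (Fin (1 + ∑ i, qs i)) :=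
        Finset.card_le_univ _
      _ = 1 + ∑ i, qs i := Fintype.card_fin _
  have hsum : ∑ i, (qs i + (if i = i₀ then 1 else 0) + (if i = j₀ then 1 else 0)) ≤
      ∑ i, (C i).card := by
    apply Finset.sum_le_sum
    intro i _
    by_cases h1 : i = i₀
    · subst h1
      have := hbrok i hi'
      simp [hij]
      omega
    · by_cases h2 : i = j₀
      · subst h2
        have := hbrok i hj'
        simp [h1]
        omega
      · simp [h1, h2, hlow i]
  rw [Finset.sum_add_distrib, Finset.sum_add_distrib] at hsum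
  simp at hsum
  omega

end Pool.Agent.FC14
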