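import Pool.Agent.FC14.Defs

/-!
# Critical graphs

Paper proofs (see also Pool/Agent/KCrit14/Crit.lean, which has almost the same lemmas and proofs).
* `colorable_succ_of_deleteEdge`: give one endpoint of the deleted edge a new colour.
* `exists_minimal`: a minimal non-`q`-colourable spanning subgraph.
* `critEdges_subset`: an edge whose deletion makes `H` colourable lies in every
  non-`q`-colourable spanning subgraph.
* `FC.spec`: the three conditions in the definition of `F`.
* `exists_FC_sub`: take a minimal spanning subgraph, induce on its non-isolated vertices (a colouring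
  extends to isolated vertices since `q ≥ 1`), and transport to `Fin n'`.
-/

set_option autoImplicit false

namespace Pool.Agent.FC14

open SimpleGraph

variable {V : Type}

theorem colorable_succ_of_deleteEdge (G : SimpleGraph V) (q : ℕ) (a b : V)
    (h : (G.deleteEdges {s(a, b)}).Colorable q) : G.Colorable (q + 1) := by
  classical
  obtain ⟨c⟩ := h
  refine ⟨Coloring.mk (fun x => if x = a then Fin.last q else (c x).castSucc) ?_⟩
  intro x y hxy
  by_cases hx : x = a
  · have hy : y ≠ a := by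
      rintro rfl
      exact hxy.ne hx
    simp only [hx, if_true, if_neg hy]
    exact (Fin.castSucc_lt_last _).ne'
  · by_cases hy : y = a
    · simp only [hy, if_true, if_neg hx]
      exact (Fin.castSucc_lt_last _).ne
    · simp only [if_neg hx, if_neg hy]
      intro hc
      have hc' : c x = c y := Fin.castSucc_injective q hc
      refine c.valid ?_ hc'
      rw [deleteEdges_adj]
      refine ⟨hxy, ?_⟩
      simp only [Set.mem_singleton_iff, Sym2.eq_iff]
      rintro (⟨h1, -⟩ | ⟨-, h1⟩)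
      · exact hx h1
      · exact hy h1

theorem exists_minimal [Finite V] (H : SimpleGraph V) (q : ℕ) (h1 : ¬ H.Colorable q) :
    ∃ G : SimpleGraph V, G ≤ H ∧ ¬ G.Colorable q ∧
      (∀ e ∈ G.edgeSet, (G.deleteEdges {e}).Colorable q) := by
  classical
  have hfin : Finite (SimpleGraph V) := by
    have hinj : Function.Injective (fun G : SimpleGraph V => G.Adj) := fun G G' h => by
      ext x y
      exact iff_of_eq (congrFun (congrFun h x) y)
    exact Finite.of_injective _ hinj
  obtain ⟨G, ⟨hG1, hG2⟩, hmin⟩ :=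
    (Set.toFinite {G : SimpleGraph V | G ≤ H ∧ ¬ G.Colorable q}).exists_minimal
      ⟨H, le_rfl, h1⟩
  refine ⟨G, hG1, hG2, ?_⟩
  intro e he
  by_contra hcol
  have hle : G.deleteEdges {e} ≤ G := deleteEdges_le _
  have := hmin (y := G.deleteEdges {e}) ⟨hle.trans hG1, hcol⟩ hle
  have h' : e ∈ (G.deleteEdges {e}).edgeSet := edgeSet_mono this he
  rw [edgeSet_deleteEdges] at h'
  exact h'.2 rfl

theorem critEdges_subset (H G : SimpleGraph V) (q : ℕ) (hGH : G ≤ H) (h : ¬ G.Colorable q) :
    critEdges q H ⊆ G.edgeSet := by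
  rintro e ⟨_, hc⟩
  by_contra hne
  apply h
  refine hc.mono_left ?_
  rw [← edgeSet_subset_edgeSet, edgeSet_deleteEdges]
  intro x hx
  exact ⟨edgeSet_mono hGH hx, fun h => hne ((Set.mem_singleton_iff.1 h) ▸ hx)⟩

/-- a graph with `VC` has a spanning subgraph with `FC` -/
theorem exists_FC_of_VC [Finite V] (H : SimpleGraph V) (q : ℕ) (h : VC q H) :
    ∃ G : SimpleGraph V, FC q G ∧ critEdges q H ⊆ G.edgeSet := by
  obtain ⟨G, hGH, hG1, hG2⟩ := exists_minimal H q h.1
  have key := critEdges_subset H G q hGH hG1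
  refine ⟨G, ⟨hG1, hG2, fun v => ?_⟩, key⟩
  obtain ⟨w, hvw, hc⟩ := h.2 v
  exact ⟨w, key ⟨hvw, hc⟩⟩

/-- transport of `FC` -/
theorem FC.congr {W : Type} {G : SimpleGraph V} {G' : SimpleGraph W} {q : ℕ} (h : FC q G)
    (e : G ≃g G') : FC q G' := by
  obtain ⟨h1, h2, h3⟩ := h
  refine ⟨fun hc => h1 (hc.of_hom e.toHom), ?_, fun v => ?_⟩
  · intro d hd
    induction d with
    | h x y =>
      have hxy : G.Adj (e.symm x) (e.symm y) := e.symm.map_rel_iff.2 hd
      obtain ⟨c⟩ := h2 s(e.symm x, e.symm y) hxy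
      refine ⟨Coloring.mk (fun x => c (e.symm x)) ?_⟩
      intro a b hab
      refine c.valid ?_
      rw [deleteEdges_adj] at hab ⊢
      refine ⟨e.symm.map_rel_iff.2 hab.1, ?_⟩
      intro h
      apply hab.2
      simp only [Set.mem_singleton_iff, Sym2.eq_iff] at h ⊢
      rcases h with ⟨h, h'⟩ | ⟨h, h'⟩
      · left
        exact ⟨e.symm.injective h, e.symm.injective h'⟩
      · right
        exact ⟨e.symm.injective h, e.symm.injective h'⟩
  · obtain ⟨w, hw⟩ := h3 (e.symm v)
    refine ⟨e w, ?_⟩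
    have h4 := e.map_rel_iff.2 hw
    rwa [RelIso.apply_symm_apply] at h4

/-- deleting a vertex makes an `FC` graph `q`-colourable -/
theorem FC.exists_coloring_avoid {G : SimpleGraph V} {q : ℕ} (h : FC q G) (v : V) :
    ∃ c : V → Fin q, ∀ x y, G.Adj x y → x ≠ v → y ≠ v → c x ≠ c y := by
  obtain ⟨w, hvw⟩ := h.2.2 v
  obtain ⟨c⟩ := h.2.1 s(v, w) hvw
  refine ⟨fun x => c x, fun x y hxy hx hy => ?_⟩
  refine c.valid ?_
  rw [deleteEdges_adj]
  refine ⟨hxy, ?_⟩
  simp only [Set.mem_singleton_iff, Sym2.eq_iff]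
  rintro (⟨h, -⟩ | ⟨-, h⟩)
  · exact hx h
  · exact hy h

/-- the three conditions in the definition of `F` -/
theorem FC.spec {G : SimpleGraph V} {q : ℕ} (h : FC q G) [Nonempty V] :
    G.chromaticNumber = ((q + 1 : ℕ) : ℕ∞) ∧
    (∀ e ∈ G.edgeSet, (G.deleteEdges {e}).chromaticNumber < ((q + 1 : ℕ) : ℕ∞)) ∧
    (∀ v : V, (G.induce ({v}ᶜ : Set V)).chromaticNumber < ((q + 1 : ℕ) : ℕ∞)) := by
  have hlow : (q : ℕ∞) < G.chromaticNumber := by
    rw [← not_le]
    intro h'
    exact h.1 (chromaticNumber_le_iff_colorable.1 h')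
  have hup : G.Colorable (q + 1) := by
    obtain ⟨v⟩ := (inferInstance : Nonempty V)
    obtain ⟨w, hvw⟩ := h.2.2 v
    exact colorable_succ_of_deleteEdge G q v w (h.2.1 _ hvw)
  have hq : ((q : ℕ) : ℕ∞) < ((q + 1 : ℕ) : ℕ∞) := by exact_mod_cast Nat.lt_succ_self q
  refine ⟨?_, fun e he => ?_, fun v => ?_⟩
  · apply le_antisymm
    · exact hup.chromaticNumber_le
    · exact_mod_cast Order.add_one_le_of_lt hlow
  · exact lt_of_le_of_lt (h.2.1 e he).chromaticNumber_le hq
  · refine lt_of_le_of_lt ?_ hq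
    apply Colorable.chromaticNumber_le
    obtain ⟨c, hc⟩ := h.exists_coloring_avoid v
    refine ⟨Coloring.mk (fun x => c x.1) ?_⟩
    rintro ⟨x, hx⟩ ⟨y, hy⟩ hxy
    exact hc x y hxy hx hy

private theorem fc14crit_bdd (k n : ℕ) :
    BddAbove {m : ℕ | ∃ G : SimpleGraph (Fin n),
      G.chromaticNumber = (k : ℕ∞) ∧
      (∀ e ∈ G.edgeSet, (G.deleteEdges {e}).chromaticNumber < (k : ℕ∞)) ∧
      (∀ v : Fin n, (G.induce ({v}ᶜ : Set (Fin n))).chromaticNumber < (k : ℕ∞)) ∧
      Nat.card G.edgeSet = m} := by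
  refine ⟨Nat.card (Sym2 (Fin n)), ?_⟩
  rintro m ⟨G, -, -, -, rfl⟩
  exact Nat.card_le_card_of_injective Subtype.val Subtype.val_injective

/-- the bound for `F` -/
theorem le_F {n q : ℕ} (G : SimpleGraph (Fin n)) (h : FC q G) :
    G.edgeSet.ncard ≤ F (q + 1) n := by
  have hne : Nonempty (Fin n) := by
    by_contra hV
    rw [not_nonempty_iff] at hV
    exact h.1 (Colorable.of_isEmpty q)
  obtain ⟨h1, h2, h3⟩ := h.spec
  exact le_csSup (fc14crit_bdd (q + 1) n) ⟨G, h1, h2, h3, rfl⟩

/-- conversely, `F (q+1) n` is attained when it is positive -/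
theorem exists_of_F_pos {n q : ℕ} (h : 0 < F (q + 1) n) :
    ∃ G : SimpleGraph (Fin n), FC q G ∧ G.edgeSet.ncard = F (q + 1) n := by
  classical
  have hne : {m : ℕ | ∃ G : SimpleGraph (Fin n),
      G.chromaticNumber = ((q + 1 : ℕ) : ℕ∞) ∧
      (∀ e ∈ G.edgeSet, (G.deleteEdges {e}).chromaticNumber < ((q + 1 : ℕ) : ℕ∞)) ∧
      (∀ v : Fin n, (G.induce ({v}ᶜ : Set (Fin n))).chromaticNumber < ((q + 1 : ℕ) : ℕ∞)) ∧
      Nat.card G.edgeSet = m}.Nonempty := by
    by_contra h'
    rw [Set.not_nonempty_iff_eq_empty] at h'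
    unfold F at h
    rw [h', csSup_empty, bot_eq_zero] at h
    exact lt_irrefl _ h
  obtain ⟨G, h1, h2, h3, h4⟩ := Nat.sSup_mem hne (fc14crit_bdd (q + 1) n)
  change Nat.card G.edgeSet = F (q + 1) n at h4
  have hlt : ∀ {W : Type} {K : SimpleGraph W},
      K.chromaticNumber < ((q + 1 : ℕ) : ℕ∞) → K.Colorable q := by
    intro W K hK
    apply chromaticNumber_le_iff_colorable.1
    exact Order.le_of_lt_add_one (by exact_mod_cast hK)
  have hE : ∀ e ∈ G.edgeSet, (G.deleteEdges {e}).Colorable q := fun e he => hlt (h2 e he)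
  have hpos : 0 < q := by
    have h5 : G.edgeSet.Nonempty := by
      by_contra h'
      rw [Set.not_nonempty_iff_eq_empty] at h'
      have h6 : Nat.card G.edgeSet = 0 := by
        rw [h']
        simp
      omega
    obtain ⟨e, he⟩ := h5
    obtain ⟨c⟩ := hE e he
    induction e with
    | h x y => exact lt_of_le_of_lt (Nat.zero_le _) (c x).2
  refine ⟨G, ⟨?_, hE, ?_⟩, h4⟩
  · intro hc
    have h5 := hc.chromaticNumber_le
    rw [h1] at h5
    have h6 : q + 1 ≤ q := by exact_mod_cast h5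
    omega
  · intro v
    by_contra hv
    push Not at hv
    obtain ⟨c⟩ := hlt (h3 v)
    have hc : G.Colorable q := by
      refine ⟨Coloring.mk (fun x => if hx : x = v then ⟨0, hpos⟩ else c ⟨x, hx⟩) ?_⟩
      intro x y hxy
      have hx : x ≠ v := by
        rintro rfl
        exact hv y hxy
      have hy : y ≠ v := by
        rintro rfl
        exact hv x hxy.symm
      rw [dif_neg hx, dif_neg hy]
      exact c.valid (v := ⟨x, hx⟩) (w := ⟨y, hy⟩) hxy
    have h5 := hc.chromaticNumber_le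
    rw [h1] at h5
    have h6 : q + 1 ≤ q := by exact_mod_cast h5
    omega

/-- a critical graph inside a graph which is not `q`-colourable -/
theorem exists_FC_sub [Fintype V] (H : SimpleGraph V) (q : ℕ) (hq : 1 ≤ q)
    (h1 : ¬ H.Colorable q) :
    ∃ n ≤ Fintype.card V, ∃ G : SimpleGraph (Fin n), FC q G ∧
      (critEdges q H).ncard ≤ G.edgeSet.ncard := by
  classical
  obtain ⟨G, hGH, hG1, hG2⟩ := exists_minimal H q h1
  let S : Set V := {v | ∃ w, G.Adj v w}
  let G' : SimpleGraph S := G.induce S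
  have hmem : ∀ {x y}, G.Adj x y → x ∈ S := fun {x y} h => ⟨y, h⟩
  have hFC : FC q G' := by
    refine ⟨?_, ?_, ?_⟩
    · rintro ⟨c⟩
      apply hG1
      refine ⟨Coloring.mk (fun x => if hx : x ∈ S then c ⟨x, hx⟩ else ⟨0, hq⟩) ?_⟩
      intro x y hxy
      rw [dif_pos (hmem hxy), dif_pos (hmem hxy.symm)]
      exact c.valid (v := ⟨x, hmem hxy⟩) (w := ⟨y, hmem hxy.symm⟩) hxy
    · intro e he
      induction e with
      | h x y =>
        have hxy : G.Adj x.1 y.1 := he
        obtain ⟨c⟩ := hG2 s(x.1, y.1) hxy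
        refine ⟨Coloring.mk (fun x => c x.1) ?_⟩
        intro a b hab
        refine c.valid ?_
        rw [deleteEdges_adj] at hab ⊢
        refine ⟨hab.1, ?_⟩
        intro h
        apply hab.2
        simp only [Set.mem_singleton_iff, Sym2.eq_iff] at h ⊢
        rcases h with ⟨h, h'⟩ | ⟨h, h'⟩
        · left
          exact ⟨Subtype.ext h, Subtype.ext h'⟩
        · right
          exact ⟨Subtype.ext h, Subtype.ext h'⟩
    · rintro ⟨v, w, hvw⟩
      exact ⟨⟨w, hmem hvw.symm⟩, hvw⟩
  let φ : S ≃ Fin (Fintype.card S) := Fintype.equivFin S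
  let G'' : SimpleGraph (Fin (Fintype.card S)) := G'.comap φ.symm
  let e : G' ≃g G'' :=
    { toEquiv := φ
      map_rel_iff' := by
        intro a b
        change G'.Adj (φ.symm (φ a)) (φ.symm (φ b)) ↔ G'.Adj a b
        rw [Equiv.symm_apply_apply, Equiv.symm_apply_apply] }
  refine ⟨Fintype.card S, ?_, G'', hFC.congr e, ?_⟩
  · exact Fintype.card_le_of_injective Subtype.val Subtype.val_injective
  · have h2 : critEdges q H ⊆ (Sym2.map (fun i => (φ.symm i).1)) '' G''.edgeSet := by
      refine (critEdges_subset H G q hGH hG1).trans ?_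
      intro d hd
      induction d with
      | h x y =>
        have hxy : G.Adj x y := hd
        refine ⟨s(φ ⟨x, hmem hxy⟩, φ ⟨y, hmem hxy.symm⟩), ?_, ?_⟩
        · change G'.Adj (φ.symm (φ _)) (φ.symm (φ _))
          rw [Equiv.symm_apply_apply, Equiv.symm_apply_apply]
          exact hxy
        · rw [Sym2.map_mk]
          simp
    exact (Set.ncard_le_ncard h2 (Set.toFinite _)).trans (Set.ncard_image_le (Set.toFinite _))

end Pool.Agent.FC14
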