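import Pool.Agent.FC14.CompDefs
import Pool.Agent.FC14.Crit

/-!
# Accepted colourings of the join after deleting an edge

Paper proofs. Colours: a bijection of `Fin (1 + Σ q_i)` with `Option (Σ i, Fin (q_i))`.
* `comp_cross`: `u ∈ G_i`, `v ∈ G_j`, different from the `a`'s and `b`'s: colour `G_i - u` with `q_i`
  colours (`FC.exists_coloring_avoid`), `G_j - v` with `q_j` colours, `G_l - a_l b_l` with `q_l` colours, all disjoint, and `u`, `v` with `none`.
* `comp_inner`: an edge `e ≠ a_i b_i` of `G_i`: colour `G_i - e` with `q_i` colours (broken), take `j ≠ i`, a vertex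
  `v ≠ a_j, b_j` of `G_j` (`G_j` is not 2-colourable, so it has at least three vertices), colour `G_j - v` with `q_j` colours and `v` with `none` (broken), the
  others as before.
-/

set_option autoImplicit false

namespace Pool.Agent.FC14

open SimpleGraph

variable {ι : Type} [Fintype ι] [DecidableEq ι]

/-- Assembling colourings of the components; `none` is the common last colour. -/
private theorem compB_assemble (qs : ι → ℕ) {n : ι → ℕ} (a b : ∀ i, Fin (n i))
    (D : SimpleGraph (Σ i, Fin (n i))) (c : ∀ i, Fin (n i) → Option (Fin (qs i)))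
    (h1 : ∀ i j x y, i ≠ j → D.Adj ⟨i, x⟩ ⟨j, y⟩ → ¬ (c i x = none ∧ c j y = none))
    (h2 : ∀ i x y, D.Adj ⟨i, x⟩ ⟨i, y⟩ → c i x ≠ c i y)
    (h3 : ∃ i j, i ≠ j ∧ c i (a i) ≠ c i (b i) ∧ c j (a j) ≠ c j (b j)) :
    Accepts (1 + ∑ i, qs i) D (joinτ a b) (joinAcc _) := by
  classical
  have hcard : Fintype.card (Option (Σ i, Fin (qs i))) = Fintype.card (Fin (1 + ∑ i, qs i)) := by
    rw [Fintype.card_option, Fintype.card_sigma, Fintype.card_fin]
    simp [add_comm]
  obtain ⟨e⟩ : Nonempty (Option (Σ i, Fin (qs i)) ≃ Fin (1 + ∑ i, qs i)) :=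
    ⟨Fintype.equivOfCardEq hcard⟩
  let g : (Σ i, Fin (n i)) → Option (Σ i, Fin (qs i)) :=
    fun u => (c u.1 u.2).map (fun t => (⟨u.1, t⟩ : Σ i, Fin (qs i)))
  have hgin : ∀ i (x y : Fin (n i)), c i x ≠ c i y → g ⟨i, x⟩ ≠ g ⟨i, y⟩ := by
    intro i x y hne heq
    apply hne
    have hinj : Function.Injective (fun t : Fin (qs i) => (⟨i, t⟩ : Σ i, Fin (qs i))) :=
      fun s t hst => by simpa using hst
    exact Option.map_injective hinj heq
  have hg : ∀ u v, D.Adj u v → g u ≠ g v := by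
    rintro ⟨i, x⟩ ⟨j, y⟩ hadj
    by_cases hij : i = j
    · subst hij
      exact hgin i x y (h2 i x y hadj)
    · intro heq
      have heq' : (c i x).map (fun t => (⟨i, t⟩ : Σ i, Fin (qs i))) =
          (c j y).map (fun t => (⟨j, t⟩ : Σ i, Fin (qs i))) := heq
      cases hx : c i x with
      | none =>
        cases hy : c j y with
        | none => exact h1 i j x y hij hadj ⟨hx, hy⟩
        | some s => rw [hx, hy] at heq'; simp at heq'
      | some t =>
        cases hy : c j y with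
        | none => rw [hx, hy] at heq'; simp at heq'
        | some s =>
          rw [hx, hy] at heq'
          simp only [Option.map_some, Option.some.injEq, Sigma.mk.injEq] at heq'
          exact hij heq'.1
  refine ⟨Coloring.mk (fun u => e (g u)) (fun {u v} huv heq => hg u v huv (e.injective heq)), ?_⟩
  obtain ⟨i, j, hij, hi, hj⟩ := h3
  refine ⟨i, j, hij, ?_, ?_⟩
  · intro heq
    exact hgin i _ _ hi (e.injective heq)
  · intro heq
    exact hgin j _ _ hj (e.injective heq)

/-- The colouring of a component without the vertex `w`, which receives `none`. -/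
private theorem compB_avoid {m q : ℕ} (H : SimpleGraph (Fin m)) (hH : FC q H) (w : Fin m) :
    ∃ c : Fin m → Option (Fin q), (∀ x y, H.Adj x y → c x ≠ c y) ∧ (∀ x, c x = none → x = w) := by
  classical
  obtain ⟨c, hc⟩ := hH.exists_coloring_avoid w
  refine ⟨fun x => if x = w then none else some (c x), ?_, ?_⟩
  · intro x y hxy
    by_cases hx : x = w
    · have hy : y ≠ w := by
        rintro rfl
        exact hxy.ne hx
      simp [hx, hy]
    · by_cases hy : y = w
      · simp [hx, hy]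
      · simp only [hx, hy, if_false, ne_eq, Option.some.injEq]
        exact hc x y hxy hx hy
  · intro x hx
    by_contra h
    simp [h] at hx

/-- The colouring of a component without an edge. -/
private theorem compB_edge {m q : ℕ} (H : SimpleGraph (Fin m)) (hH : FC q H) (u v : Fin m)
    (huv : H.Adj u v) :
    ∃ c : Fin m → Option (Fin q), (∀ x y, H.Adj x y → s(x, y) ≠ s(u, v) → c x ≠ c y) ∧
      (∀ x, c x ≠ none) := by
  classical
  obtain ⟨φ⟩ := hH.2.1 s(u, v) huv
  refine ⟨fun x => some (φ x), ?_, fun x => by simp⟩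
  intro x y hxy hne heq
  have h : (H.deleteEdges {s(u, v)}).Adj x y := by
    rw [deleteEdges_adj]
    exact ⟨hxy, by simpa using hne⟩
  exact φ.valid h (by simpa using heq)

/-- Adjacency inside a component of the join. -/
private theorem compB_inner_adj {n : ι → ℕ} (G : ∀ i, SimpleGraph (Fin (n i)))
    (a b : ∀ i, Fin (n i)) (i : ι) (x y : Fin (n i)) (h : (joinG G a b).Adj ⟨i, x⟩ ⟨i, y⟩) :
    (G i).Adj x y ∧ s(x, y) ≠ s(a i, b i) := by
  rcases h with h | ⟨i', x', y', h1, h2, h3⟩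
  · exact absurd rfl h
  · obtain ⟨rfl, hx⟩ := Sigma.mk.inj_iff.mp h1
    obtain ⟨_, hy⟩ := Sigma.mk.inj_iff.mp h2
    obtain rfl := eq_of_heq hx
    obtain rfl := eq_of_heq hy
    rw [deleteEdges_adj] at h3
    exact ⟨h3.1, by simpa using h3.2⟩

theorem comp_cross (qs : ι → ℕ) (hqs : ∀ i, 2 ≤ qs i) {n : ι → ℕ}
    (G : ∀ i, SimpleGraph (Fin (n i))) (hG : ∀ i, FC (qs i) (G i)) (a b : ∀ i, Fin (n i))
    (hab : ∀ i, (G i).Adj (a i) (b i)) (i j : ι) (hij : i ≠ j) (u : Fin (n i)) (v : Fin (n j))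
    (hua : u ≠ a i) (hub : u ≠ b i) (hva : v ≠ a j) (hvb : v ≠ b j) :
    Accepts (1 + ∑ i, qs i) ((joinG G a b).deleteEdges {s(⟨i, u⟩, ⟨j, v⟩)}) (joinτ a b)
      (joinAcc _) := by
  classical
  have hex : ∀ l, ∃ c : Fin (n l) → Option (Fin (qs l)),
      (∀ x y, (G l).Adj x y → s(x, y) ≠ s(a l, b l) → c x ≠ c y) ∧
      (∀ x, c x = none → (⟨l, x⟩ : Σ i, Fin (n i)) = ⟨i, u⟩ ∨ (⟨l, x⟩ : Σ i, Fin (n i)) = ⟨j, v⟩) ∧
      (l = i ∨ l = j → c (a l) ≠ c (b l)) := by
    intro l
    by_cases hli : l = i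
    · subst hli
      obtain ⟨c, hc, hcn⟩ := compB_avoid (G l) (hG l) u
      exact ⟨c, fun x y hxy _ => hc x y hxy, fun x hx => Or.inl (by rw [hcn x hx]),
        fun _ => hc _ _ (hab l)⟩
    · by_cases hlj : l = j
      · subst hlj
        obtain ⟨c, hc, hcn⟩ := compB_avoid (G l) (hG l) v
        exact ⟨c, fun x y hxy _ => hc x y hxy, fun x hx => Or.inr (by rw [hcn x hx]),
          fun _ => hc _ _ (hab l)⟩
      · obtain ⟨c, hc, hcn⟩ := compB_edge (G l) (hG l) (a l) (b l) (hab l)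
        refine ⟨c, hc, fun x hx => absurd hx (hcn x), fun h => ?_⟩
        rcases h with h | h
        · exact absurd h hli
        · exact absurd h hlj
  choose c hc1 hc2 hc3 using hex
  refine compB_assemble qs a b _ c ?_ ?_ ⟨i, j, hij, hc3 i (Or.inl rfl), hc3 j (Or.inr rfl)⟩
  · intro k l x y hkl hadj hnone
    rw [deleteEdges_adj] at hadj
    apply hadj.2
    rcases hc2 k x hnone.1 with h | h <;> rcases hc2 l y hnone.2 with h' | h'
    · exact absurd ((Sigma.mk.inj_iff.mp h).1.trans (Sigma.mk.inj_iff.mp h').1.symm) hkl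
    · rw [h, h']
      exact Set.mem_singleton _
    · rw [h, h', Sym2.eq_swap]
      exact Set.mem_singleton _
    · exact absurd ((Sigma.mk.inj_iff.mp h).1.trans (Sigma.mk.inj_iff.mp h').1.symm) hkl
  · intro k x y hadj
    rw [deleteEdges_adj] at hadj
    obtain ⟨h1, h2⟩ := compB_inner_adj G a b k x y hadj.1
    exact hc1 k x y h1 h2

theorem comp_inner [Nontrivial ι] (qs : ι → ℕ) (hqs : ∀ i, 2 ≤ qs i) {n : ι → ℕ}
    (G : ∀ i, SimpleGraph (Fin (n i))) (hG : ∀ i, FC (qs i) (G i)) (a b : ∀ i, Fin (n i))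
    (hab : ∀ i, (G i).Adj (a i) (b i)) (i : ι) (u v : Fin (n i)) (huv : (G i).Adj u v)
    (hne : s(u, v) ≠ s(a i, b i)) :
    Accepts (1 + ∑ i, qs i) ((joinG G a b).deleteEdges {s(⟨i, u⟩, ⟨i, v⟩)}) (joinτ a b)
      (joinAcc _) := by
  classical
  obtain ⟨j, hji⟩ := exists_ne i
  obtain ⟨w, hwa, hwb⟩ : ∃ w : Fin (n j), w ≠ a j ∧ w ≠ b j := by
    by_contra hcon
    push Not at hcon
    have h2 : (G j).Colorable 2 := by
      refine ⟨Coloring.mk (fun x => if x = a j then (0 : Fin 2) else 1) ?_⟩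
      intro x y hxy heq
      by_cases hx : x = a j
      · have hy : y ≠ a j := by
          rintro rfl
          exact hxy.ne hx
        simp [hx, hy] at heq
      · by_cases hy : y = a j
        · simp [hx, hy] at heq
        · exact hxy.ne ((hcon x hx).trans (hcon y hy).symm)
    exact (hG j).1 (h2.mono (hqs j))
  have hex : ∀ l, ∃ c : Fin (n l) → Option (Fin (qs l)),
      (∀ x y, (G l).Adj x y → s(x, y) ≠ s(a l, b l) →
        s((⟨l, x⟩ : Σ i, Fin (n i)), ⟨l, y⟩) ≠ s(⟨i, u⟩, ⟨i, v⟩) → c x ≠ c y) ∧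
      (∀ x, c x = none → (⟨l, x⟩ : Σ i, Fin (n i)) = ⟨j, w⟩) ∧
      (l = i ∨ l = j → c (a l) ≠ c (b l)) := by
    intro l
    by_cases hli : l = i
    · subst hli
      obtain ⟨c, hc, hcn⟩ := compB_edge (G l) (hG l) u v huv
      refine ⟨c, fun x y hxy _ h => hc x y hxy ?_, fun x hx => absurd hx (hcn x),
        fun _ => hc _ _ (hab l) (Ne.symm hne)⟩
      intro h'
      apply h
      rw [Sym2.eq_iff] at h' ⊢
      rcases h' with ⟨h1, h2⟩ | ⟨h1, h2⟩
      · exact Or.inl ⟨by rw [h1], by rw [h2]⟩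
      · exact Or.inr ⟨by rw [h1], by rw [h2]⟩
    · by_cases hlj : l = j
      · subst hlj
        obtain ⟨c, hc, hcn⟩ := compB_avoid (G l) (hG l) w
        exact ⟨c, fun x y hxy _ _ => hc x y hxy, fun x hx => by rw [hcn x hx],
          fun _ => hc _ _ (hab l)⟩
      · obtain ⟨c, hc, hcn⟩ := compB_edge (G l) (hG l) (a l) (b l) (hab l)
        refine ⟨c, fun x y hxy h _ => hc x y hxy h, fun x hx => absurd hx (hcn x), fun h => ?_⟩
        rcases h with h | h
        · exact absurd h hli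
        · exact absurd h hlj
  choose c hc1 hc2 hc3 using hex
  refine compB_assemble qs a b _ c ?_ ?_ ⟨i, j, hji.symm, hc3 i (Or.inl rfl), hc3 j (Or.inr rfl)⟩
  · intro k l x y hkl _ hnone
    exact hkl ((Sigma.mk.inj_iff.mp (hc2 k x hnone.1)).1.trans
      (Sigma.mk.inj_iff.mp (hc2 l y hnone.2)).1.symm)
  · intro k x y hadj
    rw [deleteEdges_adj] at hadj
    obtain ⟨h1, h2⟩ := compB_inner_adj G a b k x y hadj.1
    exact hc1 k x y h1 h2 (fun h => hadj.2 h)

end Pool.Agent.FC14
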