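import Pool.Agent.FC14.Defs

/-!
# Composition

Given `(q_i + 1)`-critical graphs `G_i` with edges `a_i b_i` (`i ∈ ι`, `|ι| ≥ 2`), `q = 1 + Σ q_i`, let `D` be the join of the graphs
`G_i - a_i b_i`; the terminals are the `a_i`, `b_i`; a colouring is accepted when `a_i, b_i` have different colours
for at least two `i` ('broken' components).

Paper proofs.
* `comp_sound`: a broken component is properly coloured as `G_i`, so it uses at least `q_i + 1` colours;
  an unbroken one uses at least `q_i` colours (if `G_i - a_i b_i` had a colouring with `q_i - 1` colours, give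
  `a_i` a new colour). The colour sets are disjoint, so at least `Σ q_i + 2 = q + 1` colours are used.
* `comp_cross`: `u ∈ G_i`, `v ∈ G_j`, different from the `a`'s and `b`'s: colour `G_i - u` with `q_i`
  colours, `G_j - v` with `q_j` colours, `G_l - a_l b_l` with `q_l` colours, all disjoint, and `u`, `v` with the last colour.
* `comp_inner`: an edge `e ≠ a_i b_i` of `G_i`: colour `G_i - e` with `q_i` colours (broken), take `j ≠ i`, a vertex
  `v ≠ a_j, b_j` of `G_j`, colour `G_j - v` with `q_j` colours and `v` with the last colour (broken), the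
  others as before.
* `compose`: count.
-/

set_option autoImplicit false

namespace Pool.Agent.FC14

open SimpleGraph

variable {ι : Type} [Fintype ι] [DecidableEq ι]

/-- The join of the graphs `G_i - a_i b_i`. -/
def joinG {n : ι → ℕ} (G : ∀ i, SimpleGraph (Fin (n i))) (a b : ∀ i, Fin (n i)) :
    SimpleGraph (Σ i, Fin (n i)) where
  Adj u v := u.1 ≠ v.1 ∨ ∃ i x y, u = ⟨i, x⟩ ∧ v = ⟨i, y⟩ ∧
    ((G i).deleteEdges {s(a i, b i)}).Adj x y
  symm := ⟨by
    rintro u v (h | ⟨i, x, y, h1, h2, h3⟩)
    · exact Or.inl (Ne.symm h)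
    · exact Or.inr ⟨i, y, x, h2, h1, h3.symm⟩⟩
  loopless := ⟨by
    rintro u (h | ⟨i, x, y, h1, h2, h3⟩)
    · exact h rfl
    · rw [h1] at h2
      obtain rfl : x = y := by simpa using h2
      exact h3.ne rfl⟩

/-- The terminals. -/
def joinτ {n : ι → ℕ} (a b : ∀ i, Fin (n i)) : ι × Bool → Σ i, Fin (n i)
  | (i, false) => ⟨i, a i⟩
  | (i, true) => ⟨i, b i⟩

/-- Acceptance: at least two broken components. -/
def joinAcc (q : ℕ) (c : ι × Bool → Fin q) : Prop :=
  ∃ i j : ι, i ≠ j ∧ c (i, false) ≠ c (i, true) ∧ c (j, false) ≠ c (j, true)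

theorem joinAcc_perm (q : ℕ) (π : Equiv.Perm (Fin q)) (c : ι × Bool → Fin q)
    (h : joinAcc q c) : joinAcc q (fun x => π (c x)) := by
  obtain ⟨i, j, hij, h1, h2⟩ := h
  exact ⟨i, j, hij, fun h => h1 (π.injective h), fun h => h2 (π.injective h)⟩

end Pool.Agent.FC14
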