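import Pool.Agent.FC14.Exist

/-!
# Asymptotic form of the composition theorem
-/

set_option autoImplicit false

namespace Pool.Agent.FC14

open SimpleGraph Filter Topology

/-- the three conditions imply `FC` -/
theorem FC_of_spec {V : Type} {G : SimpleGraph V} {q : ℕ} (hq : 1 ≤ q)
    (h1 : G.chromaticNumber = ((q + 1 : ℕ) : ℕ∞))
    (h2 : ∀ e ∈ G.edgeSet, (G.deleteEdges {e}).chromaticNumber < ((q + 1 : ℕ) : ℕ∞))
    (h3 : ∀ v : V, (G.induce ({v}ᶜ : Set V)).chromaticNumber < ((q + 1 : ℕ) : ℕ∞)) : FC q G := by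
  classical
  have hlt : ∀ {W : Type} {K : SimpleGraph W},
      K.chromaticNumber < ((q + 1 : ℕ) : ℕ∞) → K.Colorable q := by
    intro W K hK
    apply chromaticNumber_le_iff_colorable.1
    exact Order.le_of_lt_add_one (by exact_mod_cast hK)
  have hE : ∀ e ∈ G.edgeSet, (G.deleteEdges {e}).Colorable q := fun e he => hlt (h2 e he)
  refine ⟨?_, hE, ?_⟩
  · intro hc
    have h5 := hc.chromaticNumber_le
    rw [h1] at h5
    have h6 : q + 1 ≤ q := by exact_mod_cast h5
    omega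
  · intro v
    by_contra hv
    push Not at hv
    obtain ⟨c⟩ := hlt (h3 v)
    have hc : G.Colorable q := by
      refine ⟨Coloring.mk (fun x => if hx : x = v then ⟨0, hq⟩ else c ⟨x, hx⟩) ?_⟩
      intro x y hxy
      have hx : x ≠ v := by
        rintro rfl
        exact hv y hxy
      have hy : y ≠ v := by
        rintro rfl
        exact hv x hxy.symm
      rw [dif_neg hx, dif_neg hy]
      exact c.valid (v := ⟨x, hx⟩) (w := ⟨y, hy⟩) hxy
    have h5 := hc.chromaticNumber_le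
    rw [h1] at h5
    have h6 : q + 1 ≤ q := by exact_mod_cast h5
    omega

/-- the size of the part with proportion `a` -/
noncomputable def sz (a : ℝ) (c N : ℕ) : ℕ := 2 * ⌊a / 2 * ((N - c : ℕ) : ℝ)⌋₊ + 1

theorem sz_le {a : ℝ} (ha : 0 ≤ a) (c N : ℕ) : (sz a c N : ℝ) ≤ a * ((N - c : ℕ) : ℝ) + 1 := by
  have h1 : (⌊a / 2 * ((N - c : ℕ) : ℝ)⌋₊ : ℝ) ≤ a / 2 * ((N - c : ℕ) : ℝ) :=
    Nat.floor_le (by positivity)
  unfold sz
  push_cast
  linarith

theorem tendsto_sz {a : ℝ} (ha : 0 ≤ a) (c : ℕ) :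
    Tendsto (fun N : ℕ => (sz a c N : ℝ) / N) atTop (𝓝 a) := by
  have h1 : Tendsto (fun N : ℕ => ((N - c : ℕ) : ℝ)) atTop atTop :=
    tendsto_natCast_atTop_atTop.comp (tendsto_sub_atTop_nat c)
  have h2 := (tendsto_nat_floor_mul_div_atTop (R := ℝ) (a := a / 2) (by positivity)).comp h1
  have h3 : Tendsto (fun N : ℕ => ((N - c : ℕ) : ℝ) / N) atTop (𝓝 1) := by
    have h4 : Tendsto (fun N : ℕ => 1 - (c : ℝ) / N) atTop (𝓝 (1 - 0)) :=
      tendsto_const_nhds.sub (tendsto_const_div_atTop_nhds_zero_nat (c : ℝ))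
    rw [sub_zero] at h4
    refine h4.congr' ?_
    filter_upwards [eventually_ge_atTop (c + 1)] with N hN
    have hN0 : (0 : ℝ) < N := by
      have : 0 < N := by omega
      exact_mod_cast this
    rw [Nat.cast_sub (by omega)]
    field_simp
  have h5 : Tendsto (fun N : ℕ => 1 / (N : ℝ)) atTop (𝓝 0) :=
    tendsto_const_div_atTop_nhds_zero_nat 1
  have h6 : Tendsto (fun N : ℕ => 2 * (((⌊a / 2 * ((N - c : ℕ) : ℝ)⌋₊ : ℝ) / ((N - c : ℕ) : ℝ)) *
      (((N - c : ℕ) : ℝ) / N)) + 1 / (N : ℝ)) atTop (𝓝 (2 * (a / 2 * 1) + 0)) :=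
    ((h2.mul h3).const_mul 2).add h5
  have h7 : 2 * (a / 2 * 1) + 0 = a := by ring
  rw [h7] at h6
  refine h6.congr' ?_
  filter_upwards [eventually_ge_atTop (c + 1)] with N hN
  have hN0 : (0 : ℝ) < N := by
    have : 0 < N := by omega
    exact_mod_cast this
  have hN1 : (0 : ℝ) < ((N - c : ℕ) : ℝ) := by
    have : 0 < N - c := by omega
    exact_mod_cast this
  unfold sz
  push_cast
  field_simp

theorem tendsto_sz_atTop {a : ℝ} (ha : 0 < a) (c : ℕ) :
    Tendsto (fun N : ℕ => sz a c N) atTop atTop := by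
  have h1 : Tendsto (fun N : ℕ => ((N - c : ℕ) : ℝ)) atTop atTop :=
    tendsto_natCast_atTop_atTop.comp (tendsto_sub_atTop_nat c)
  have h2 : Tendsto (fun N : ℕ => a / 2 * ((N - c : ℕ) : ℝ)) atTop atTop :=
    h1.const_mul_atTop (by positivity)
  have h3 := tendsto_nat_floor_atTop.comp h2
  refine tendsto_atTop_mono (fun N => ?_) h3
  unfold sz
  simp only [Function.comp_apply]
  omega

/-- there are critical graphs on `n` vertices, `n` odd and large -/
theorem exists_FC_odd (q : ℕ) (hq : 2 ≤ q) (s : ℕ) (hs : q + 6 ≤ s) :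
    ∃ G : SimpleGraph (Fin (2 * s + 1)), FC q G := by
  rcases hq.eq_or_lt with h | h
  · rw [← h]
    exact exists_FC_two s (by omega)
  · exact exists_FC q (by omega) _ (by omega)

theorem compLim {t : ℕ} (ht : 2 ≤ t) (q : Fin t → ℕ) (hq : ∀ i, 2 ≤ q i) (c : Fin t → ℝ)
    (hc1 : ∀ i, c i < 1 / 2)
    (hc : ∀ i, ∀ ε : ℝ, 0 < ε → ∃ n₀ : ℕ, ∀ n : ℕ, n₀ ≤ n →
      (∃ G : SimpleGraph (Fin n), FC (q i) G) →
      ∃ G : SimpleGraph (Fin n), FC (q i) G ∧ (c i - ε) * (n : ℝ) ^ 2 ≤ (G.edgeSet.ncard : ℝ)) :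
    ∀ ε : ℝ, 0 < ε → ∃ n₀ : ℕ, ∀ n : ℕ, n₀ ≤ n →
      ((1 - 1 / ∑ i, 1 / (1 - 2 * c i)) / 2 - ε) * (n : ℝ) ^ 2 ≤ F (2 + ∑ i, q i) n := by
  haveI : Nontrivial (Fin t) := Fin.nontrivial_iff_two_le.2 ht
  have hw : ∀ i, 0 < 1 / (1 - 2 * c i) := fun i => by
    have := hc1 i
    apply one_div_pos.2
    linarith
  set W : ℝ := ∑ i, 1 / (1 - 2 * c i) with hW
  have hWpos : 0 < W := Finset.sum_pos (fun i _ => hw i) Finset.univ_nonempty
  let α : Fin t → ℝ := fun i => 1 / (1 - 2 * c i) / W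
  have hα : ∀ i, 0 < α i := fun i => div_pos (hw i) hWpos
  have hα1 : ∑ i, α i = 1 := by
    show ∑ i, 1 / (1 - 2 * c i) / W = 1
    rw [← Finset.sum_div, ← hW, div_self hWpos.ne']
  have hα2 : ∀ i, α i ^ 2 * (1 - 2 * c i) = α i / W := fun i => by
    have h1 : 1 - 2 * c i ≠ 0 := by
      have := hc1 i
      intro h
      linarith
    show (1 / (1 - 2 * c i) / W) ^ 2 * (1 - 2 * c i) = 1 / (1 - 2 * c i) / W / W
    field_simp
  have hα3 : ∑ i, α i ^ 2 ≤ 1 := by
    calc ∑ i, α i ^ 2 ≤ ∑ i, α i := by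
          refine Finset.sum_le_sum fun i _ => ?_
          have h1 : α i ≤ 1 := by
            rw [← hα1]
            exact Finset.single_le_sum (fun j _ => (hα j).le) (Finset.mem_univ i)
          nlinarith [hα i]
      _ = 1 := hα1
  obtain ⟨C, hC⟩ := compose q hq
  intro ε hε
  choose n₀ hn₀ using fun i => hc i (ε / 2) (by positivity)
  -- the quadratic form
  let g : ℕ → ℝ := fun N => ∑ i, ∑ j, if i = j then
      2 * ((c i - ε / 2) * (sz (α i) (C + t) N : ℝ) ^ 2 - 1) else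
      ((sz (α i) (C + t) N : ℝ) - 2) * ((sz (α j) (C + t) N : ℝ) - 2)
  have hlim : Tendsto (fun N : ℕ => g N / (N : ℝ) ^ 2) atTop
      (𝓝 (∑ i, ∑ j, if i = j then 2 * ((c i - ε / 2) * α i ^ 2 - 0) else
        (α i - 0) * (α j - 0))) := by
    have h5 : ∀ b : ℝ, Tendsto (fun N : ℕ => b / (N : ℝ)) atTop (𝓝 0) :=
      tendsto_const_div_atTop_nhds_zero_nat
    have h6 : Tendsto (fun N : ℕ => 1 / (N : ℝ) * (1 / (N : ℝ))) atTop (𝓝 0) := by
      have := (h5 1).mul (h5 1)
      rwa [mul_zero] at this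
    have h7 : Tendsto (fun N : ℕ => ∑ i, ∑ j, if i = j then
        2 * ((c i - ε / 2) * ((sz (α i) (C + t) N : ℝ) / N) ^ 2 - 1 / (N : ℝ) * (1 / (N : ℝ))) else
        ((sz (α i) (C + t) N : ℝ) / N - 2 / N) * ((sz (α j) (C + t) N : ℝ) / N - 2 / N)) atTop
        (𝓝 (∑ i, ∑ j, if i = j then 2 * ((c i - ε / 2) * α i ^ 2 - 0) else
        (α i - 0) * (α j - 0))) := by
      refine tendsto_finsetSum _ fun i _ => tendsto_finsetSum _ fun j _ => ?_
      by_cases hij : i = j
      · simp only [if_pos hij]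
        exact ((((tendsto_sz (hα i).le (C + t)).pow 2).const_mul (c i - ε / 2)).sub h6).const_mul 2
      · simp only [if_neg hij]
        exact ((tendsto_sz (hα i).le (C + t)).sub (h5 2)).mul
          ((tendsto_sz (hα j).le (C + t)).sub (h5 2))
    refine h7.congr' ?_
    filter_upwards [eventually_ge_atTop 1] with N hN
    have hN0 : (0 : ℝ) < N := by
      have : 0 < N := by omega
      exact_mod_cast this
    show _ = (∑ i, ∑ j, if i = j then
      2 * ((c i - ε / 2) * (sz (α i) (C + t) N : ℝ) ^ 2 - 1) else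
      ((sz (α i) (C + t) N : ℝ) - 2) * ((sz (α j) (C + t) N : ℝ) - 2)) / (N : ℝ) ^ 2
    rw [Finset.sum_div]
    refine Finset.sum_congr rfl fun i _ => ?_
    rw [Finset.sum_div]
    refine Finset.sum_congr rfl fun j _ => ?_
    by_cases hij : i = j
    · rw [if_pos hij, if_pos hij]
      field_simp
    · rw [if_neg hij, if_neg hij]
      field_simp
  have hval : (∑ i, ∑ j, if i = j then 2 * ((c i - ε / 2) * α i ^ 2 - 0) else
        (α i - 0) * (α j - 0)) = 1 - 1 / W - ε * ∑ i, α i ^ 2 := by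
    have h1 : ∀ i : Fin t, (∑ j, if i = j then 2 * ((c i - ε / 2) * α i ^ 2 - 0) else
        (α i - 0) * (α j - 0)) = α i - α i / W - ε * α i ^ 2 := by
      intro i
      have h2 : ∀ j, (if i = j then 2 * ((c i - ε / 2) * α i ^ 2 - 0) else
          (α i - 0) * (α j - 0)) = α i * α j + (if i = j then
            2 * ((c i - ε / 2) * α i ^ 2) - α i * α i else 0) := by
        intro j
        by_cases hij : i = j
        · rw [if_pos hij, if_pos hij, ← hij]
          ring
        · rw [if_neg hij, if_neg hij]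
          ring
      rw [Finset.sum_congr rfl fun j _ => h2 j, Finset.sum_add_distrib, ← Finset.mul_sum, hα1,
        Finset.sum_ite_eq, if_pos (Finset.mem_univ i)]
      have h3 := hα2 i
      linear_combination (-1 : ℝ) * h3
    rw [Finset.sum_congr rfl fun i _ => h1 i, Finset.sum_sub_distrib, Finset.sum_sub_distrib,
      hα1, ← Finset.sum_div, hα1, ← Finset.mul_sum]
  have hlt : 2 * ((1 - 1 / W) / 2 - ε) < ∑ i, ∑ j, (if i = j then
      2 * ((c i - ε / 2) * α i ^ 2 - 0) else (α i - 0) * (α j - 0)) := by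
    rw [hval]
    nlinarith
  have hev := hlim.eventually (lt_mem_nhds hlt)
  have hev2 : ∀ᶠ N in atTop, ∀ i, max (n₀ i) (2 * (q i + 6) + 1) ≤ sz (α i) (C + t) N :=
    eventually_all.2 fun i => (tendsto_sz_atTop (hα i) (C + t)).eventually
      (eventually_ge_atTop _)
  have hev3 := (hev.and hev2).and (eventually_ge_atTop (C + t + 1))
  obtain ⟨N₀, hN₀⟩ := eventually_atTop.1 hev3
  refine ⟨N₀, fun N hN => ?_⟩
  obtain ⟨⟨h1, h2⟩, h3⟩ := hN₀ N hN
  have hN0 : (0 : ℝ) < N := by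
    have : 0 < N := by omega
    exact_mod_cast this
  rw [lt_div_iff₀ (by positivity)] at h1
  -- the graphs
  have hex : ∀ i, ∃ G : SimpleGraph (Fin (sz (α i) (C + t) N)), FC (q i) G ∧
      (c i - ε / 2) * (sz (α i) (C + t) N : ℝ) ^ 2 ≤ (G.edgeSet.ncard : ℝ) := by
    intro i
    refine hn₀ i _ ((le_max_left _ _).trans (h2 i)) ?_
    have h4 := (le_max_right _ _).trans (h2 i)
    unfold sz at h4 ⊢
    exact exists_FC_odd (q i) (hq i) _ (by omega)
  choose G hG1 hG2 using hex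
  have hsum : ∑ i, sz (α i) (C + t) N + C ≤ N := by
    have h4 : ((∑ i, sz (α i) (C + t) N : ℕ) : ℝ) ≤ ((N - (C + t) + t : ℕ) : ℝ) := by
      push_cast
      calc ∑ i, (sz (α i) (C + t) N : ℝ) ≤ ∑ i, (α i * ((N - (C + t) : ℕ) : ℝ) + 1) :=
            Finset.sum_le_sum fun i _ => sz_le (hα i).le _ _
        _ = ((N - (C + t) : ℕ) : ℝ) + t := by
            rw [Finset.sum_add_distrib, ← Finset.sum_mul, hα1, one_mul, Finset.sum_const,
              Finset.card_univ, Fintype.card_fin, nsmul_eq_mul, mul_one]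
    have h5 : ∑ i, sz (α i) (C + t) N ≤ N - (C + t) + t := by exact_mod_cast h4
    omega
  have h6 := hC (fun i => sz (α i) (C + t) N) G hG1 N hsum
  have h7 : g N ≤ 2 * (F (2 + ∑ i, q i) N : ℝ) := by
    calc g N ≤ ((∑ i, ∑ j, if i = j then 2 * ((G i).edgeSet.ncard - 1) else
          (sz (α i) (C + t) N - 2) * (sz (α j) (C + t) N - 2) : ℕ) : ℝ) := by
          push_cast
          refine Finset.sum_le_sum fun i _ => Finset.sum_le_sum fun j _ => ?_
          by_cases hij : i = j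
          · rw [if_pos hij, if_pos hij]
            have h8 : ((G i).edgeSet.ncard : ℝ) - 1 ≤ (((G i).edgeSet.ncard - 1 : ℕ) : ℝ) := by
              have h9 : (G i).edgeSet.ncard ≤ ((G i).edgeSet.ncard - 1) + 1 := by omega
              have h10 : ((G i).edgeSet.ncard : ℝ) ≤
                (((G i).edgeSet.ncard - 1 : ℕ) : ℝ) + 1 := by exact_mod_cast h9
              linarith
            have h11 := hG2 i
            linarith
          · rw [if_neg hij, if_neg hij]
            have h8 : ∀ l, (sz (α l) (C + t) N : ℝ) - 2 =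
                ((sz (α l) (C + t) N - 2 : ℕ) : ℝ) := by
              intro l
              have h9 := (le_max_right _ _).trans (h2 l)
              rw [Nat.cast_sub (by omega)]
              norm_num
            rw [h8, h8]
      _ ≤ ((2 * F (2 + ∑ i, q i) N : ℕ) : ℝ) := by exact_mod_cast h6
      _ = 2 * (F (2 + ∑ i, q i) N : ℝ) := by push_cast; ring
  nlinarith

end Pool.Agent.FC14
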