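import Pool.Agent.FC14.Master
import Pool.Agent.FC14.CompA
import Pool.Agent.FC14.CompB

/-!
# Composition

Paper proof: choose edges `a_i b_i`, apply `master` to `joinG`; count the critical edges of `comp_cross` and
`comp_inner` (`card (Σ i, Fin (n i)) = Σ n i`).
-/

set_option autoImplicit false

namespace Pool.Agent.FC14

open SimpleGraph

variable {ι : Type} [Fintype ι] [DecidableEq ι]

open Classical in
/-- the number of ordered pairs of adjacent vertices -/
theorem compose_sum_adj {V : Type} [Fintype V] (G : SimpleGraph V) :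
    ∑ u, ∑ v, (if G.Adj u v then 1 else 0) = 2 * G.edgeSet.ncard := by
  have h1 := G.sum_degrees_eq_twice_card_edges
  have h2 : G.edgeFinset.card = G.edgeSet.ncard := by
    rw [← SimpleGraph.coe_edgeFinset, Set.ncard_coe_finset]
  rw [h2] at h1
  rw [← h1]
  refine Finset.sum_congr rfl fun u _ => ?_
  rw [← SimpleGraph.card_neighborFinset_eq_degree, SimpleGraph.neighborFinset_eq_filter,
    Finset.card_filter]

/-- a graph which is not colourable, without isolated vertices, has an edge -/
theorem compose_exists_edge {q n : ℕ} {G : SimpleGraph (Fin n)} (h : FC q G) :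
    ∃ a b, G.Adj a b := by
  by_contra hno
  push Not at hno
  apply h.1
  have hn : IsEmpty (Fin n) := by
    refine ⟨fun v => ?_⟩
    obtain ⟨w, hw⟩ := h.2.2 v
    exact hno v w hw
  exact ⟨SimpleGraph.Coloring.mk (fun v => (hn.false v).elim) (fun {v} => (hn.false v).elim)⟩

/-- **Composition.** -/
theorem compose [Nontrivial ι] (qs : ι → ℕ) (hqs : ∀ i, 2 ≤ qs i) :
    ∃ C : ℕ, ∀ (n : ι → ℕ) (G : ∀ i, SimpleGraph (Fin (n i))), (∀ i, FC (qs i) (G i)) →
      ∀ N, (∑ i, n i) + C ≤ N →
      (∑ i, ∑ j, if i = j then 2 * ((G i).edgeSet.ncard - 1) else (n i - 2) * (n j - 2)) ≤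
        2 * F (2 + ∑ i, qs i) N := by
  classical
  have hq : 3 ≤ 1 + ∑ i, qs i := by
    obtain ⟨i, j, hij⟩ := exists_pair_ne ι
    have h1 : qs i + qs j ≤ ∑ i, qs i := by
      rw [← Finset.sum_pair hij]
      exact Finset.sum_le_sum_of_subset (Finset.subset_univ _)
    have h2 := hqs i
    have h3 := hqs j
    omega
  obtain ⟨C, hC⟩ := master (1 + ∑ i, qs i) hq (X := ι × Bool) (joinAcc _) (joinAcc_perm _)
  refine ⟨C, fun n G hG N hN => ?_⟩
  choose a b hab using fun i => compose_exists_edge (hG i)
  have hsound := comp_sound qs hqs G hG a b hab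
  have hcard : Fintype.card (Σ i, Fin (n i)) = ∑ i, n i := by
    rw [Fintype.card_sigma]
    simp
  have hmain := hC (Σ i, Fin (n i)) (joinG G a b) (joinτ a b) hsound N (by rw [hcard]; exact hN)
  have hq2 : 1 + ∑ i, qs i + 1 = 2 + ∑ i, qs i := by ring
  rw [hq2] at hmain
  refine le_trans ?_ (Nat.mul_le_mul_left 2 hmain)
  set S : Set (Sym2 (Σ i, Fin (n i))) := {e | e ∈ (joinG G a b).edgeSet ∧
    Accepts (1 + ∑ i, qs i) ((joinG G a b).deleteEdges {e}) (joinτ a b) (joinAcc _)} with hS
  -- the graph of the critical edges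
  have hedge : (SimpleGraph.fromEdgeSet S).edgeSet = S := by
    rw [SimpleGraph.edgeSet_fromEdgeSet, sdiff_eq_left, Set.disjoint_left]
    intro e he hd
    exact (joinG G a b).not_isDiag_of_mem_edgeSet he.1 hd
  have hsum := compose_sum_adj (SimpleGraph.fromEdgeSet S)
  rw [hedge] at hsum
  rw [← hsum, Fintype.sum_sigma]
  refine Finset.sum_le_sum fun i _ => ?_
  simp_rw [Fintype.sum_sigma]
  rw [Finset.sum_comm]
  refine Finset.sum_le_sum fun j _ => ?_
  have hadj : ∀ x y : Σ i, Fin (n i), x ≠ y → s(x, y) ∈ S →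
      (SimpleGraph.fromEdgeSet S).Adj x y := fun x y hne h => by
    rw [SimpleGraph.fromEdgeSet_adj]
    exact ⟨h, hne⟩
  by_cases hij : i = j
  · subst hij
    rw [if_pos rfl]
    have h1 := compose_sum_adj ((G i).deleteEdges {s(a i, b i)})
    have h2 : ((G i).deleteEdges {s(a i, b i)}).edgeSet.ncard = (G i).edgeSet.ncard - 1 := by
      rw [SimpleGraph.edgeSet_deleteEdges]
      exact Set.ncard_sdiff_singleton_of_mem (hab i)
    rw [h2] at h1
    rw [← h1]
    refine Finset.sum_le_sum fun u _ => Finset.sum_le_sum fun v _ => ?_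
    by_cases h3 : ((G i).deleteEdges {s(a i, b i)}).Adj u v
    · rw [if_pos h3, if_pos]
      refine hadj _ _ ?_ ⟨?_, ?_⟩
      · intro h
        have h4 : u = v := by simpa using h
        exact h3.ne h4
      · exact Or.inr ⟨i, u, v, rfl, rfl, h3⟩
      · rw [SimpleGraph.deleteEdges_adj] at h3
        exact comp_inner qs hqs G hG a b hab i u v h3.1 (by simpa using h3.2)
    · rw [if_neg h3]
      exact Nat.zero_le _
  · rw [if_neg hij]
    have hc : ∀ l, (Finset.univ \ {a l, b l} : Finset (Fin (n l))).card = n l - 2 := by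
      intro l
      rw [Finset.card_sdiff_of_subset (Finset.subset_univ _), Finset.card_univ, Fintype.card_fin,
        Finset.card_pair (hab l).ne]
    rw [← hc i, ← hc j, ← Finset.card_product, Finset.card_eq_sum_ones, Finset.sum_product]
    refine le_trans (Finset.sum_le_sum fun u hu => ?_)
      (Finset.sum_le_sum_of_subset (Finset.subset_univ (Finset.univ \ {a i, b i})))
    refine le_trans (Finset.sum_le_sum fun v hv => ?_)
      (Finset.sum_le_sum_of_subset (Finset.subset_univ (Finset.univ \ {a j, b j})))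
    rw [if_pos]
    simp only [Finset.mem_sdiff, Finset.mem_univ, true_and, Finset.mem_insert,
      Finset.mem_singleton, not_or] at hu hv
    refine hadj _ _ ?_ ⟨?_, ?_⟩
    · intro h
      exact hij (congrArg Sigma.fst h)
    · exact Or.inl hij
    · exact comp_cross qs hqs G hG a b hab i j hij u v hu.1 hu.2 hv.1 hv.2

end Pool.Agent.FC14
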