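import Pool.Agent.FC14.CompLim

/-!
A composition inequality for the lower densities of `k`-critical graphs: if `t ≥ 2`, `k_i ≥ 3` and
`k - 2 = (k_1 - 1) + ... + (k_t - 1)`, then `w(k) ≥ w(k_1) + ... + w(k_t)` where
`w(k) = 1 / (1 - 2 liminf F_k(n) / n^2)`.

The construction: delete one edge from a dense `k_i`-critical graph for each `i`, join the results completely
and close the join by one gadget of bounded size, which can be coloured with `k - 1` colours only if the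
ends of at least two of the deleted edges get different colours.
-/

set_option autoImplicit false

namespace Pool.Agent.FC14.CompositionOld

/-- `G` is `k`-critical: it has chromatic number `k`, and deleting any edge or any vertex lowers the
chromatic number. -/
def IsCritical (k : ℕ) {n : ℕ} (G : SimpleGraph (Fin n)) : Prop :=
  G.chromaticNumber = (k : ℕ∞) ∧
  (∀ e ∈ G.edgeSet, (G.deleteEdges {e}).chromaticNumber < (k : ℕ∞)) ∧
  (∀ v : Fin n, (G.induce ({v}ᶜ : Set (Fin n))).chromaticNumber < (k : ℕ∞))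

/-- `liminf F_k(n) / n^2 ≥ c`, the lower limit taken along the `n` for which a `k`-critical graph on
`n` vertices exists. -/
def LowerDensity (k : ℕ) (c : ℝ) : Prop :=
  ∀ ε : ℝ, 0 < ε → ∃ n₀ : ℕ, ∀ n : ℕ, n₀ ≤ n → (∃ G : SimpleGraph (Fin n), IsCritical k G) →
    ∃ G : SimpleGraph (Fin n), IsCritical k G ∧ (c - ε) * (n : ℝ) ^ 2 ≤ (Nat.card G.edgeSet : ℝ)

theorem isCritical_iff {q n : ℕ} (hq : 1 ≤ q) (G : SimpleGraph (Fin n)) :
    IsCritical (q + 1) G ↔ FC14.FC q G := by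
  constructor
  · rintro ⟨h1, h2, h3⟩
    exact FC14.FC_of_spec hq h1 h2 h3
  · intro h
    have hne : Nonempty (Fin n) := by
      by_contra hV
      rw [not_nonempty_iff] at hV
      exact h.1 (SimpleGraph.Colorable.of_isEmpty q)
    exact h.spec

theorem result (t : ℕ) (ht : 2 ≤ t) (k : Fin t → ℕ) (hk : ∀ i, 3 ≤ k i) (c : Fin t → ℝ)
    (hc1 : ∀ i, c i < 1 / 2) (hc : ∀ i, LowerDensity (k i) (c i)) :
    ∀ ε : ℝ, 0 < ε → ∃ n₀ : ℕ, ∀ n : ℕ, n₀ ≤ n →
      ∃ G : SimpleGraph (Fin n), IsCritical (2 + ∑ i, (k i - 1)) G ∧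
        ((1 - 1 / ∑ i, 1 / (1 - 2 * c i)) / 2 - ε) * (n : ℝ) ^ 2 ≤ (Nat.card G.edgeSet : ℝ) := by
  have hq : ∀ i, 2 ≤ k i - 1 := fun i => by
    have := hk i
    omega
  have hsum : 3 ≤ 1 + ∑ i, (k i - 1) := by
    have h1 : ∑ _i : Fin t, 2 ≤ ∑ i, (k i - 1) := Finset.sum_le_sum fun i _ => hq i
    rw [Finset.sum_const, Finset.card_univ, Fintype.card_fin, smul_eq_mul] at h1
    omega
  have h1 := FC14.compLim ht (fun i => k i - 1) hq c hc1 (fun i ε hε => by
    obtain ⟨n₀, h⟩ := hc i ε hε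
    have hki : k i - 1 + 1 = k i := by
      have := hk i
      omega
    refine ⟨n₀, fun n hn hG => ?_⟩
    obtain ⟨G, hG'⟩ := hG
    obtain ⟨H, hH1, hH2⟩ := h n hn ⟨G, by
      rw [← hki]
      exact (isCritical_iff (by have := hq i; omega) G).2 hG'⟩
    refine ⟨H, ?_, hH2⟩
    rw [← hki] at hH1
    exact (isCritical_iff (by have := hq i; omega) H).1 hH1)
  have h2 : 2 + ∑ i, (k i - 1) = (1 + ∑ i, (k i - 1)) + 1 := by ring
  intro ε hε
  obtain ⟨n₀, h3⟩ := FC14.exists_of_F_bound (1 + ∑ i, (k i - 1)) hsum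
    ((1 - 1 / ∑ i, 1 / (1 - 2 * c i)) / 2) (fun ε hε => by
      obtain ⟨n₀, h⟩ := h1 ε hε
      refine ⟨n₀, fun n hn => ?_⟩
      rw [← h2]
      exact h n hn) ε hε
  refine ⟨n₀, fun n hn => ?_⟩
  obtain ⟨G, hG1, hG2, hG3, hG4⟩ := h3 n hn
  rw [← h2] at hG1 hG2 hG3
  exact ⟨G, ⟨hG1, hG2, hG3⟩, hG4⟩

end Pool.Agent.FC14.CompositionOld
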