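import Pool.Agent.FC14.Crit

/-!
# Cones and complete graphs

Paper proof of `cone`: vertex set `Option (Fin n)`, `none` adjacent to everything. Not `(q+1)`-colourable
(the vertices of `G` avoid the colour of `none`). An edge `v w` of `G`: colour `G - v w` with `q` colours and
`none` with the new colour. The edge `none v`: `FC.exists_coloring_avoid`, give the new colour to `none` and
to `v`. Then transport to `Fin (n + 1)` (`FC.congr`).
-/

set_option autoImplicit false

namespace Pool.Agent.FC14

open SimpleGraph

namespace ConeAux

/-- the cone over a graph -/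
def coneG {V : Type} (G : SimpleGraph V) : SimpleGraph (Option V) where
  Adj x y := match x, y with
    | none, none => False
    | none, some _ => True
    | some _, none => True
    | some a, some b => G.Adj a b
  symm := ⟨by
    intro x y
    cases x <;> cases y
    · exact id
    · exact id
    · exact id
    · exact fun h => G.adj_symm h⟩
  loopless := ⟨by
    intro x
    cases x
    · exact id
    · exact G.irrefl⟩

lemma coneG_some {V : Type} (G : SimpleGraph V) (a b : V) :
    (coneG G).Adj (some a) (some b) ↔ G.Adj a b := Iff.rfl

lemma coneG_none {V : Type} (G : SimpleGraph V) (a : V) : (coneG G).Adj none (some a) := trivial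

lemma coneG_none' {V : Type} (G : SimpleGraph V) (a : V) : (coneG G).Adj (some a) none := trivial

lemma not_colorable {V : Type} {q : ℕ} {G : SimpleGraph V} (h : ¬ G.Colorable q) :
    ¬ (coneG G).Colorable (q + 1) := by
  rintro ⟨c⟩
  apply h
  have h1 : ∀ v, ∃ z, (c none).succAbove z = c (some v) := fun v =>
    Fin.exists_succAbove_eq (fun h => c.valid (coneG_none G v) h.symm)
  choose d hd using h1
  refine ⟨Coloring.mk d ?_⟩
  intro v w hvw heq
  have h2 := hd v
  rw [heq, hd w] at h2
  exact c.valid ((coneG_some G v w).2 hvw) h2.symm

lemma colorable_some {V : Type} {q : ℕ} {G : SimpleGraph V} {a b : V}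
    (h : (G.deleteEdges {s(a, b)}).Colorable q) :
    ((coneG G).deleteEdges {s(some a, some b)}).Colorable (q + 1) := by
  obtain ⟨c⟩ := h
  refine ⟨Coloring.mk (fun x => match x with
    | none => Fin.last q
    | some v => (c v).castSucc) ?_⟩
  intro x y hxy
  rw [deleteEdges_adj] at hxy
  obtain ⟨h1, h2⟩ := hxy
  cases x with
  | none =>
    cases y with
    | none => exact absurd h1 (coneG G).irrefl
    | some v => exact (Fin.castSucc_lt_last _).ne'
  | some u =>
    cases y with
    | none => exact (Fin.castSucc_lt_last _).ne
    | some v =>
      intro heq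
      have h3 : c u = c v := Fin.castSucc_injective _ heq
      refine c.valid (v := u) (w := v) ?_ h3
      rw [deleteEdges_adj]
      refine ⟨(coneG_some G u v).1 h1, fun h4 => h2 ?_⟩
      rw [Set.mem_singleton_iff] at h4 ⊢
      have h5 := congrArg (Sym2.map some) h4
      simpa using h5

lemma colorable_none {V : Type} [DecidableEq V] {q : ℕ} {G : SimpleGraph V} {v : V}
    (h : ∃ c : V → Fin q, ∀ x y, G.Adj x y → x ≠ v → y ≠ v → c x ≠ c y) :
    ((coneG G).deleteEdges {s(none, some v)}).Colorable (q + 1) := by
  obtain ⟨c, hc⟩ := h
  refine ⟨Coloring.mk (fun x => match x with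
    | none => Fin.last q
    | some u => if u = v then Fin.last q else (c u).castSucc) ?_⟩
  intro x y hxy
  rw [deleteEdges_adj] at hxy
  obtain ⟨h1, h2⟩ := hxy
  rw [Set.mem_singleton_iff] at h2
  cases x with
  | none =>
    cases y with
    | none => exact absurd h1 (coneG G).irrefl
    | some u =>
      have hu : u ≠ v := fun hu => h2 (by rw [hu])
      simp only [if_neg hu]
      exact (Fin.castSucc_lt_last _).ne'
  | some u =>
    cases y with
    | none =>
      have hu : u ≠ v := fun hu => h2 (by rw [hu, Sym2.eq_swap])
      simp only [if_neg hu]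
      exact (Fin.castSucc_lt_last _).ne
    | some w =>
      have h3 := (coneG_some G u w).1 h1
      by_cases hu : u = v
      · have hw : w ≠ v := fun hw => h3.ne (hu.trans hw.symm)
        simp only [if_pos hu, if_neg hw]
        exact (Fin.castSucc_lt_last _).ne'
      · by_cases hw : w = v
        · simp only [if_neg hu, if_pos hw]
          exact (Fin.castSucc_lt_last _).ne
        · simp only [if_neg hu, if_neg hw]
          exact fun heq => hc u w h3 hu hw (Fin.castSucc_injective _ heq)

lemma FC_cone {n q : ℕ} (hn : 0 < n) {G : SimpleGraph (Fin n)} (h : FC q G) :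
    FC (q + 1) (coneG G) := by
  refine ⟨not_colorable h.1, ?_, ?_⟩
  · intro e he
    induction e using Sym2.ind with
    | _ x y =>
      rw [mem_edgeSet] at he
      cases x with
      | none =>
        cases y with
        | none => exact absurd he (coneG G).irrefl
        | some v => exact colorable_none (h.exists_coloring_avoid v)
      | some u =>
        cases y with
        | none =>
          rw [Sym2.eq_swap]
          exact colorable_none (h.exists_coloring_avoid u)
        | some v => exact colorable_some (h.2.1 _ ((mem_edgeSet G).2 ((coneG_some G u v).1 he)))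
  · intro x
    cases x with
    | none => exact ⟨some ⟨0, hn⟩, coneG_none G _⟩
    | some v => exact ⟨none, coneG_none' G v⟩

end ConeAux

theorem cone {n q : ℕ} (hn : 0 < n) (G : SimpleGraph (Fin n)) (h : FC q G) :
    ∃ G' : SimpleGraph (Fin (n + 1)), FC (q + 1) G' :=
  ⟨_, (ConeAux.FC_cone hn h).congr (SimpleGraph.Iso.map (finSuccEquiv n).symm (ConeAux.coneG G))⟩

theorem complete_FC (q : ℕ) (hq : 1 ≤ q) : FC q (⊤ : SimpleGraph (Fin (q + 1))) := by
  refine ⟨?_, ?_, ?_⟩
  · rintro ⟨c⟩
    have h1 : Function.Injective c := by
      intro x y hxy
      by_contra hne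
      exact c.valid (show (⊤ : SimpleGraph (Fin (q + 1))).Adj x y from hne) hxy
    have h2 := Fintype.card_le_of_injective _ h1
    simp at h2
  · intro e he
    induction e using Sym2.ind with
    | _ a b =>
      rw [mem_edgeSet, top_adj] at he
      have h1 : ∀ x, ∃ z, x ≠ a → a.succAbove z = x := by
        intro x
        by_cases hx : x = a
        · exact ⟨⟨0, hq⟩, fun h => absurd hx h⟩
        · obtain ⟨z, hz⟩ := Fin.exists_succAbove_eq hx
          exact ⟨z, fun _ => hz⟩
      choose d hd using h1
      have key : ∀ x y, x ≠ a → y ≠ a → d x = d y → x = y := by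
        intro x y hx hy hxy
        rw [← hd x hx, ← hd y hy, hxy]
      refine ⟨Coloring.mk (fun x => if x = a then d b else d x) ?_⟩
      intro x y hxy
      rw [deleteEdges_adj, top_adj, Set.mem_singleton_iff] at hxy
      obtain ⟨h2, h3⟩ := hxy
      by_cases hx : x = a
      · have hy : y ≠ a := fun hy => h2 (hx.trans hy.symm)
        simp only [if_pos hx, if_neg hy]
        intro heq
        apply h3
        rw [hx, key b y (Ne.symm he) hy heq]
      · by_cases hy : y = a
        · simp only [if_neg hx, if_pos hy]
          intro heq
          apply h3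
          rw [hy, ← key x b hx (Ne.symm he) heq, Sym2.eq_swap]
        · simp only [if_neg hx, if_neg hy]
          exact fun heq => h2 (key x y hx hy heq)
  · intro v
    have : Nontrivial (Fin (q + 1)) := Fin.nontrivial_iff_two_le.2 (by omega)
    obtain ⟨w, hw⟩ := exists_ne v
    exact ⟨w, Ne.symm hw⟩

end Pool.Agent.FC14
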