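import Mathlib

/-!
# Dense colour-critical graphs: definitions

`F k n` is the largest number of edges of a `k`-critical graph with exactly `n` vertices.
-/

set_option autoImplicit false

namespace Pool.Agent.FC14

open SimpleGraph

/-- The largest number of edges of a `k`-critical graph with exactly `n` vertices (a graph with
chromatic number `k` in which deleting any edge or any vertex lowers the chromatic number). -/
noncomputable def F (k n : ℕ) : ℕ :=
  sSup {m : ℕ | ∃ G : SimpleGraph (Fin n),
    G.chromaticNumber = (k : ℕ∞) ∧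
    (∀ e ∈ G.edgeSet, (G.deleteEdges {e}).chromaticNumber < (k : ℕ∞)) ∧
    (∀ v : Fin n, (G.induce ({v}ᶜ : Set (Fin n))).chromaticNumber < (k : ℕ∞)) ∧
    Nat.card G.edgeSet = m}

/-- `G` is `(q+1)`-critical: not `q`-colourable, but `q`-colourable after deleting any edge, and
without isolated vertices. -/
def FC {V : Type} (q : ℕ) (G : SimpleGraph V) : Prop :=
  ¬ G.Colorable q ∧ (∀ e ∈ G.edgeSet, (G.deleteEdges {e}).Colorable q) ∧ ∀ v, ∃ w, G.Adj v w

/-- `G` is not `q`-colourable and every vertex lies on an edge whose deletion makes the graph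
`q`-colourable. -/
def VC {V : Type} (q : ℕ) (G : SimpleGraph V) : Prop :=
  ¬ G.Colorable q ∧ ∀ v, ∃ w, G.Adj v w ∧ (G.deleteEdges {s(v, w)}).Colorable q

/-- The edges whose deletion makes the graph `q`-colourable. -/
def critEdges {V : Type} (q : ℕ) (G : SimpleGraph V) : Set (Sym2 V) :=
  {e | e ∈ G.edgeSet ∧ (G.deleteEdges {e}).Colorable q}

/-- Some proper `q`-colouring of `D` is accepted on the terminals `τ`. -/
def Accepts {V X : Type} (q : ℕ) (D : SimpleGraph V) (τ : X → V) (Acc : (X → Fin q) → Prop) :
    Prop :=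
  ∃ φ : D.Coloring (Fin q), Acc (fun x => φ (τ x))

/-- Relations on colourings of `X` which can be expressed by finitely many disequalities between
the elements of `X` and finitely many new elements. -/
def Dfn (q : ℕ) (X : Type) (R : (X → Fin q) → Prop) : Prop :=
  ∃ (Y : Type) (_ : Fintype Y) (E : X ⊕ Y → X ⊕ Y → Prop), (∀ u, ¬ E u u) ∧
    ∀ c : X → Fin q, R c ↔ ∃ d : Y → Fin q, ∀ u v, E u v → Sum.elim c d u ≠ Sum.elim c d v

end Pool.Agent.FC14
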