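import Pool.Agent.FC14.Final

/-!
# Existence of dense critical graphs on exactly `n` vertices
-/

set_option autoImplicit false

namespace Pool.Agent.FC14

open SimpleGraph

theorem exists_of_F_bound (q : ℕ) (hq : 3 ≤ q) (L : ℝ)
    (h : ∀ ε : ℝ, 0 < ε → ∃ n₀ : ℕ, ∀ n : ℕ, n₀ ≤ n → (L - ε) * (n : ℝ) ^ 2 ≤ F (q + 1) n) :
    ∀ ε : ℝ, 0 < ε → ∃ n₀ : ℕ, ∀ n : ℕ, n₀ ≤ n →
      ∃ G : SimpleGraph (Fin n), G.chromaticNumber = ((q + 1 : ℕ) : ℕ∞) ∧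
        (∀ e ∈ G.edgeSet, (G.deleteEdges {e}).chromaticNumber < ((q + 1 : ℕ) : ℕ∞)) ∧
        (∀ v : Fin n, (G.induce ({v}ᶜ : Set (Fin n))).chromaticNumber < ((q + 1 : ℕ) : ℕ∞)) ∧
        (L - ε) * (n : ℝ) ^ 2 ≤ (Nat.card G.edgeSet : ℝ) := by
  intro ε hε
  obtain ⟨n₀, h1⟩ := h ε hε
  refine ⟨max n₀ (q + 6), fun n hn => ?_⟩
  have hn1 : n₀ ≤ n := le_trans (le_max_left _ _) hn
  have hn2 : q + 6 ≤ n := le_trans (le_max_right _ _) hn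
  haveI : Nonempty (Fin n) := ⟨⟨0, by omega⟩⟩
  have h2 := h1 n hn1
  rcases Nat.eq_zero_or_pos (F (q + 1) n) with h3 | h3
  · obtain ⟨G, hG⟩ := exists_FC q hq n hn2
    refine ⟨G, hG.spec.1, hG.spec.2.1, hG.spec.2.2, ?_⟩
    rw [h3, Nat.cast_zero] at h2
    exact h2.trans (Nat.cast_nonneg _)
  · obtain ⟨G, hG, hGe⟩ := exists_of_F_pos h3
    refine ⟨G, hG.spec.1, hG.spec.2.1, hG.spec.2.2, ?_⟩
    have h4 : Nat.card G.edgeSet = F (q + 1) n := by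
      rw [← hGe]
      rfl
    rw [h4]
    exact h2

end Pool.Agent.FC14
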