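import Pool.Agent.FC14.Inst
import Pool.Agent.FC14.Compose

/-!
# The lower bounds

* `four`: `d = 0` in `lower`. `five`: `d = 1` in `lower`.
* `even`: `compose` with `t` components of `q = 2` on `2 s + 1` vertices (`exists_FC_two`), then `asymp'`.
* `odd`: `compose` with `t` components of `q = 2` on `12 s + 1` vertices and one component with `q = 3`
  on `14 s` vertices and `F 4 (14 s) ≥ (1 / 14 - ε) (14 s) ^ 2` edges (`four`, `exists_of_F_pos`), then `asymp'`.
-/

set_option autoImplicit false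

namespace Pool.Agent.FC14

theorem four : ∀ ε : ℝ, 0 < ε → ∃ n₀ : ℕ, ∀ n : ℕ, n₀ ≤ n →
    (1 / 14 - ε) * (n : ℝ) ^ 2 ≤ F 4 n := by
  intro ε hε
  obtain ⟨n₀, h⟩ := lower 0 ε hε
  refine ⟨n₀, fun n hn => ?_⟩
  have h1 := h n hn
  norm_num at h1 ⊢
  exact h1

theorem five : ∀ ε : ℝ, 0 < ε → ∃ n₀ : ℕ, ∀ n : ℕ, n₀ ≤ n →
    (2 / 13 - ε) * (n : ℝ) ^ 2 ≤ F 5 n := by
  intro ε hε
  obtain ⟨n₀, h⟩ := lower 1 ε hε
  refine ⟨n₀, fun n hn => ?_⟩
  have h1 := h n hn
  norm_num at h1 ⊢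
  exact h1

/-- sums over the off-diagonal pairs -/
theorem final_sum_offdiag (t c : ℕ) (A : Fin t → ℕ) :
    t * (t - 1) * c ≤ ∑ i : Fin t, ∑ j : Fin t, if i = j then A i else c := by
  have h1 : ∀ i : Fin t, (t - 1) * c ≤ ∑ j : Fin t, if i = j then A i else c := by
    intro i
    have h2 : ∑ j ∈ Finset.univ.erase i, c ≤ ∑ j : Fin t, if i = j then A i else c := by
      calc ∑ j ∈ Finset.univ.erase i, c
          = ∑ j ∈ Finset.univ.erase i, (if i = j then A i else c) := by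
            refine Finset.sum_congr rfl fun j hj => ?_
            rw [if_neg (Finset.ne_of_mem_erase hj).symm]
        _ ≤ _ := Finset.sum_le_sum_of_subset (Finset.erase_subset _ _)
    rw [Finset.sum_const, Finset.card_erase_of_mem (Finset.mem_univ i), Finset.card_univ,
      Fintype.card_fin, smul_eq_mul] at h2
    exact h2
  have h3 : ∑ _i : Fin t, (t - 1) * c ≤ ∑ i : Fin t, ∑ j : Fin t, if i = j then A i else c :=
    Finset.sum_le_sum fun i _ => h1 i
  rw [Finset.sum_const, Finset.card_univ, Fintype.card_fin, smul_eq_mul, ← mul_assoc] at h3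
  exact h3

/-- `k = 2 t + 2` -/
theorem even (t : ℕ) (ht : 2 ≤ t) : ∀ ε : ℝ, 0 < ε → ∃ n₀ : ℕ, ∀ n : ℕ, n₀ ≤ n →
    (((t : ℝ) - 1) / (2 * t) - ε) * (n : ℝ) ^ 2 ≤ F (2 * t + 2) n := by
  haveI : Nontrivial (Fin t) := Fin.nontrivial_iff_two_le.2 ht
  obtain ⟨C, hC⟩ := compose (fun _ : Fin t => 2) (fun _ => le_rfl)
  have h1 : ∀ s : ℕ, 1 ≤ s → ∀ n, 2 * t * s + (t + C) ≤ n →
      (2 * (t : ℝ) * (t - 1)) * (s : ℝ) ^ 2 - (2 * (t : ℝ) * (t - 1)) * s ≤
        F (2 * t + 2) n := by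
    intro s hs n hn
    obtain ⟨G, hG⟩ := exists_FC_two s hs
    have h2 := hC (fun _ => 2 * s + 1) (fun _ => G) (fun _ => hG) n (by
      rw [Finset.sum_const, Finset.card_univ, Fintype.card_fin, smul_eq_mul]
      have : t * (2 * s + 1) = 2 * t * s + t := by ring
      omega)
    have h3 : 2 + ∑ _i : Fin t, 2 = 2 * t + 2 := by
      rw [Finset.sum_const, Finset.card_univ, Fintype.card_fin, smul_eq_mul]
      ring
    rw [h3] at h2
    have h4 := (final_sum_offdiag t ((2 * s + 1 - 2) * (2 * s + 1 - 2))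
      (fun _ => 2 * (G.edgeSet.ncard - 1))).trans h2
    have h5 : ((t * (t - 1) * ((2 * s + 1 - 2) * (2 * s + 1 - 2)) : ℕ) : ℝ) ≤
        ((2 * F (2 * t + 2) n : ℕ) : ℝ) := by exact_mod_cast h4
    have h6 : ((t - 1 : ℕ) : ℝ) = (t : ℝ) - 1 := by
      rw [Nat.cast_sub (by omega)]
      norm_num
    have h7 : ((2 * s + 1 - 2 : ℕ) : ℝ) = 2 * (s : ℝ) - 1 := by
      rw [Nat.cast_sub (by omega)]
      push_cast
      ring
    rw [Nat.cast_mul, Nat.cast_mul, Nat.cast_mul, h6, h7, Nat.cast_mul] at h5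
    have ht' : (2 : ℝ) ≤ t := by exact_mod_cast ht
    have h8 : 0 ≤ (t : ℝ) * (t - 1) := by nlinarith
    push_cast at h5
    nlinarith
  intro ε hε
  obtain ⟨n₀, h2⟩ := asymp' (F (2 * t + 2)) (2 * t) (t + C) (2 * (t : ℝ) * (t - 1))
    (2 * (t : ℝ) * (t - 1)) (by omega) h1 ε hε
  refine ⟨n₀, fun n hn => ?_⟩
  have h3 := h2 n hn
  have ht' : (2 : ℝ) ≤ t := by exact_mod_cast ht
  have h4 : (2 * (t : ℝ) * (t - 1)) / ((2 * t : ℕ) : ℝ) ^ 2 = ((t : ℝ) - 1) / (2 * t) := by
    push_cast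
    field_simp
  rw [h4] at h3
  exact h3

/-- `k = 2 t + 5` -/
theorem odd (t : ℕ) (ht : 1 ≤ t) : ∀ ε : ℝ, 0 < ε → ∃ n₀ : ℕ, ∀ n : ℕ, n₀ ≤ n →
    ((6 * (t : ℝ) + 1) / (2 * (6 * t + 7)) - ε) * (n : ℝ) ^ 2 ≤ F (2 * t + 5) n := by
  intro ε hε
  have ht' : (1 : ℝ) ≤ t := by exact_mod_cast ht
  haveI : Nonempty (Fin t) := ⟨⟨0, by omega⟩⟩
  haveI : Nontrivial (Option (Fin t)) := inferInstance
  obtain ⟨C, hC⟩ := compose (fun o : Option (Fin t) => if o.isSome then 2 else 3)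
    (fun o => by split_ifs <;> norm_num)
  set δ : ℝ := min (ε / 2) (1 / 28) with hδ
  have hδ0 : 0 < δ := lt_min (by linarith) (by norm_num)
  have hδ1 : δ ≤ ε / 2 := min_le_left _ _
  have hδ2 : δ ≤ 1 / 28 := min_le_right _ _
  obtain ⟨m₀, hm₀⟩ := four δ hδ0
  set L0 : ℝ := 72 * (t : ℝ) ^ 2 + 96 * t + 14 with hL0
  have hL00 : 0 ≤ L0 := by positivity
  set L : ℝ := L0 - 196 * δ with hL
  set B : ℝ := 12 * (t : ℝ) ^ 2 + 26 * t + 1 + L0 * m₀ with hB
  have h1 : ∀ s : ℕ, 1 ≤ s → ∀ n, (12 * t + 14) * s + (t + C) ≤ n →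
      L * (s : ℝ) ^ 2 - B * s ≤ F (2 * t + 5) n := by
    intro s hs n hn
    have hs' : (1 : ℝ) ≤ s := by exact_mod_cast hs
    rcases lt_or_ge s m₀ with hlt | hge
    · have h2 : (s : ℝ) ≤ m₀ := by exact_mod_cast hlt.le
      have h3 : L * (s : ℝ) ^ 2 - B * s ≤ 0 := by
        have h4 : L ≤ L0 := by rw [hL]; linarith
        have h5 : L * (s : ℝ) ^ 2 ≤ L0 * (s : ℝ) ^ 2 :=
          mul_le_mul_of_nonneg_right h4 (by positivity)
        have h6 : L0 * (s : ℝ) ^ 2 ≤ L0 * m₀ * s := by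
          have : L0 * s * s ≤ L0 * s * m₀ := mul_le_mul_of_nonneg_left h2 (by positivity)
          nlinarith
        have h7 : 0 ≤ (12 * (t : ℝ) ^ 2 + 26 * t + 1) * s := by positivity
        rw [hB]
        nlinarith
      have h8 : (0 : ℝ) ≤ F (2 * t + 5) n := by positivity
      linarith
    · have h2 := hm₀ (14 * s) (by omega)
      have h3 : 0 < F 4 (14 * s) := by
        have h4 : (0 : ℝ) < (1 / 14 - δ) * ((14 * s : ℕ) : ℝ) ^ 2 := by
          apply mul_pos (by linarith)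
          push_cast
          positivity
        exact_mod_cast h4.trans_le h2
      obtain ⟨G0, hG0, hG0c⟩ := exists_of_F_pos (q := 3) h3
      obtain ⟨G1, hG1⟩ := exists_FC_two (6 * s) (by omega)
      have h4 := hC (fun o => match o with
          | none => 14 * s
          | some _ => 2 * (6 * s) + 1) (fun o => match o with
          | none => G0
          | some _ => G1) (fun o => by
            rcases o with _ | i
            · exact hG0
            · exact hG1) n (by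
              rw [Fintype.sum_option]
              simp only [Finset.sum_const, Finset.card_univ, Fintype.card_fin, smul_eq_mul]
              have : t * (2 * (6 * s) + 1) = 12 * t * s + t := by ring
              have h9 : (12 * t + 14) * s = 12 * t * s + 14 * s := by ring
              omega)
      have h5 : 2 + ∑ o : Option (Fin t), (if o.isSome then 2 else 3) = 2 * t + 5 := by
        rw [Fintype.sum_option]
        simp only [Option.isSome_none, Option.isSome_some, if_true, Finset.sum_const,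
          Finset.card_univ, Fintype.card_fin, smul_eq_mul]
        norm_num
        ring
      rw [h5, Fintype.sum_option, Fintype.sum_option] at h4
      simp only [Fintype.sum_option, if_true, reduceCtorEq, if_false, Option.some.injEq,
        Finset.sum_const, Finset.card_univ, Fintype.card_fin, smul_eq_mul,
        Finset.sum_add_distrib] at h4
      have h6 := final_sum_offdiag t ((2 * (6 * s) + 1 - 2) * (2 * (6 * s) + 1 - 2))
        (fun _ => 2 * (G1.edgeSet.ncard - 1))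
      rw [hG0c] at h4
      have h7 : 2 * (F 4 (14 * s) - 1) + t * ((14 * s - 2) * (2 * (6 * s) + 1 - 2)) +
          (t * ((2 * (6 * s) + 1 - 2) * (14 * s - 2)) +
            t * (t - 1) * ((2 * (6 * s) + 1 - 2) * (2 * (6 * s) + 1 - 2))) ≤
          2 * F (2 * t + 5) n := by
        refine le_trans ?_ h4
        exact Nat.add_le_add_left (Nat.add_le_add_left h6 _) _
      have h8 : ((2 * (F 4 (14 * s) - 1) + t * ((14 * s - 2) * (2 * (6 * s) + 1 - 2)) +
          (t * ((2 * (6 * s) + 1 - 2) * (14 * s - 2)) +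
            t * (t - 1) * ((2 * (6 * s) + 1 - 2) * (2 * (6 * s) + 1 - 2))) : ℕ) : ℝ) ≤
          ((2 * F (2 * t + 5) n : ℕ) : ℝ) := by exact_mod_cast h7
      have e1 : ((t - 1 : ℕ) : ℝ) = (t : ℝ) - 1 := by
        rw [Nat.cast_sub ht]
        norm_num
      have e2 : ((2 * (6 * s) + 1 - 2 : ℕ) : ℝ) = 12 * (s : ℝ) - 1 := by
        rw [Nat.cast_sub (by omega)]
        push_cast
        ring
      have e3 : ((14 * s - 2 : ℕ) : ℝ) = 14 * (s : ℝ) - 2 := by
        rw [Nat.cast_sub (by omega)]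
        push_cast
        ring
      have e4 : ((F 4 (14 * s) - 1 : ℕ) : ℝ) = (F 4 (14 * s) : ℝ) - 1 := by
        rw [Nat.cast_sub h3]
        norm_num
      simp only [Nat.cast_add, Nat.cast_mul, e1, e2, e3, e4, Nat.cast_ofNat] at h8
      push_cast at h2
      have h10 : L * (s : ℝ) ^ 2 - B * s ≤
          ((14 - 196 * δ) * (s : ℝ) ^ 2 - 1) + t * ((14 * s - 2) * (12 * s - 1)) +
            t * (t - 1) * ((12 * s - 1) * (12 * s - 1)) / 2 := by
        rw [hL, hB, hL0]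
        have hh : 0 ≤ (t : ℝ) * (t - 1) := by nlinarith
        have hh2 : 0 ≤ L0 * m₀ * s := by positivity
        rw [hL0] at hh2
        nlinarith
      have h11 : (14 - 196 * δ) * (s : ℝ) ^ 2 ≤ F 4 (14 * s) := by
        calc (14 - 196 * δ) * (s : ℝ) ^ 2 = (1 / 14 - δ) * (14 * (s : ℝ)) ^ 2 := by ring
          _ ≤ _ := h2
      linarith
  obtain ⟨n₀, h2⟩ := asymp' (F (2 * t + 5)) (12 * t + 14) (t + C) L B (by omega) h1 (ε / 2)
    (by linarith)
  refine ⟨n₀, fun n hn => ?_⟩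
  have h3 := h2 n hn
  refine le_trans ?_ h3
  apply mul_le_mul_of_nonneg_right _ (by positivity)
  have h4 : L0 / ((12 * t + 14 : ℕ) : ℝ) ^ 2 = (6 * (t : ℝ) + 1) / (2 * (6 * t + 7)) := by
    rw [hL0]
    push_cast
    rw [div_eq_div_iff (by positivity) (by positivity)]
    ring
  have h5 : L / ((12 * t + 14 : ℕ) : ℝ) ^ 2 = L0 / ((12 * t + 14 : ℕ) : ℝ) ^ 2 -
      196 * δ / ((12 * t + 14 : ℕ) : ℝ) ^ 2 := by
    rw [hL, sub_div]
  have h6 : 196 * δ / ((12 * t + 14 : ℕ) : ℝ) ^ 2 ≤ ε / 2 := by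
    rw [div_le_iff₀ (by positivity)]
    push_cast
    nlinarith
  rw [h5, h4]
  linarith

end Pool.Agent.FC14
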