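import Pool.Agent.FC14.Defs

/-!
# Closure properties of definable relations

Paper proofs: `Dfn.and`: new elements `Y₁ ⊕ Y₂`; `Dfn.all`: new elements `Σ i, Y i`; `Dfn.ex`: new elements
`Z ⊕ Y`; `Dfn.map`: same new elements, `E` transported along the injective map `Sum.map f id`; `Dfn.ne`: no new elements;
`Dfn.perm`: apply `π` to the new elements as well.
-/

set_option autoImplicit false

namespace Pool.Agent.FC14

variable {q : ℕ} {X : Type}

theorem Dfn.congr {R S : (X → Fin q) → Prop} (h : Dfn q X R) (hRS : ∀ c, R c ↔ S c) : Dfn q X S := by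
  obtain ⟨Y, hY, E, h1, h2⟩ := h
  exact ⟨Y, hY, E, h1, fun c => (hRS c).symm.trans (h2 c)⟩

private theorem relMap_irrefl {A B : Type} {E : A → A → Prop} (h : ∀ u, ¬ E u u) (ι : A → B)
    (hι : Function.Injective ι) (u : B) : ¬ Relation.Map E ι ι u u := by
  rintro ⟨a, b, h1, h2, h3⟩
  obtain rfl := hι (h2.trans h3.symm)
  exact h a h1

private theorem relMap_forall {A B : Type} {E : A → A → Prop} (ι : A → B) (g : B → Fin q) :
    (∀ u v, Relation.Map E ι ι u v → g u ≠ g v) ↔ ∀ a b, E a b → g (ι a) ≠ g (ι b) := by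
  constructor
  · intro h a b hab
    exact h _ _ ⟨a, b, hab, rfl, rfl⟩
  · rintro h u v ⟨a, b, hab, rfl, rfl⟩
    exact h a b hab

theorem Dfn.and {R S : (X → Fin q) → Prop} (hR : Dfn q X R) (hS : Dfn q X S) :
    Dfn q X (fun c => R c ∧ S c) := by
  obtain ⟨Y₁, hY₁, E₁, h1, h2⟩ := hR
  obtain ⟨Y₂, hY₂, E₂, h3, h4⟩ := hS
  let i₁ : X ⊕ Y₁ → X ⊕ (Y₁ ⊕ Y₂) := Sum.map id Sum.inl
  let i₂ : X ⊕ Y₂ → X ⊕ (Y₁ ⊕ Y₂) := Sum.map id Sum.inr
  have hi₁ : Function.Injective i₁ :=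
    Sum.map_injective.2 ⟨Function.injective_id, Sum.inl_injective⟩
  have hi₂ : Function.Injective i₂ :=
    Sum.map_injective.2 ⟨Function.injective_id, Sum.inr_injective⟩
  refine ⟨Y₁ ⊕ Y₂, inferInstance, fun u v => Relation.Map E₁ i₁ i₁ u v ∨ Relation.Map E₂ i₂ i₂ u v,
    ?_, ?_⟩
  · rintro u (h | h)
    · exact relMap_irrefl h1 i₁ hi₁ u h
    · exact relMap_irrefl h3 i₂ hi₂ u h
  · intro c
    show (R c ∧ S c) ↔ _
    rw [h2, h4]
    constructor
    · rintro ⟨⟨d₁, h5⟩, d₂, h6⟩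
      refine ⟨Sum.elim d₁ d₂, ?_⟩
      rintro u v (h | h)
      · refine (relMap_forall i₁ (Sum.elim c (Sum.elim d₁ d₂))).2 ?_ u v h
        rintro (a | a) (b | b) hab
        · exact h5 _ _ hab
        · exact h5 _ _ hab
        · exact h5 _ _ hab
        · exact h5 _ _ hab
      · refine (relMap_forall i₂ (Sum.elim c (Sum.elim d₁ d₂))).2 ?_ u v h
        rintro (a | a) (b | b) hab
        · exact h6 _ _ hab
        · exact h6 _ _ hab
        · exact h6 _ _ hab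
        · exact h6 _ _ hab
    · rintro ⟨d, h5⟩
      refine ⟨⟨fun y => d (Sum.inl y), ?_⟩, ⟨fun y => d (Sum.inr y), ?_⟩⟩
      · rintro (a | a) (b | b) hab
        · exact h5 _ _ (Or.inl ⟨_, _, hab, rfl, rfl⟩)
        · exact h5 _ _ (Or.inl ⟨_, _, hab, rfl, rfl⟩)
        · exact h5 _ _ (Or.inl ⟨_, _, hab, rfl, rfl⟩)
        · exact h5 _ _ (Or.inl ⟨_, _, hab, rfl, rfl⟩)
      · rintro (a | a) (b | b) hab
        · exact h5 _ _ (Or.inr ⟨_, _, hab, rfl, rfl⟩)
        · exact h5 _ _ (Or.inr ⟨_, _, hab, rfl, rfl⟩)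
        · exact h5 _ _ (Or.inr ⟨_, _, hab, rfl, rfl⟩)
        · exact h5 _ _ (Or.inr ⟨_, _, hab, rfl, rfl⟩)

theorem Dfn.all {ι : Type} [Finite ι] {R : ι → (X → Fin q) → Prop} (h : ∀ i, Dfn q X (R i)) :
    Dfn q X (fun c => ∀ i, R i c) := by
  choose Y hY E h1 h2 using h
  have hι : Fintype ι := Fintype.ofFinite ι
  let j : ∀ i, X ⊕ Y i → X ⊕ (Σ i, Y i) := fun i => Sum.map id (Sigma.mk i)
  have hj : ∀ i, Function.Injective (j i) := fun i =>
    Sum.map_injective.2 ⟨Function.injective_id, sigma_mk_injective⟩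
  refine ⟨Σ i, Y i, Fintype.ofFinite _, fun u v => ∃ i, Relation.Map (E i) (j i) (j i) u v, ?_, ?_⟩
  · rintro u ⟨i, h⟩
    exact relMap_irrefl (h1 i) (j i) (hj i) u h
  · intro c
    constructor
    · intro h
      have h' := fun i => (h2 i c).1 (h i)
      choose d h5 using h'
      refine ⟨fun y => d y.1 y.2, ?_⟩
      rintro u v ⟨i, h⟩
      refine (relMap_forall (j i) (Sum.elim c fun y => d y.1 y.2)).2 ?_ u v h
      rintro (a | a) (b | b) hab
      · exact h5 i _ _ hab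
      · exact h5 i _ _ hab
      · exact h5 i _ _ hab
      · exact h5 i _ _ hab
    · rintro ⟨d, h5⟩ i
      rw [h2]
      refine ⟨fun y => d ⟨i, y⟩, ?_⟩
      rintro (a | a) (b | b) hab
      · exact h5 _ _ ⟨i, _, _, hab, rfl, rfl⟩
      · exact h5 _ _ ⟨i, _, _, hab, rfl, rfl⟩
      · exact h5 _ _ ⟨i, _, _, hab, rfl, rfl⟩
      · exact h5 _ _ ⟨i, _, _, hab, rfl, rfl⟩

theorem Dfn.ex {Z : Type} [Finite Z] {R : (X ⊕ Z → Fin q) → Prop} (h : Dfn q (X ⊕ Z) R) :
    Dfn q X (fun c => ∃ d : Z → Fin q, R (Sum.elim c d)) := by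
  obtain ⟨Y, hY, E, h1, h2⟩ := h
  have hZ : Fintype Z := Fintype.ofFinite Z
  let j : (X ⊕ Z) ⊕ Y → X ⊕ (Z ⊕ Y) := Equiv.sumAssoc X Z Y
  have hj : Function.Injective j := (Equiv.sumAssoc X Z Y).injective
  have key : ∀ (c : X → Fin q) (d : Z → Fin q) (e : Y → Fin q) (u : (X ⊕ Z) ⊕ Y),
      Sum.elim c (Sum.elim d e) (j u) = Sum.elim (Sum.elim c d) e u := by
    rintro c d e ((x | z) | y) <;> rfl
  refine ⟨Z ⊕ Y, inferInstance, Relation.Map E j j, relMap_irrefl h1 j hj, fun c => ?_⟩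
  constructor
  · rintro ⟨d, h3⟩
    rw [h2] at h3
    obtain ⟨e, h4⟩ := h3
    refine ⟨Sum.elim d e, (relMap_forall j _).2 ?_⟩
    intro a b hab
    rw [key, key]
    exact h4 a b hab
  · rintro ⟨d, h3⟩
    refine ⟨fun z => d (Sum.inl z), ?_⟩
    rw [h2]
    refine ⟨fun y => d (Sum.inr y), ?_⟩
    intro a b hab
    have h4 := (relMap_forall j _).1 h3 a b hab
    have h5 : d = Sum.elim (fun z => d (Sum.inl z)) (fun y => d (Sum.inr y)) := by
      funext u
      rcases u with u | u <;> rfl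
    rw [h5, key, key] at h4
    exact h4

theorem Dfn.map {X' : Type} {R : (X → Fin q) → Prop} (h : Dfn q X R) (f : X → X')
    (hf : Function.Injective f) : Dfn q X' (fun c => R (c ∘ f)) := by
  obtain ⟨Y, hY, E, h1, h2⟩ := h
  let j : X ⊕ Y → X' ⊕ Y := Sum.map f id
  have hj : Function.Injective j := Sum.map_injective.2 ⟨hf, Function.injective_id⟩
  have key : ∀ (c : X' → Fin q) (e : Y → Fin q) (u : X ⊕ Y),
      Sum.elim c e (j u) = Sum.elim (c ∘ f) e u := by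
    rintro c e (x | y) <;> rfl
  refine ⟨Y, hY, Relation.Map E j j, relMap_irrefl h1 j hj, fun c => ?_⟩
  show R (c ∘ f) ↔ _
  rw [h2]
  refine exists_congr fun d => ?_
  rw [relMap_forall]
  simp only [key]

theorem Dfn.ne (x y : X) (h : x ≠ y) : Dfn q X (fun c => c x ≠ c y) := by
  refine ⟨Empty, inferInstance, fun u v => u = Sum.inl x ∧ v = Sum.inl y, ?_, fun c => ?_⟩
  · rintro u ⟨h1, h2⟩
    exact h (Sum.inl.inj (h1.symm.trans h2))
  · constructor
    · intro h1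
      refine ⟨fun e => e.elim, ?_⟩
      rintro u v ⟨rfl, rfl⟩
      exact h1
    · rintro ⟨d, h1⟩
      exact h1 _ _ ⟨rfl, rfl⟩

theorem Dfn.perm {R : (X → Fin q) → Prop} (h : Dfn q X R) (π : Equiv.Perm (Fin q)) (c : X → Fin q)
    (hc : R c) : R (fun x => π (c x)) := by
  obtain ⟨Y, hY, E, h1, h2⟩ := h
  rw [h2] at hc ⊢
  obtain ⟨d, h3⟩ := hc
  have key : ∀ u : X ⊕ Y, Sum.elim (fun x => π (c x)) (fun y => π (d y)) u
      = π (Sum.elim c d u) := by
    rintro (x | y) <;> rfl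
  refine ⟨fun y => π (d y), ?_⟩
  intro u v huv h4
  rw [key, key] at h4
  exact h3 u v huv (π.injective h4)

end Pool.Agent.FC14
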