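import Pool.Agent.FC14.GadA

/-!
# Every relation is definable with constants

`DfnC q X R` (define it): `∃ R' : (X ⊕ Fin q → Fin q) → Prop, Dfn q (X ⊕ Fin q) R' ∧ ∀ c, R' (Sum.elim c id) ↔ R c`. It
has the same closure properties as `Dfn` (conjunction, finite conjunction, existential quantification, injective renaming,
`c x ≠ c y`), and `c x ≠ a` for constants `a`.

Paper proof: for `L : List (X × Fin q)` and `t ≠ f` the relation
`P L t f (c, u) := u = t ∨ (u = f ∧ ∃ p ∈ L, c p.1 ≠ p.2)` on `X ⊕ Unit` is in `DfnC`, by induction on `L`.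
 * `L = []`: `u = t`, that is `u ≠ b` for all `b ≠ t`.
 * re-encoding: from `(t, f)` to `(t', t)` for any `t' ≠ t`: `∃ u, P L t f (c, u) ∧ u' ≠ u ∧ u' ∈ {t', t}`.
   Three steps lead from `(t, f)` to any `(t', f')` with `t' ≠ f'`: if `f' ≠ t` then
   `(t, f) → (f', t) → (t', f')`; if `f' = t` then `(t, f) → (s, t) → (t, s) → (t', t)` with `s ≠ t`.
 * extension by `(x, a)`, when `a ∉ {t, f}`: `∃ u z, P L t f (c, u) ∧ z ≠ u ∧ z ≠ c x ∧ u' ≠ z ∧
   z ∈ {t, f, a} ∧ u' ∈ {t, f}`.
   (`u = t`, `c x = a` forces `z = f`, hence `u' = t`; in all other cases `u' = f` is possible: for `u = f` with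
   `z ∈ {t, a}`, `z ≠ c x`, for `u = t`, `c x ≠ a` with `z = a`; `u' = t` is always possible with `u = t` and `z ∈ {f, a}`, `z ≠ c x`.)
   For general `a` choose `t₀ ≠ f₀` different from `a` (`q ≥ 3`) and re-encode.
Then `∃ p ∈ L, c p.1 ≠ p.2` is `∃ u, P L t f (c, u) ∧ u ≠ t`. Hence every relation `R` on a finite `X` is in
`DfnC`: it is the conjunction over all `β` with `¬ R β` of `∃ x, c x ≠ β x`.
-/

set_option autoImplicit false

namespace Pool.Agent.FC14

variable {q : ℕ} {X : Type}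

/-- Definable with constants. -/
def DfnC (q : ℕ) (X : Type) (R : (X → Fin q) → Prop) : Prop :=
  ∃ R' : (X ⊕ Fin q → Fin q) → Prop, Dfn q (X ⊕ Fin q) R' ∧
    ∀ c : X → Fin q, R' (Sum.elim c id) ↔ R c

theorem DfnC.congr {R S : (X → Fin q) → Prop} (h : DfnC q X R) (hRS : ∀ c, R c ↔ S c) :
    DfnC q X S := by
  obtain ⟨R', h1, h2⟩ := h
  exact ⟨R', h1, fun c => (h2 c).trans (hRS c)⟩

theorem DfnC.and {R S : (X → Fin q) → Prop} (hR : DfnC q X R) (hS : DfnC q X S) :
    DfnC q X (fun c => R c ∧ S c) := by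
  obtain ⟨R', h1, h2⟩ := hR
  obtain ⟨S', h3, h4⟩ := hS
  exact ⟨_, h1.and h3, fun c => and_congr (h2 c) (h4 c)⟩

theorem DfnC.all {ι : Type} [Finite ι] {R : ι → (X → Fin q) → Prop} (h : ∀ i, DfnC q X (R i)) :
    DfnC q X (fun c => ∀ i, R i c) := by
  choose R' h1 h2 using h
  exact ⟨_, Dfn.all h1, fun c => forall_congr' fun i => h2 i c⟩

theorem DfnC.ex {Z : Type} [Finite Z] {R : (X ⊕ Z → Fin q) → Prop} (h : DfnC q (X ⊕ Z) R) :
    DfnC q X (fun c => ∃ d : Z → Fin q, R (Sum.elim c d)) := by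
  obtain ⟨R', h1, h2⟩ := h
  let f : (X ⊕ Z) ⊕ Fin q → (X ⊕ Fin q) ⊕ Z :=
    Sum.elim (Sum.elim (fun x => Sum.inl (Sum.inl x)) (fun z => Sum.inr z))
      (fun a => Sum.inl (Sum.inr a))
  have hf : Function.Injective f := by
    rintro ((x | z) | a) ((x' | z') | a') h <;> simp [f] at h <;> simp [h]
  refine ⟨_, (h1.map f hf).ex, fun c => ?_⟩
  refine exists_congr fun d => ?_
  rw [← h2]
  have h3 : (Sum.elim (Sum.elim c id) d : (X ⊕ Fin q) ⊕ Z → Fin q) ∘ f
      = Sum.elim (Sum.elim c d) id := by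
    funext u
    rcases u with (x | z) | a <;> rfl
  rw [h3]

theorem DfnC.map {X' : Type} {R : (X → Fin q) → Prop} (h : DfnC q X R) (f : X → X')
    (hf : Function.Injective f) : DfnC q X' (fun c => R (c ∘ f)) := by
  obtain ⟨R', h1, h2⟩ := h
  refine ⟨_, h1.map (Sum.map f id) (Sum.map_injective.2 ⟨hf, Function.injective_id⟩),
    fun c => ?_⟩
  have h3 : (Sum.elim c id : X' ⊕ Fin q → Fin q) ∘ Sum.map f id = Sum.elim (c ∘ f) id := by
    funext u
    rcases u with x | a <;> rfl
  rw [h3, h2]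

theorem DfnC.ne (x y : X) (h : x ≠ y) : DfnC q X (fun c => c x ≠ c y) := by
  refine ⟨_, Dfn.ne (Sum.inl x) (Sum.inl y) (fun h' => h (Sum.inl.inj h')), fun c => Iff.rfl⟩

theorem DfnC.neConst (x : X) (a : Fin q) : DfnC q X (fun c => c x ≠ a) := by
  refine ⟨_, Dfn.ne (Sum.inl x) (Sum.inr a) (fun h => by simp at h), fun c => Iff.rfl⟩

theorem DfnC.true : DfnC q X (fun _ => True) := by
  refine (DfnC.all (ι := Empty) (R := fun _ _ => True) (fun i => i.elim)).congr fun c => ?_
  exact ⟨fun _ => trivial, fun _ i => i.elim⟩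

theorem DfnC.mem (x : X) (s : Set (Fin q)) : DfnC q X (fun c => c x ∈ s) := by
  classical
  have h : ∀ b : Fin q, DfnC q X (fun c => b ∉ s → c x ≠ b) := by
    intro b
    by_cases hb : b ∈ s
    · exact DfnC.true.congr fun c => ⟨fun _ h => (h hb).elim, fun _ => trivial⟩
    · exact (DfnC.neConst x b).congr fun c => ⟨fun h _ => h, fun h => h hb⟩
  refine (DfnC.all h).congr fun c => ⟨fun h => ?_, fun h b hb h' => hb (h' ▸ h)⟩
  by_contra hc
  exact h _ hc rfl

/-- The chain relation: `u` is `t`, or `u` is `f` and some element of the list is not matched. -/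
def PR (L : List (X × Fin q)) (t f : Fin q) (c : X ⊕ Unit → Fin q) : Prop :=
  c (Sum.inr ()) = t ∨ (c (Sum.inr ()) = f ∧ ∃ p ∈ L, c (Sum.inl p.1) ≠ p.2)

theorem PR.nil (t f : Fin q) : DfnC q (X ⊕ Unit) (PR [] t f) := by
  refine (DfnC.mem (Sum.inr ()) {t}).congr fun c => ?_
  simp [PR]

theorem PR.reenc {L : List (X × Fin q)} {t f : Fin q} (h : DfnC q (X ⊕ Unit) (PR L t f))
    (htf : t ≠ f) (t' : Fin q) (ht' : t' ≠ t) : DfnC q (X ⊕ Unit) (PR L t' t) := by
  let g : X ⊕ Unit → (X ⊕ Unit) ⊕ Unit :=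
    Sum.elim (fun x => Sum.inl (Sum.inl x)) (fun _ => Sum.inr ())
  have hg : Function.Injective g := by
    rintro (x | ⟨⟩) (x' | ⟨⟩) h <;> simp [g] at h <;> simp [h]
  have h1 := (h.map g hg).and ((DfnC.ne (q := q) (X := (X ⊕ Unit) ⊕ Unit) (Sum.inl (Sum.inr ()))
    (Sum.inr ()) (fun h => by simp at h)).and
    (DfnC.mem (X := (X ⊕ Unit) ⊕ Unit) (Sum.inl (Sum.inr ())) {t', t}))
  refine h1.ex.congr fun c => ?_
  simp only [PR, Function.comp, g, Sum.elim_inl, Sum.elim_inr, Set.mem_insert_iff,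
    Set.mem_singleton_iff]
  constructor
  · rintro ⟨e, h2 | ⟨h2, h3⟩, h4, h5⟩
    · rcases h5 with h5 | h5
      · exact Or.inl h5
      · exact (h4 (h5.trans h2.symm)).elim
    · rcases h5 with h5 | h5
      · exact Or.inl h5
      · exact Or.inr ⟨h5, h3⟩
  · rintro (h2 | ⟨h2, h3⟩)
    · exact ⟨fun _ => t, Or.inl rfl, fun h => ht' (h2.symm.trans h), Or.inl h2⟩
    · exact ⟨fun _ => f, Or.inr ⟨rfl, h3⟩, fun h => htf (h2.symm.trans h), Or.inr h2⟩

theorem PR.cons {L : List (X × Fin q)} {t f : Fin q} (h : DfnC q (X ⊕ Unit) (PR L t f))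
    (htf : t ≠ f) (x : X) (a : Fin q) (hat : a ≠ t) (haf : a ≠ f) :
    DfnC q (X ⊕ Unit) (PR ((x, a) :: L) t f) := by
  let g : X ⊕ Unit → (X ⊕ Unit) ⊕ Bool :=
    Sum.elim (fun x => Sum.inl (Sum.inl x)) (fun _ => Sum.inr false)
  have hg : Function.Injective g := by
    rintro (x | ⟨⟩) (x' | ⟨⟩) h <;> simp [g] at h <;> simp [h]
  -- `u = inr false`, `z = inr true`, `u' = inl (inr ())`
  have h1 := (h.map g hg).and
    (((DfnC.ne (q := q) (X := (X ⊕ Unit) ⊕ Bool) (Sum.inr true) (Sum.inr false)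
      (fun h => by simp at h)).and
    (DfnC.ne (q := q) (X := (X ⊕ Unit) ⊕ Bool) (Sum.inr true) (Sum.inl (Sum.inl x))
      (fun h => by simp at h))).and
    ((DfnC.ne (q := q) (X := (X ⊕ Unit) ⊕ Bool) (Sum.inl (Sum.inr ())) (Sum.inr true)
      (fun h => by simp at h)).and
    ((DfnC.mem (X := (X ⊕ Unit) ⊕ Bool) (Sum.inr true) {t, f, a}).and
    (DfnC.mem (X := (X ⊕ Unit) ⊕ Bool) (Sum.inl (Sum.inr ())) {t, f}))))
  refine h1.ex.congr fun c => ?_
  simp only [PR, Function.comp, g, Sum.elim_inl, Sum.elim_inr, Set.mem_insert_iff,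
    Set.mem_singleton_iff, List.exists_mem_cons_iff]
  constructor
  · rintro ⟨e, h2, ⟨h3, h4⟩, h5, h6, h7⟩
    rcases h7 with h7 | h7
    · exact Or.inl h7
    · refine Or.inr ⟨h7, ?_⟩
      by_cases hx : c (Sum.inl x) = a
      · rcases h2 with h2 | ⟨h2, h8⟩
        · exfalso
          rcases h6 with h6 | h6 | h6
          · exact h3 (h6.trans h2.symm)
          · exact h5 (h7.trans h6.symm)
          · exact h4 (h6.trans hx.symm)
        · exact Or.inr h8
      · exact Or.inl hx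
  · rintro (h2 | ⟨h2, h3⟩)
    · by_cases hx : c (Sum.inl x) = f
      · refine ⟨fun b => if b then a else t, Or.inl (by simp), ⟨by simpa using hat, ?_⟩, ?_,
          by simp, Or.inl h2⟩
        · simp only [if_true]
          rw [hx]
          exact haf
        · simp only [if_true]
          rw [h2]
          exact hat.symm
      · refine ⟨fun b => if b then f else t, Or.inl (by simp), ⟨by simpa using htf.symm, ?_⟩, ?_,
          by simp, Or.inl h2⟩
        · simp only [if_true]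
          exact fun h => hx h.symm
        · simp only [if_true]
          rw [h2]
          exact htf
    · by_cases hx : c (Sum.inl x) = a
      · have h4 : ∃ p ∈ L, c (Sum.inl p.1) ≠ p.2 := by
          rcases h3 with h3 | h3
          · exact (h3 hx).elim
          · exact h3
        refine ⟨fun b => if b then t else f, Or.inr ⟨by simp, h4⟩, ⟨by simpa using htf, ?_⟩, ?_,
          by simp, Or.inr h2⟩
        · simp only [if_true]
          rw [hx]
          exact hat.symm
        · simp only [if_true]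
          rw [h2]
          exact htf.symm
      · refine ⟨fun b => if b then a else t, Or.inl (by simp), ⟨by simpa using hat, ?_⟩, ?_,
          by simp, Or.inr h2⟩
        · simp only [if_true]
          exact fun h => hx h.symm
        · simp only [if_true]
          rw [h2]
          exact haf.symm

theorem PR.any {L : List (X × Fin q)} (hq : 3 ≤ q) {t₀ f₀ : Fin q}
    (h : DfnC q (X ⊕ Unit) (PR L t₀ f₀)) (h0 : t₀ ≠ f₀) (t f : Fin q) (htf : t ≠ f) :
    DfnC q (X ⊕ Unit) (PR L t f) := by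
  by_cases hf : f = t₀
  · obtain ⟨s, hs⟩ : ∃ s : Fin q, s ≠ t₀ := by
      have : Nontrivial (Fin q) := Fin.nontrivial_iff_two_le.2 (by omega)
      exact exists_ne t₀
    subst hf
    exact PR.reenc (PR.reenc (PR.reenc h h0 s hs) hs f hs.symm) hs.symm t htf
  · exact PR.reenc (PR.reenc h h0 f hf) hf t htf

theorem PR.dfn (hq : 3 ≤ q) (L : List (X × Fin q)) :
    ∀ t f : Fin q, t ≠ f → DfnC q (X ⊕ Unit) (PR L t f) := by
  induction L with
  | nil => intro t f _; exact PR.nil t f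
  | cons p L ih =>
    obtain ⟨x, a⟩ := p
    intro t f htf
    obtain ⟨t₀, f₀, h1, h2, h3⟩ : ∃ t₀ f₀ : Fin q, t₀ ≠ f₀ ∧ a ≠ t₀ ∧ a ≠ f₀ := by
      have h1 : 1 < (Finset.univ.erase a : Finset (Fin q)).card := by
        rw [Finset.card_erase_of_mem (Finset.mem_univ _), Finset.card_univ, Fintype.card_fin]
        omega
      obtain ⟨t₀, ht, f₀, hf, hne⟩ := Finset.one_lt_card.1 h1
      exact ⟨t₀, f₀, hne, (Finset.ne_of_mem_erase ht).symm, (Finset.ne_of_mem_erase hf).symm⟩
    exact PR.any hq (PR.cons (ih t₀ f₀ h1) h1 x a h2 h3) h1 t f htf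

/-- every relation is definable with constants -/
theorem dfn_const [Finite X] (hq : 3 ≤ q) (R : (X → Fin q) → Prop) :
    ∃ R' : (X ⊕ Fin q → Fin q) → Prop, Dfn q (X ⊕ Fin q) R' ∧
      ∀ c : X → Fin q, R' (Sum.elim c id) ↔ R c := by
  classical
  have hX : Fintype X := Fintype.ofFinite X
  have key : ∀ β : X → Fin q, DfnC q X (fun c => ¬ R β → c ≠ β) := by
    intro β
    by_cases hβ : R β
    · exact DfnC.true.congr fun c => ⟨fun _ h => (h hβ).elim, fun _ => trivial⟩
    · have hq0 : 0 < q := by omega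
      let t : Fin q := ⟨0, by omega⟩
      let f : Fin q := ⟨1, by omega⟩
      have htf : t ≠ f := by
        intro h
        have := congrArg Fin.val h
        simp [t, f] at this
      have h1 := (PR.dfn hq ((Finset.univ : Finset X).toList.map fun x => (x, β x)) t f htf).and
        (DfnC.neConst (X := X ⊕ Unit) (Sum.inr ()) t)
      refine h1.ex.congr fun c => ?_
      simp only [PR, Sum.elim_inl, Sum.elim_inr]
      constructor
      · rintro ⟨e, h2 | ⟨_, p, h3, h4⟩, h5⟩
        · exact (h5 h2).elim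
        · rintro _ rfl
          rw [List.mem_map] at h3
          obtain ⟨x, _, rfl⟩ := h3
          exact h4 rfl
      · intro h
        have h2 := h hβ
        obtain ⟨x, hx⟩ := Function.ne_iff.1 h2
        refine ⟨fun _ => f, Or.inr ⟨rfl, (x, β x), ?_, hx⟩, htf.symm⟩
        rw [List.mem_map]
        exact ⟨x, Finset.mem_toList.2 (Finset.mem_univ x), rfl⟩
  refine (DfnC.all key).congr fun c => ⟨fun h => ?_, fun h β hβ hc => hβ (hc ▸ h)⟩
  by_contra hc
  exact h c hc rfl

end Pool.Agent.FC14
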