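import Pool.Agent.FC14.GadB

/-!
# Every relation invariant under permutations of the colours is realised by a finite graph

Paper proofs.
`dfn_of_inv`: take `R'` from `dfn_const`; `R c ↔ ∃ r : Fin q → Fin q, (∀ i j, i ≠ j → r i ≠ r j) ∧ R' (Sum.elim c r)`
(`r` is a permutation, apply `Dfn.perm` to `R'` with its inverse and use the invariance of `R`).
`gadget`: take `(Y, E)` from `dfn_of_inv`. To avoid edges between terminals use the new vertices
`(X × Fin (q - 1)) ⊕ (X ⊕ Y)`: the copy `x'` of the terminal `x`, a complete graph on `{x} × Fin (q - 1)` joined to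
`x` and to `x'` (so `x` and `x'` have the same colour), and `E` (symmetrised) on `X' ⊕ Y`.
-/

set_option autoImplicit false

namespace Pool.Agent.FC14

open SimpleGraph

variable {q : ℕ} {X : Type}

theorem dfn_of_inv [Finite X] (hq : 3 ≤ q) (R : (X → Fin q) → Prop)
    (hinv : ∀ (π : Equiv.Perm (Fin q)) (c : X → Fin q), R c → R (fun x => π (c x))) :
    Dfn q X R := by
  obtain ⟨R', hR', hc⟩ := dfn_const hq R
  have h1 : Dfn q (X ⊕ Fin q) (fun e : X ⊕ Fin q → Fin q =>
      (∀ i : {p : Fin q × Fin q // p.1 ≠ p.2}, e (Sum.inr i.1.1) ≠ e (Sum.inr i.1.2)) ∧ R' e) := by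
    apply Dfn.and _ hR'
    apply Dfn.all
    intro i
    exact Dfn.ne _ _ (fun h => i.2 (Sum.inr_injective h))
  refine (Dfn.ex h1).congr fun c => ?_
  constructor
  · rintro ⟨r, hr1, hr2⟩
    have hinj : Function.Injective r := by
      intro i j hij
      by_contra hne
      exact hr1 ⟨(i, j), hne⟩ hij
    set π : Equiv.Perm (Fin q) := Equiv.ofBijective r (Finite.injective_iff_bijective.1 hinj)
      with hπ
    have h2 := Dfn.perm hR' π.symm _ hr2
    have h3 : (fun x => π.symm (Sum.elim c r x)) = Sum.elim (fun x => π.symm (c x)) id := by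
      funext x
      rcases x with x | i
      · rfl
      · change π.symm (r i) = i
        exact π.symm_apply_apply i
    rw [h3, hc] at h2
    have h4 := hinv π _ h2
    simpa using h4
  · intro h
    refine ⟨id, fun i => i.2, (hc c).2 h⟩

/-- the relation generating the gadget graph -/
private def gadRel {Y : Type} (E : X ⊕ Y → X ⊕ Y → Prop) :
    X ⊕ ((X × Fin (q - 1)) ⊕ (X ⊕ Y)) → X ⊕ ((X × Fin (q - 1)) ⊕ (X ⊕ Y)) → Prop
  | Sum.inl x, Sum.inr (Sum.inl p) => x = p.1
  | Sum.inr (Sum.inl p), Sum.inr (Sum.inl p') => p.1 = p'.1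
  | Sum.inr (Sum.inl p), Sum.inr (Sum.inr (Sum.inl x)) => x = p.1
  | Sum.inr (Sum.inr u), Sum.inr (Sum.inr v) => E u v
  | _, _ => False

/-- **The gadget lemma.** -/
theorem gadget [Finite X] (hq : 3 ≤ q) (Acc : (X → Fin q) → Prop)
    (hinv : ∀ (π : Equiv.Perm (Fin q)) (c : X → Fin q), Acc c → Acc (fun x => π (c x))) :
    ∃ (Y : Type) (_ : Fintype Y) (J : SimpleGraph (X ⊕ Y)),
      (∀ x x' : X, ¬ J.Adj (Sum.inl x) (Sum.inl x')) ∧
      ∀ c : X → Fin q, Acc c ↔ ∃ φ : J.Coloring (Fin q), ∀ x, φ (Sum.inl x) = c x := by
  classical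
  obtain ⟨Y, hY, E, hirr, hE⟩ := dfn_of_inv hq Acc hinv
  haveI : Fintype X := Fintype.ofFinite X
  refine ⟨(X × Fin (q - 1)) ⊕ (X ⊕ Y), inferInstance, SimpleGraph.fromRel (gadRel E), ?_, ?_⟩
  · intro x x' h
    rw [SimpleGraph.fromRel_adj] at h
    rcases h.2 with h1 | h1
    · exact h1
    · exact h1
  · intro c
    rw [hE c]
    constructor
    · rintro ⟨d, hd⟩
      obtain ⟨p, rfl⟩ : ∃ p, q = p + 1 := ⟨q - 1, by omega⟩
      set g : Fin (p + 1) → Fin (p + 1 - 1) → Fin (p + 1) := fun a i => a.succAbove i with hg
      have hg1 : ∀ a i, g a i ≠ a := fun a i => Fin.succAbove_ne a i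
      have hg2 : ∀ a, Function.Injective (g a) := fun a => Fin.succAbove_right_injective
      set ψ : X ⊕ ((X × Fin (p + 1 - 1)) ⊕ (X ⊕ Y)) → Fin (p + 1) := fun v => match v with
        | Sum.inl x => c x
        | Sum.inr (Sum.inl z) => g (c z.1) z.2
        | Sum.inr (Sum.inr u) => Sum.elim c d u with hψ
      have key : ∀ a b, a ≠ b → gadRel E a b → ψ a ≠ ψ b := by
        intro a b hab h
        rcases a with x | z | u
        · rcases b with x' | z' | v
          · exact absurd h (fun h => h)
          · have h' : x = z'.1 := h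
            change c x ≠ g (c z'.1) z'.2
            rw [h']
            exact (hg1 _ _).symm
          · exact absurd h (fun h => h)
        · rcases b with x' | z' | (x' | y')
          · exact absurd h (fun h => h)
          · have h' : z.1 = z'.1 := h
            change g (c z.1) z.2 ≠ g (c z'.1) z'.2
            rw [h']
            intro h2
            apply hab
            have h3 := hg2 _ h2
            rw [Prod.ext h' h3]
          · have h' : x' = z.1 := h
            change g (c z.1) z.2 ≠ c x'
            rw [h']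
            exact hg1 _ _
          · exact absurd h (fun h => h)
        · rcases b with x' | z' | v
          · exact absurd h (fun h => h)
          · exact absurd h (fun h => h)
          · exact hd u v h
      refine ⟨SimpleGraph.Coloring.mk ψ ?_, fun x => rfl⟩
      intro a b hab
      rw [SimpleGraph.fromRel_adj] at hab
      rcases hab.2 with h | h
      · exact key a b hab.1 h
      · exact (key b a hab.1.symm h).symm
    · rintro ⟨φ, hφ⟩
      have hcopy : ∀ x : X, φ (Sum.inr (Sum.inr (Sum.inl x))) = c x := by
        intro x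
        rw [← hφ x]
        by_contra hne
        have hadj1 : ∀ i, φ (Sum.inr (Sum.inl (x, i))) ≠ φ (Sum.inl x) := by
          intro i
          apply φ.valid
          rw [SimpleGraph.fromRel_adj]
          exact ⟨by simp, Or.inr rfl⟩
        have hadj2 : ∀ i, φ (Sum.inr (Sum.inl (x, i))) ≠ φ (Sum.inr (Sum.inr (Sum.inl x))) := by
          intro i
          apply φ.valid
          rw [SimpleGraph.fromRel_adj]
          exact ⟨by simp, Or.inl rfl⟩
        have hinj : Function.Injective fun i : Fin (q - 1) => φ (Sum.inr (Sum.inl (x, i))) := by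
          intro i j hij
          by_contra hne'
          refine φ.valid (v := Sum.inr (Sum.inl (x, i))) (w := Sum.inr (Sum.inl (x, j))) ?_ hij
          rw [SimpleGraph.fromRel_adj]
          refine ⟨fun h => hne' ?_, Or.inl rfl⟩
          have := Sum.inl_injective (Sum.inr_injective h)
          exact (Prod.mk.inj this).2
        have h1 : (Finset.univ.image fun i : Fin (q - 1) => φ (Sum.inr (Sum.inl (x, i)))) ⊆
            (Finset.univ.erase (φ (Sum.inl x))).erase (φ (Sum.inr (Sum.inr (Sum.inl x)))) := by
          intro a ha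
          obtain ⟨i, _, rfl⟩ := Finset.mem_image.1 ha
          rw [Finset.mem_erase, Finset.mem_erase]
          exact ⟨hadj2 i, hadj1 i, Finset.mem_univ _⟩
        have h2 := Finset.card_le_card h1
        rw [Finset.card_image_of_injective _ hinj, Finset.card_univ, Fintype.card_fin,
          Finset.card_erase_of_mem (Finset.mem_erase.2 ⟨hne, Finset.mem_univ _⟩),
          Finset.card_erase_of_mem (Finset.mem_univ _), Finset.card_univ, Fintype.card_fin] at h2
        omega
      refine ⟨fun y => φ (Sum.inr (Sum.inr (Sum.inr y))), fun u v huv => ?_⟩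
      have h1 : ∀ w : X ⊕ Y, Sum.elim c (fun y => φ (Sum.inr (Sum.inr (Sum.inr y)))) w =
          φ (Sum.inr (Sum.inr w)) := by
        intro w
        rcases w with x | y
        · exact (hcopy x).symm
        · rfl
      rw [h1, h1]
      apply φ.valid
      rw [SimpleGraph.fromRel_adj]
      refine ⟨fun h => ?_, Or.inl huv⟩
      have h2 : u = v := Sum.inr_injective (Sum.inr_injective h)
      rw [h2] at huv
      exact hirr v huv

end Pool.Agent.FC14
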