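import Pool.Agent.FC14.HajosA
import Pool.Agent.FC14.Cone

/-!
# Critical graphs of all orders, padding

Paper proofs.
* `exists_FC_two`: `complete_FC 2` has order 3; `hajos` with it gives `m → m + 2`.
* `exists_FC`: orders 3, 5 for `q = 2`; cones give orders 4, 6 for
  `q = 3`; Hajos gives 7 = 4 + 4 - 1, 9 = 4 + 6 - 1, 10 = 4 + 7 - 1, 11 = 6 + 6 - 1 and then `m → m + 3`;
  cones give the general case by induction on `q`.
* `pad`: `exists_FC_sub`, then `hajos` with a graph of `exists_FC`, then `le_F`.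
* `F_mono`: `exists_of_F_pos`, then the same.
-/

set_option autoImplicit false

namespace Pool.Agent.FC14

open SimpleGraph

/-- odd orders, `q = 2` -/
theorem exists_FC_two (s : ℕ) (hs : 1 ≤ s) : ∃ G : SimpleGraph (Fin (2 * s + 1)), FC 2 G := by
  induction s, hs using Nat.le_induction with
  | base => exact ⟨_, complete_FC 2 (by norm_num)⟩
  | succ s _ ih =>
    obtain ⟨G, hG⟩ := ih
    obtain ⟨G', hG', -⟩ := hajos (le_refl 2) G _ hG (complete_FC 2 (by norm_num))
    exact ⟨G', hG'⟩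

theorem exists_FC (q : ℕ) (hq : 3 ≤ q) (m : ℕ) (hm : q + 6 ≤ m) :
    ∃ G : SimpleGraph (Fin m), FC q G := by
  induction q, hq using Nat.le_induction generalizing m with
  | base =>
    have heven : ∀ s : ℕ, 1 ≤ s → ∃ G : SimpleGraph (Fin (2 * s + 1 + 1)), FC 3 G := by
      intro s hs
      obtain ⟨G, hG⟩ := exists_FC_two s hs
      exact cone (by omega) G hG
    rcases Nat.even_or_odd m with h | h
    · obtain ⟨t, ht⟩ := h
      have h1 := heven (t - 1) (by omega)
      have h2 : 2 * (t - 1) + 1 + 1 = m := by omega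
      rwa [h2] at h1
    · obtain ⟨t, ht⟩ := h
      obtain ⟨G, hG⟩ := heven (t - 2) (by omega)
      have h1 := hajos (by norm_num : 2 ≤ 3) _ G (complete_FC 3 (by norm_num)) hG
      have h2 : 3 + 1 + (2 * (t - 2) + 1 + 1) - 1 = m := by omega
      rw [h2] at h1
      obtain ⟨G', hG', -⟩ := h1
      exact ⟨G', hG'⟩
  | succ q _ ih =>
    obtain ⟨G, hG⟩ := ih (m - 1) (by omega)
    have h1 := cone (by omega) G hG
    have h2 : m - 1 + 1 = m := by omega
    rwa [h2] at h1

/-- **Padding.** -/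
theorem pad (q : ℕ) (hq : 3 ≤ q) {V : Type} [Fintype V] (H : SimpleGraph V)
    (h1 : ¬ H.Colorable q) (n : ℕ) (hn : Fintype.card V + (q + 5) ≤ n) :
    (critEdges q H).ncard ≤ F (q + 1) n := by
  obtain ⟨n₀, hn₀, G, hG, hle⟩ := exists_FC_sub H q (by omega) h1
  obtain ⟨K, hK⟩ := exists_FC q hq (n - n₀ + 1) (by omega)
  have h2 := hajos (by omega) G K hG hK
  have h3 : n₀ + (n - n₀ + 1) - 1 = n := by omega
  rw [h3] at h2
  obtain ⟨G', hG', hle'⟩ := h2
  exact (hle.trans hle').trans (le_F G' hG')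

/-- `F` is almost monotone -/
theorem F_mono (q : ℕ) (hq : 3 ≤ q) (n n' : ℕ) (hn : n + (q + 5) ≤ n') :
    F (q + 1) n ≤ F (q + 1) n' := by
  rcases Nat.eq_zero_or_pos (F (q + 1) n) with h | h
  · rw [h]
    exact Nat.zero_le _
  · obtain ⟨G, hG, hle⟩ := exists_of_F_pos h
    obtain ⟨K, hK⟩ := exists_FC q hq (n' - n + 1) (by omega)
    have h2 := hajos (by omega) G K hG hK
    have h3 : n + (n' - n + 1) - 1 = n' := by omega
    rw [h3] at h2
    obtain ⟨G', hG', hle'⟩ := h2
    rw [← hle]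
    exact hle'.trans (le_F G' hG')

end Pool.Agent.FC14
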