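import Pool.Agent.FC14.Crit

/-!
# The Hajos construction

Paper proof of `hajos`: choose an edge `a b` of `G₁` and an edge `c d` of `G₂`; vertex set
`Fin n₁ ⊕ {w : Fin n₂ // w ≠ c}` (so `c` is identified with `a`); edges: those of `G₁` except
`a b`, those of `G₂` except `c d` (with `c` replaced by `a`), and `b d`.
Not `q`-colourable: if `φ b ≠ φ a` then `G₁` is coloured; if `φ b = φ a` then `φ d ≠ φ a`, so `G₂`
is coloured. Critical edges: an edge `e ≠ a b` of `G₁` (a colouring of `G₁ - e` has `ψ a ≠ ψ b`, a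
colouring of `G₂ - c d` has `χ c = χ d`; permute the colours of `χ` so that `χ c = ψ a`), an edge
`e' ≠ c d` of `G₂` (similarly), and `b d`. Every vertex lies on a critical edge: for `a` use
an edge of `G₁` at `a` other than `a b`, which exists because in a colouring of `G₁ - a b` the vertex
`a` must see a colour other than its own, hence has a neighbour other than `b` (here `q ≥ 2` is used:
otherwise recolour `a`).
So `VC q` holds and `critEdges` has at least `|E(G₁)|` elements (`E(G₁) - a b` and `b d`);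
conclude with `exists_FC_of_VC` and transport (`FC.congr`) to `Fin (n₁ + n₂ - 1)`.
-/

set_option autoImplicit false

namespace Pool.Agent.FC14

open SimpleGraph

private lemma col_iff {V : Type} (G : SimpleGraph V) (q : ℕ) :
    G.Colorable q ↔ ∃ φ : V → Fin q, ∀ u v, G.Adj u v → φ u ≠ φ v := by
  constructor
  · rintro ⟨φ⟩
    exact ⟨φ, fun u v h => φ.valid h⟩
  · rintro ⟨φ, h⟩
    exact ⟨Coloring.mk φ (fun {u v} huv => h u v huv)⟩

private lemma col_del {V : Type} (G : SimpleGraph V) (q : ℕ) (e : Sym2 V) :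
    (G.deleteEdges {e}).Colorable q ↔
      ∃ φ : V → Fin q, ∀ u v, G.Adj u v → s(u, v) ≠ e → φ u ≠ φ v := by
  rw [col_iff]
  constructor
  · rintro ⟨φ, h⟩
    exact ⟨φ, fun u v huv hne => h u v (by simp [deleteEdges_adj, huv, hne])⟩
  · rintro ⟨φ, h⟩
    refine ⟨φ, fun u v huv => ?_⟩
    rw [deleteEdges_adj] at huv
    exact h u v huv.1 (by simpa using huv.2)

/-- the embedding of the second vertex set -/
private def i2 {n₁ n₂ : ℕ} (a : Fin n₁) (c : Fin n₂) (w : Fin n₂) :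
    Fin n₁ ⊕ {w : Fin n₂ // w ≠ c} :=
  if h : w = c then Sum.inl a else Sum.inr ⟨w, h⟩

private lemma i2_self {n₁ n₂ : ℕ} (a : Fin n₁) (c : Fin n₂) : i2 a c c = Sum.inl a := by
  simp [i2]

private lemma i2_ne {n₁ n₂ : ℕ} (a : Fin n₁) (c w : Fin n₂) (h : w ≠ c) :
    i2 a c w = Sum.inr ⟨w, h⟩ := by
  simp [i2, h]

private lemma i2_inj {n₁ n₂ : ℕ} (a : Fin n₁) (c : Fin n₂) : Function.Injective (i2 a c) := by
  intro x y h
  by_cases hx : x = c
  · by_cases hy : y = c
    · rw [hx, hy]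
    · rw [hx, i2_self, i2_ne a c y hy] at h
      cases h
  · by_cases hy : y = c
    · rw [hy, i2_self, i2_ne a c x hx] at h
      cases h
    · rw [i2_ne a c y hy, i2_ne a c x hx] at h
      simpa using h

/-- the Hajos graph -/
private def HG {n₁ n₂ : ℕ} (G₁ : SimpleGraph (Fin n₁)) (G₂ : SimpleGraph (Fin n₂))
    (a b : Fin n₁) (c d : Fin n₂) (hcd : d ≠ c) :
    SimpleGraph (Fin n₁ ⊕ {w : Fin n₂ // w ≠ c}) where
  Adj u v := (∃ x y, G₁.Adj x y ∧ s(x, y) ≠ s(a, b) ∧ u = Sum.inl x ∧ v = Sum.inl y) ∨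
    (∃ x y, G₂.Adj x y ∧ s(x, y) ≠ s(c, d) ∧ u = i2 a c x ∧ v = i2 a c y) ∨
    (u = Sum.inl b ∧ v = i2 a c d) ∨ (u = i2 a c d ∧ v = Sum.inl b)
  symm := ⟨by
    rintro u v (⟨x, y, h, hne, hu, hv⟩ | ⟨x, y, h, hne, hu, hv⟩ | ⟨hu, hv⟩ | ⟨hu, hv⟩)
    · exact Or.inl ⟨y, x, h.symm, by rwa [Sym2.eq_swap], hv, hu⟩
    · exact Or.inr (Or.inl ⟨y, x, h.symm, by rwa [Sym2.eq_swap], hv, hu⟩)
    · exact Or.inr (Or.inr (Or.inr ⟨hv, hu⟩))
    · exact Or.inr (Or.inr (Or.inl ⟨hv, hu⟩))⟩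
  loopless := ⟨by
    rintro u (⟨x, y, h, hne, hu, hv⟩ | ⟨x, y, h, hne, hu, hv⟩ | ⟨hu, hv⟩ | ⟨hu, hv⟩)
    · rw [hu] at hv
      exact h.ne (Sum.inl_injective hv)
    · rw [hu] at hv
      exact h.ne (i2_inj a c hv)
    · rw [hu, i2_ne a c d hcd] at hv
      cases hv
    · rw [hu, i2_ne a c d hcd] at hv
      cases hv⟩

/-- the colouring glued from two colourings -/
private lemma glue {n₁ n₂ q : ℕ} (a : Fin n₁) (c : Fin n₂)
    (ψ : Fin n₁ → Fin q) (χ : Fin n₂ → Fin q) :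
    ∃ (φ : Fin n₁ ⊕ {w : Fin n₂ // w ≠ c} → Fin q) (σ : Equiv.Perm (Fin q)),
      (∀ x, φ (Sum.inl x) = ψ x) ∧ (∀ w, φ (i2 a c w) = σ (χ w)) ∧ σ (χ c) = ψ a := by
  refine ⟨Sum.elim ψ (fun w => Equiv.swap (χ c) (ψ a) (χ w)), Equiv.swap (χ c) (ψ a),
    fun x => rfl, fun w => ?_, by simp⟩
  by_cases hw : w = c
  · rw [hw, i2_self]
    simp
  · rw [i2_ne a c w hw]
    rfl

theorem hajos {n₁ n₂ q : ℕ} (hq : 2 ≤ q) (G₁ : SimpleGraph (Fin n₁)) (G₂ : SimpleGraph (Fin n₂))
    (h₁ : FC q G₁) (h₂ : FC q G₂) :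
    ∃ G : SimpleGraph (Fin (n₁ + n₂ - 1)), FC q G ∧ G₁.edgeSet.ncard ≤ G.edgeSet.ncard := by
  classical
  obtain ⟨hn1, he1, hv1⟩ := h₁
  obtain ⟨hn2, he2, hv2⟩ := h₂
  have hq0 : 0 < q := by omega
  -- an edge of each graph
  have hex : ∀ {n : ℕ} (G : SimpleGraph (Fin n)), ¬ G.Colorable q → (∀ v, ∃ w, G.Adj v w) →
      ∃ a b, G.Adj a b := by
    intro n G hG hv
    by_cases hn : Nonempty (Fin n)
    · obtain ⟨v⟩ := hn
      obtain ⟨w, hw⟩ := hv v
      exact ⟨v, w, hw⟩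
    · exfalso
      apply hG
      rw [col_iff]
      refine ⟨fun _ => ⟨0, hq0⟩, fun u => ?_⟩
      exact absurd ⟨u⟩ hn
  obtain ⟨a, b, hab⟩ := hex G₁ hn1 hv1
  obtain ⟨c, d, hcd⟩ := hex G₂ hn2 hv2
  have hdc : d ≠ c := hcd.ne'
  -- colourings of the graphs with one edge deleted
  obtain ⟨ψ₀, hψ₀⟩ := (col_del G₁ q s(a, b)).1 (he1 _ (by simpa using hab))
  obtain ⟨χ₀, hχ₀⟩ := (col_del G₂ q s(c, d)).1 (he2 _ (by simpa using hcd))
  have hψab : ψ₀ a = ψ₀ b := by
    by_contra hne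
    apply hn1
    rw [col_iff]
    refine ⟨ψ₀, fun u v huv => ?_⟩
    by_cases he : s(u, v) = s(a, b)
    · rw [Sym2.eq_iff] at he
      rcases he with ⟨h1, h2⟩ | ⟨h1, h2⟩
      · rw [h1, h2]
        exact hne
      · rw [h1, h2]
        exact fun h => hne h.symm
    · exact hψ₀ u v huv he
  have hχcd : χ₀ c = χ₀ d := by
    by_contra hne
    apply hn2
    rw [col_iff]
    refine ⟨χ₀, fun u v huv => ?_⟩
    by_cases he : s(u, v) = s(c, d)
    · rw [Sym2.eq_iff] at he
      rcases he with ⟨h1, h2⟩ | ⟨h1, h2⟩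
      · rw [h1, h2]
        exact hne
      · rw [h1, h2]
        exact fun h => hne h.symm
    · exact hχ₀ u v huv he
  set H := HG G₁ G₂ a b c d hdc with hH
  -- not colourable
  have hHn : ¬ H.Colorable q := by
    rw [col_iff]
    rintro ⟨φ, hφ⟩
    by_cases hba : φ (Sum.inl b) = φ (Sum.inl a)
    · apply hn2
      rw [col_iff]
      refine ⟨fun w => φ (i2 a c w), fun u v huv => ?_⟩
      have hbd : φ (Sum.inl b) ≠ φ (i2 a c d) :=
        hφ _ _ (Or.inr (Or.inr (Or.inl ⟨rfl, rfl⟩)))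
      rw [hba, ← i2_self a c] at hbd
      by_cases he : s(u, v) = s(c, d)
      · rw [Sym2.eq_iff] at he
        rcases he with ⟨h1, h2⟩ | ⟨h1, h2⟩
        · rw [h1, h2]
          exact hbd
        · rw [h1, h2]
          exact fun h => hbd h.symm
      · exact hφ _ _ (Or.inr (Or.inl ⟨u, v, huv, he, rfl, rfl⟩))
    · apply hn1
      rw [col_iff]
      refine ⟨fun w => φ (Sum.inl w), fun u v huv => ?_⟩
      by_cases he : s(u, v) = s(a, b)
      · rw [Sym2.eq_iff] at he
        rcases he with ⟨h1, h2⟩ | ⟨h1, h2⟩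
        · rw [h1, h2]
          exact fun h => hba h.symm
        · rw [h1, h2]
          exact hba
      · exact hφ _ _ (Or.inl ⟨u, v, huv, he, rfl, rfl⟩)
  -- general colouring lemma
  have hcol : ∀ (e : Sym2 (Fin n₁ ⊕ {w : Fin n₂ // w ≠ c})) (ψ : Fin n₁ → Fin q)
      (χ : Fin n₂ → Fin q),
      (∀ x y, G₁.Adj x y → s(x, y) ≠ s(a, b) → s(Sum.inl x, Sum.inl y) ≠ e → ψ x ≠ ψ y) →
      (∀ x y, G₂.Adj x y → s(x, y) ≠ s(c, d) → s(i2 a c x, i2 a c y) ≠ e → χ x ≠ χ y) →
      (s(Sum.inl b, i2 a c d) ≠ e →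
        ((ψ a = ψ b ∧ χ c ≠ χ d) ∨ (ψ a ≠ ψ b ∧ χ c = χ d))) →
      (H.deleteEdges {e}).Colorable q := by
    intro e ψ χ h1 h2 h3
    rw [col_del]
    obtain ⟨φ, σ, hφ1, hφ2, hσ⟩ := glue a c ψ χ
    have hbd : s(Sum.inl b, i2 a c d) ≠ e → φ (Sum.inl b) ≠ φ (i2 a c d) := by
      intro hne
      rw [hφ1, hφ2]
      rcases h3 hne with ⟨h4, h5⟩ | ⟨h4, h5⟩
      · rw [← h4, ← hσ]
        exact fun h => h5 (σ.injective h)
      · rw [← h5, hσ]
        exact fun h => h4 h.symm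
    refine ⟨φ, ?_⟩
    rintro u v (⟨x, y, h, hne, hu, hv⟩ | ⟨x, y, h, hne, hu, hv⟩ | ⟨hu, hv⟩ | ⟨hu, hv⟩) hee
    · rw [hu, hv] at hee ⊢
      rw [hφ1, hφ1]
      exact h1 x y h hne hee
    · rw [hu, hv] at hee ⊢
      rw [hφ2, hφ2]
      exact fun h' => h2 x y h hne hee (σ.injective h')
    · rw [hu, hv] at hee ⊢
      exact hbd hee
    · rw [hu, hv] at hee ⊢
      rw [Sym2.eq_swap] at hee
      exact fun h' => hbd hee h'.symm
  -- critical edges
  have hc1 : ∀ x y, G₁.Adj x y → s(x, y) ≠ s(a, b) →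
      (H.deleteEdges {s(Sum.inl x, Sum.inl y)}).Colorable q := by
    intro x y hxy hne
    obtain ⟨ψ, hψ⟩ := (col_del G₁ q s(x, y)).1 (he1 _ (by simpa using hxy))
    apply hcol _ ψ χ₀
    · intro x' y' h' _ h''
      apply hψ x' y' h'
      intro h3
      apply h''
      have := congrArg (Sym2.map (Sum.inl : _ → Fin n₁ ⊕ {w : Fin n₂ // w ≠ c})) h3
      simpa using this
    · intro x' y' h' h'' _
      exact hχ₀ x' y' h' h''
    · intro _
      right
      exact ⟨hψ a b hab (fun h => hne h.symm), hχcd⟩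
  have hc2 : ∀ x y, G₂.Adj x y → s(x, y) ≠ s(c, d) →
      (H.deleteEdges {s(i2 a c x, i2 a c y)}).Colorable q := by
    intro x y hxy hne
    obtain ⟨χ, hχ⟩ := (col_del G₂ q s(x, y)).1 (he2 _ (by simpa using hxy))
    apply hcol _ ψ₀ χ
    · intro x' y' h' h'' _
      exact hψ₀ x' y' h' h''
    · intro x' y' h' _ h''
      apply hχ x' y' h'
      intro h3
      apply h''
      have := congrArg (Sym2.map (i2 a c)) h3
      simpa using this
    · intro _
      left
      exact ⟨hψab, hχ c d hcd (fun h => hne h.symm)⟩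
  have hc3 : (H.deleteEdges {s(Sum.inl b, i2 a c d)}).Colorable q := by
    apply hcol _ ψ₀ χ₀
    · intro x' y' h' h'' _
      exact hψ₀ x' y' h' h''
    · intro x' y' h' h'' _
      exact hχ₀ x' y' h' h''
    · intro h
      exact absurd rfl h
  -- a neighbour of `a` other than `b`
  have hnb : ∃ y, G₁.Adj a y ∧ y ≠ b := by
    by_contra hno
    push Not at hno
    apply hn1
    rw [col_iff]
    obtain ⟨z, hz⟩ : ∃ z : Fin q, z ≠ ψ₀ b := by
      have : Nontrivial (Fin q) := Fin.nontrivial_iff_two_le.2 hq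
      exact exists_ne _
    refine ⟨Function.update ψ₀ a z, fun u v huv => ?_⟩
    by_cases hu : u = a
    · have hvb : v = b := hno v (hu ▸ huv)
      rw [hu, hvb, Function.update_self, Function.update_of_ne hab.ne']
      exact hz
    · by_cases hv : v = a
      · have hub : u = b := hno u (hv ▸ huv.symm)
        rw [hv, hub, Function.update_self, Function.update_of_ne hab.ne']
        exact hz.symm
      · rw [Function.update_of_ne hu, Function.update_of_ne hv]
        apply hψ₀ u v huv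
        intro he
        rw [Sym2.eq_iff] at he
        rcases he with ⟨h1, h2⟩ | ⟨h1, h2⟩
        · exact hu h1
        · exact hv h2
  have hbdadj : H.Adj (Sum.inl b) (i2 a c d) := Or.inr (Or.inr (Or.inl ⟨rfl, rfl⟩))
  have hVC : VC q H := by
    refine ⟨hHn, ?_⟩
    rintro (x | ⟨w, hw⟩)
    · by_cases hxb : x = b
      · subst hxb
        exact ⟨i2 a c d, hbdadj, hc3⟩
      by_cases hxa : x = a
      · subst hxa
        obtain ⟨y, hy, hyb⟩ := hnb
        have hne : s(x, y) ≠ s(x, b) := by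
          intro he
          rw [Sym2.eq_iff] at he
          rcases he with ⟨h1, h2⟩ | ⟨h1, h2⟩
          · exact hyb h2
          · exact hxb h1
        exact ⟨Sum.inl y, Or.inl ⟨x, y, hy, hne, rfl, rfl⟩, hc1 x y hy hne⟩
      · obtain ⟨y, hy⟩ := hv1 x
        have hne : s(x, y) ≠ s(a, b) := by
          intro he
          rw [Sym2.eq_iff] at he
          rcases he with ⟨h1, h2⟩ | ⟨h1, h2⟩
          · exact hxa h1
          · exact hxb h1
        exact ⟨Sum.inl y, Or.inl ⟨x, y, hy, hne, rfl, rfl⟩, hc1 x y hy hne⟩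
    · rw [← i2_ne a c w hw]
      by_cases hwd : w = d
      · subst hwd
        refine ⟨Sum.inl b, hbdadj.symm, ?_⟩
        rw [Sym2.eq_swap]
        exact hc3
      · obtain ⟨y, hy⟩ := hv2 w
        have hne : s(w, y) ≠ s(c, d) := by
          intro he
          rw [Sym2.eq_iff] at he
          rcases he with ⟨h1, h2⟩ | ⟨h1, h2⟩
          · exact hw h1
          · exact hwd h1
        exact ⟨i2 a c y, Or.inr (Or.inl ⟨w, y, hy, hne, rfl, rfl⟩), hc2 w y hy hne⟩
  obtain ⟨G, hG, hGs⟩ := exists_FC_of_VC H q hVC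
  -- transport
  have hcard : Fintype.card (Fin n₁ ⊕ {w : Fin n₂ // w ≠ c}) = n₁ + n₂ - 1 := by
    rw [Fintype.card_sum, Fintype.card_fin]
    have h1 : Fintype.card {w : Fin n₂ // w ≠ c} = n₂ - 1 := by
      have := Fintype.card_subtype_compl (fun w : Fin n₂ => w = c)
      simp only [Fintype.card_fin, Fintype.card_subtype_eq] at this
      exact this
    have h2 : 0 < n₂ := by
      have := c.2
      omega
    omega
  let e : (Fin n₁ ⊕ {w : Fin n₂ // w ≠ c}) ≃ Fin (n₁ + n₂ - 1) := Fintype.equivFinOfCardEq hcard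
  refine ⟨G.map e.toEmbedding, hG.congr (SimpleGraph.Iso.map e G), ?_⟩
  have hE : (G.map e.toEmbedding).edgeSet.ncard = G.edgeSet.ncard := by
    rw [← Nat.card_coe_set_eq, ← Nat.card_coe_set_eq]
    exact Nat.card_congr (SimpleGraph.Iso.map e G).mapEdgeSet.symm
  rw [hE]
  refine le_trans ?_ (Set.ncard_le_ncard hGs (Set.toFinite _))
  refine Set.ncard_le_ncard_of_injOn
    (fun e : Sym2 (Fin n₁) => if e = s(a, b) then s(Sum.inl b, i2 a c d)
      else e.map (Sum.inl : _ → Fin n₁ ⊕ {w : Fin n₂ // w ≠ c})) ?_ ?_ (Set.toFinite _)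
  · intro e he
    induction e using Sym2.ind with
    | _ x y =>
      rw [mem_edgeSet] at he
      by_cases hne : s(x, y) = s(a, b)
      · simp only [hne, if_true]
        exact ⟨by simpa using hbdadj, hc3⟩
      · simp only [hne, if_false, Sym2.map_mk]
        refine ⟨?_, hc1 x y he hne⟩
        rw [mem_edgeSet]
        exact Or.inl ⟨x, y, he, hne, rfl, rfl⟩
  · have key : ∀ e : Sym2 (Fin n₁),
        s(Sum.inl b, i2 a c d) ≠ e.map (Sum.inl : _ → Fin n₁ ⊕ {w : Fin n₂ // w ≠ c}) := by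
      intro e
      induction e using Sym2.ind with
      | _ x y =>
        rw [Sym2.map_mk, i2_ne a c d hdc]
        intro h
        rw [Sym2.eq_iff] at h
        rcases h with ⟨_, h2⟩ | ⟨_, h2⟩ <;> cases h2
    intro e he e' he' h
    by_cases h1 : e = s(a, b)
    · by_cases h2 : e' = s(a, b)
      · rw [h1, h2]
      · simp only [h1, h2, if_true, if_false] at h
        exact absurd h (key e')
    · by_cases h2 : e' = s(a, b)
      · simp only [h1, h2, if_true, if_false] at h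
        exact absurd h.symm (key e)
      · simp only [h1, h2, if_false] at h
        exact Sym2.map.injective Sum.inl_injective h

end Pool.Agent.FC14
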