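import Pool.Agent.FC14.InstDefs

/-!
# Counting nodes, classes and adjacent pairs

Counts: `m² M` nodes, `(m + 1) M` classes, and
`(m - 1)(m³ - 1) M² - (m - 1)(m² - m - 1) M` ordered pairs of adjacent nodes. (Ordered pairs of nodes of different
colours: `m³ (m - 1) M²`; of these in the same class: `m (m - 1)² M`; lost: `(m - 1) M (M - 1)`.)
-/

set_option autoImplicit false

namespace Pool.Agent.FC14

open Finset

/-- classes with a node of colour `a` -/
private lemma card_ne_some (n : ℕ) (a : Fin n) :
    (univ.filter (fun g : Option (Fin n) => g ≠ some a)).card = n := by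
  have h : univ.filter (fun g : Option (Fin n) => g ≠ some a) = univ.erase (some a) := by
    ext g
    simp
  rw [h, card_erase_of_mem (mem_univ _), card_univ, Fintype.card_option, Fintype.card_fin]
  rfl

private lemma card_ne_some2 (n : ℕ) (a b : Fin n) (hab : a ≠ b) :
    (univ.filter (fun g : Option (Fin n) => g ≠ some a ∧ g ≠ some b)).card = n - 1 := by
  have h : univ.filter (fun g : Option (Fin n) => g ≠ some a ∧ g ≠ some b) =
      (univ.erase (some a)).erase (some b) := by
    ext g
    simp only [mem_filter, mem_univ, true_and, mem_erase, and_true]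
    tauto
  rw [h, card_erase_of_mem, card_erase_of_mem (mem_univ _), card_univ, Fintype.card_option,
    Fintype.card_fin]
  · rfl
  · simp only [mem_erase, mem_univ, and_true]
    intro h'
    exact hab (Option.some.inj h').symm

theorem inst_nodes (d M : ℕ) (hM : d + 4 ≤ M) :
    Nat.card (inst d M hM).Nd = (d + 2) ^ 2 * M := by
  classical
  change Nat.card {x : (Option (Fin (d + 2)) × Fin M) × Fin (d + 2) // x.1.1 ≠ some x.2} = _
  rw [Nat.card_eq_fintype_card, Fintype.card_subtype]
  rw [card_eq_sum_card_fiberwise (f := fun x => x.2) (t := univ) (fun _ _ => by simp)]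
  have h : ∀ a ∈ (univ : Finset (Fin (d + 2))),
      ((univ.filter (fun x : (Option (Fin (d + 2)) × Fin M) × Fin (d + 2) =>
        x.1.1 ≠ some x.2)).filter (fun x => x.2 = a)).card = (d + 2) * M := by
    intro a _
    have e : ((univ.filter (fun x : (Option (Fin (d + 2)) × Fin M) × Fin (d + 2) =>
        x.1.1 ≠ some x.2)).filter (fun x => x.2 = a)) =
        ((univ.filter (fun g : Option (Fin (d + 2)) => g ≠ some a)) ×ˢ
          (univ : Finset (Fin M))) ×ˢ {a} := by
      ext x
      simp only [mem_filter, mem_univ, true_and, mem_product, mem_singleton, and_true]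
      constructor
      · rintro ⟨h1, h2⟩
        exact ⟨h2 ▸ h1, h2⟩
      · rintro ⟨h1, h2⟩
        exact ⟨h2.symm ▸ h1, h2⟩
    rw [e, card_product, card_product, card_ne_some, card_singleton, card_univ, Fintype.card_fin,
      mul_one]
  rw [sum_congr rfl h, sum_const, card_univ, Fintype.card_fin, smul_eq_mul]
  ring

theorem inst_classes (d M : ℕ) :
    Nat.card (Option (Fin (d + 2)) × Fin M) = (d + 3) * M := by
  rw [Nat.card_eq_fintype_card, Fintype.card_prod, Fintype.card_option, Fintype.card_fin,
    Fintype.card_fin]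

theorem inst_pairs (d M : ℕ) (hM : d + 4 ≤ M) :
    (d + 1) * ((d + 2) ^ 3 - 1) * M ^ 2 ≤
      Nat.card {p : (inst d M hM).Nd × (inst d M hM).Nd // (inst d M hM).R p.1.1 p.2.1} +
        (d + 1) * ((d + 2) ^ 2 - (d + 2) - 1) * M := by
  classical
  -- the type of all pairs
  let X := (Option (Fin (d + 2)) × Fin M) × Fin (d + 2)
  let P : Finset (X × X) := univ.filter (fun p => p.1.1.1 ≠ some p.1.2 ∧ p.2.1.1 ≠ some p.2.2 ∧
    p.1.2 ≠ p.2.2)
  let S : Finset (X × X) := univ.filter (fun p => p.1.1 = p.2.1 ∧ p.1.1.1 ≠ some p.1.2 ∧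
    p.1.1.1 ≠ some p.2.2 ∧ p.1.2 ≠ p.2.2)
  let E : Finset (X × X) := univ.filter (fun p => instR d M p.1 p.2)
  let Q : Finset ((Fin M × Fin M) × Fin (d + 2)) :=
    (univ : Finset (Fin M)).offDiag ×ˢ (univ.erase (Fin.last (d + 1)))
  let z : Fin (d + 2) := Fin.last (d + 1)
  let F : ((Fin M × Fin M) × Fin (d + 2)) → X × X := fun q =>
    if q.1.1 < q.1.2 then (((none, q.1.1), z), ((none, q.1.2), q.2))
    else (((none, q.1.1), q.2), ((none, q.1.2), z))
  have hcover : P ⊆ E ∪ S ∪ Q.image F := by
    intro p hp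
    obtain ⟨⟨⟨g, j⟩, a⟩, ⟨⟨h, j'⟩, b⟩⟩ := p
    simp only [P, mem_filter, mem_univ, true_and] at hp
    obtain ⟨h1, h2, h3⟩ := hp
    by_cases hs : (g, j) = (h, j')
    · apply mem_union_left
      apply mem_union_right
      simp only [S, mem_filter, mem_univ, true_and]
      refine ⟨hs, h1, ?_, h3⟩
      rw [Prod.mk.injEq] at hs
      rw [hs.1]
      exact h2
    · by_cases hr : instR d M ((g, j), a) ((h, j'), b)
      · apply mem_union_left
        apply mem_union_left
        simp only [E, mem_filter, mem_univ, true_and]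
        exact hr
      · apply mem_union_right
        unfold instR at hr
        have h4 : g = none ∧ h = none ∧ ((j < j' ∧ a = z) ∨ (j' < j ∧ b = z)) := by
          by_contra hcon
          exact hr ⟨h1, h2, hs, h3, hcon⟩
        obtain ⟨rfl, rfl, h5⟩ := h4
        rw [mem_image]
        rcases h5 with ⟨h5, rfl⟩ | ⟨h5, rfl⟩
        · refine ⟨((j, j'), b), ?_, ?_⟩
          · simp only [Q, mem_product, mem_offDiag, mem_univ, true_and, mem_erase, and_true]
            exact ⟨h5.ne, fun h => h3 h.symm⟩
          · simp only [F, h5, if_true]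
        · refine ⟨((j, j'), a), ?_, ?_⟩
          · simp only [Q, mem_product, mem_offDiag, mem_univ, true_and, mem_erase, and_true]
            exact ⟨h5.ne', fun h => h3 h⟩
          · have h6 : ¬ j < j' := not_lt.2 h5.le
            simp only [F, h6, if_false]
  have hP : P.card = (d + 2) * (d + 1) * ((d + 2) * M) ^ 2 := by
    rw [card_eq_sum_card_fiberwise (f := fun p => (p.1.2, p.2.2))
      (t := (univ : Finset (Fin (d + 2))).offDiag) (fun p hp => by
        simp only [P, coe_filter, mem_univ, true_and, Set.mem_setOf_eq] at hp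
        simp only [coe_offDiag, coe_univ, Set.mem_offDiag, Set.mem_univ, true_and]
        exact hp.2.2)]
    have h : ∀ ab ∈ (univ : Finset (Fin (d + 2))).offDiag,
        (P.filter (fun p => (p.1.2, p.2.2) = ab)).card = ((d + 2) * M) ^ 2 := by
      intro ab hab
      obtain ⟨a, b⟩ := ab
      simp only [mem_offDiag, mem_univ, true_and] at hab
      have e : P.filter (fun p => (p.1.2, p.2.2) = (a, b)) =
          (((univ.filter (fun g : Option (Fin (d + 2)) => g ≠ some a)) ×ˢ
            (univ : Finset (Fin M))) ×ˢ {a}) ×ˢ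
          (((univ.filter (fun g : Option (Fin (d + 2)) => g ≠ some b)) ×ˢ
            (univ : Finset (Fin M))) ×ˢ {b}) := by
        ext p
        obtain ⟨⟨⟨g, j⟩, a'⟩, ⟨⟨h, j'⟩, b'⟩⟩ := p
        simp only [P, mem_filter, mem_univ, true_and, mem_product, mem_singleton, and_true,
          Prod.mk.injEq]
        constructor
        · rintro ⟨⟨h1, h2, h3⟩, rfl, rfl⟩
          exact ⟨⟨h1, rfl⟩, h2, rfl⟩
        · rintro ⟨⟨h1, rfl⟩, h2, rfl⟩
          exact ⟨⟨h1, h2, hab⟩, rfl, rfl⟩
      rw [e, card_product, card_product, card_product, card_product, card_product, card_ne_some,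
        card_ne_some, card_singleton, card_singleton, card_univ, Fintype.card_fin, mul_one]
      ring
    rw [sum_congr rfl h, sum_const, offDiag_card, card_univ, Fintype.card_fin, smul_eq_mul]
    have : (d + 2) * (d + 2) - (d + 2) = (d + 2) * (d + 1) := by
      rw [Nat.sub_eq_iff_eq_add (by nlinarith)]
      ring
    rw [this]
  have hS : S.card ≤ (d + 2) * (d + 1) * ((d + 1) * M) := by
    rw [card_eq_sum_card_fiberwise (f := fun p => (p.1.2, p.2.2))
      (t := (univ : Finset (Fin (d + 2))).offDiag) (fun p hp => by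
        simp only [S, coe_filter, mem_univ, true_and, Set.mem_setOf_eq] at hp
        simp only [coe_offDiag, coe_univ, Set.mem_offDiag, Set.mem_univ, true_and]
        exact hp.2.2.2)]
    have h : ∀ ab ∈ (univ : Finset (Fin (d + 2))).offDiag,
        (S.filter (fun p => (p.1.2, p.2.2) = ab)).card ≤ (d + 1) * M := by
      intro ab hab
      obtain ⟨a, b⟩ := ab
      simp only [mem_offDiag, mem_univ, true_and] at hab
      have e : S.filter (fun p => (p.1.2, p.2.2) = (a, b)) ⊆
          ((univ.filter (fun g : Option (Fin (d + 2)) => g ≠ some a ∧ g ≠ some b)) ×ˢ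
            (univ : Finset (Fin M))).image (fun c => ((c, a), (c, b))) := by
        intro p hp
        obtain ⟨⟨⟨g, j⟩, a'⟩, ⟨⟨h, j'⟩, b'⟩⟩ := p
        simp only [S, mem_filter, mem_univ, true_and, Prod.mk.injEq] at hp
        obtain ⟨⟨⟨rfl, rfl⟩, h1, h2, h3⟩, rfl, rfl⟩ := hp
        rw [mem_image]
        refine ⟨(g, j), ?_, rfl⟩
        simp only [mem_product, mem_filter, mem_univ, true_and, and_true]
        exact ⟨h1, h2⟩
      refine (card_le_card e).trans (card_image_le.trans ?_)
      rw [card_product, card_ne_some2 _ _ _ hab, card_univ, Fintype.card_fin]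
      simp
    refine (sum_le_sum h).trans ?_
    rw [sum_const, offDiag_card, card_univ, Fintype.card_fin, smul_eq_mul]
    have : (d + 2) * (d + 2) - (d + 2) = (d + 2) * (d + 1) := by
      rw [Nat.sub_eq_iff_eq_add (by nlinarith)]
      ring
    rw [this]
  have hQ : Q.card = (M * M - M) * (d + 1) := by
    simp only [Q]
    rw [card_product, offDiag_card, card_univ, Fintype.card_fin, card_erase_of_mem (mem_univ _),
      card_univ, Fintype.card_fin]
    rfl
  have hE : E.card = Nat.card {p : (inst d M hM).Nd × (inst d M hM).Nd //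
      (inst d M hM).R p.1.1 p.2.1} := by
    have e : {p : (inst d M hM).Nd × (inst d M hM).Nd // (inst d M hM).R p.1.1 p.2.1} ≃
        {p : X × X // instR d M p.1 p.2} :=
      { toFun := fun p => ⟨(p.1.1.1, p.1.2.1), p.2⟩
        invFun := fun p => ⟨(⟨p.1.1, p.2.1⟩, ⟨p.1.2, p.2.2.1⟩), p.2⟩
        left_inv := fun p => rfl
        right_inv := fun p => rfl }
    rw [Nat.card_congr e, Nat.card_eq_fintype_card, Fintype.card_subtype]
  have hmain : P.card ≤ E.card + S.card + Q.card := by
    calc P.card ≤ (E ∪ S ∪ Q.image F).card := card_le_card hcover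
      _ ≤ (E ∪ S).card + (Q.image F).card := card_union_le _ _
      _ ≤ E.card + S.card + Q.card := by
        have h1 := card_union_le E S
        have h2 : (Q.image F).card ≤ Q.card := card_image_le
        omega
  rw [hP, hQ, hE] at hmain
  generalize Nat.card {p : (inst d M hM).Nd × (inst d M hM).Nd //
      (inst d M hM).R p.1.1 p.2.1} = N at hmain ⊢
  have hMM : M ≤ M * M := by nlinarith
  obtain ⟨t, ht⟩ : ∃ t, M * M = M + t := ⟨M * M - M, by omega⟩
  have e1 : M * M - M = t := by omega
  rw [e1] at hmain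
  have e2 : (d + 2) ^ 3 - 1 = d ^ 3 + 6 * d ^ 2 + 12 * d + 7 := by
    have : (d + 2) ^ 3 = d ^ 3 + 6 * d ^ 2 + 12 * d + 7 + 1 := by ring
    omega
  have e3 : (d + 2) ^ 2 - (d + 2) - 1 = d ^ 2 + 3 * d + 1 := by
    have : (d + 2) ^ 2 = d ^ 2 + 3 * d + 1 + 1 + (d + 2) := by ring
    omega
  rw [e2, e3]
  have e4 : M ^ 2 = M + t := by rw [pow_two]; exact ht
  have e5 : (d + 2) * (d + 1) * ((d + 2) * M) ^ 2 = (d + 2) ^ 3 * (d + 1) * (M + t) := by
    rw [← e4]; ring
  rw [e5] at hmain
  rw [e4]
  nlinarith [hmain, hS]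

end Pool.Agent.FC14
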