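import Mathlib

/-!
# From the bounds for special sizes to all sizes

Paper proof of `asymp`: put `p = 2 s + 1`, `g s = a p ^ 2 + b p + c`. For `n ≥ g 1` let `s` be the
largest number with `g s ≤ n`; then `n < g (s + 1)` and `f n ≥ (N / 2) (p ^ 2 - 1) ^ 2`. As
`(p ^ 2 - 1) ^ 2 / g (s + 1) ^ 2 → 1 / a ^ 2`, there is `s₀` such that
`(N / 2) (p ^ 2 - 1) ^ 2 ≥ (N / (2 a ^ 2) - ε) g (s + 1) ^ 2` for all `s ≥ s₀`. Take `n₀ = g s₀` (and treat
`N / (2 a ^ 2) - ε < 0` separately).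
`asymp'` is the same for sizes `a s + c` and the bound `(N s ^ 2 - b s) / 2`.
-/

set_option autoImplicit false

namespace Pool.Agent.FC14

/-- The last index below `n` of a sequence which is monotone and unbounded. -/
private theorem limit_exists_index (g : ℕ → ℕ) (hg : Monotone g) (hu : ∀ t, t ≤ g t) (s₀ n : ℕ)
    (h : g s₀ ≤ n) : ∃ s, s₀ ≤ s ∧ g s ≤ n ∧ n < g (s + 1) := by
  classical
  have hex : ∃ t, n < g t := ⟨n + 1, lt_of_lt_of_le (Nat.lt_succ_self n) (hu (n + 1))⟩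
  have h1 : n < g (Nat.find hex) := Nat.find_spec hex
  have h2 : s₀ < Nat.find hex := by
    by_contra hc
    have h3 : g (Nat.find hex) ≤ g s₀ := hg (Nat.le_of_not_lt hc)
    omega
  obtain ⟨s, hs⟩ : ∃ s, Nat.find hex = s + 1 := ⟨Nat.find hex - 1, by omega⟩
  refine ⟨s, by omega, ?_, ?_⟩
  · have := Nat.find_min hex (m := s) (by omega)
    omega
  · rw [← hs]
    exact h1

theorem asymp (f : ℕ → ℕ) (a b c N : ℕ) (ha : 0 < a)
    (h : ∀ s, 1 ≤ s → ∀ n, a * (2 * s + 1) ^ 2 + b * (2 * s + 1) + c ≤ n →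
      N * ((2 * s + 1) ^ 2 - 1) ^ 2 ≤ 2 * f n) :
    ∀ ε : ℝ, 0 < ε → ∃ n₀ : ℕ, ∀ n, n₀ ≤ n →
      ((N : ℝ) / (2 * (a : ℝ) ^ 2) - ε) * (n : ℝ) ^ 2 ≤ f n := by
  intro ε hε
  have haR : (1 : ℝ) ≤ (a : ℝ) := by exact_mod_cast ha
  have ha2 : (0 : ℝ) < 2 * (a : ℝ) ^ 2 := by positivity
  rcases le_or_gt ((N : ℝ) / (2 * (a : ℝ) ^ 2) - ε) 0 with hneg | hpos
  · refine ⟨0, fun n _ => ?_⟩
    have h1 : ((N : ℝ) / (2 * (a : ℝ) ^ 2) - ε) * (n : ℝ) ^ 2 ≤ 0 :=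
      mul_nonpos_of_nonpos_of_nonneg hneg (by positivity)
    have h2 : (0 : ℝ) ≤ f n := by positivity
    linarith
  · set C : ℝ := (8 : ℝ) * a + 3 * b + c with hC
    have hC0 : 0 ≤ C := by positivity
    set D : ℝ := 2 * a * C + C ^ 2 with hD
    have hD0 : 0 ≤ D := by positivity
    obtain ⟨k, hk⟩ := exists_nat_ge (((N : ℝ) / (2 * (a : ℝ) ^ 2) * D + N) / ε)
    have hmono : Monotone (fun s : ℕ => a * (2 * s + 1) ^ 2 + b * (2 * s + 1) + c) := by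
      intro s t hst
      have h1 : 2 * s + 1 ≤ 2 * t + 1 := by omega
      have h2 : (2 * s + 1) ^ 2 ≤ (2 * t + 1) ^ 2 := Nat.pow_le_pow_left h1 2
      have h3 := Nat.mul_le_mul_left a h2
      have h4 := Nat.mul_le_mul_left b h1
      show a * (2 * s + 1) ^ 2 + b * (2 * s + 1) + c ≤ a * (2 * t + 1) ^ 2 + b * (2 * t + 1) + c
      omega
    have hunb : ∀ t : ℕ, t ≤ (fun s : ℕ => a * (2 * s + 1) ^ 2 + b * (2 * s + 1) + c) t := by
      intro t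
      show t ≤ a * (2 * t + 1) ^ 2 + b * (2 * t + 1) + c
      have h1 : 2 * t + 1 ≤ (2 * t + 1) ^ 2 := by nlinarith
      have h2 : (2 * t + 1) ^ 2 ≤ a * (2 * t + 1) ^ 2 := Nat.le_mul_of_pos_left _ ha
      omega
    refine ⟨a * (2 * (k + 1) + 1) ^ 2 + b * (2 * (k + 1) + 1) + c, fun n hn => ?_⟩
    obtain ⟨s, hs0, hs1, hs2⟩ := limit_exists_index _ hmono hunb (k + 1) n hn
    have hs1' : a * (2 * s + 1) ^ 2 + b * (2 * s + 1) + c ≤ n := hs1
    have hs2' : n < a * (2 * (s + 1) + 1) ^ 2 + b * (2 * (s + 1) + 1) + c := hs2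
    have hf := h s (by omega) n hs1'
    set p : ℝ := 2 * (s : ℝ) + 1 with hp
    have hp1 : 1 ≤ p := by
      have : (0 : ℝ) ≤ s := by positivity
      linarith
    have hkp : (k : ℝ) ≤ p := by
      have : ((k + 1 : ℕ) : ℝ) ≤ (s : ℝ) := by exact_mod_cast hs0
      push_cast at this
      have : (0 : ℝ) ≤ s := by positivity
      linarith
    have hK : (N : ℝ) / (2 * (a : ℝ) ^ 2) * D + N ≤ ε * p := by
      have := le_trans hk hkp
      rw [div_le_iff₀ hε] at this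
      linarith
    have hlow : (a : ℝ) * p ^ 2 ≤ n := by
      have h1 : a * (2 * s + 1) ^ 2 ≤ n := by omega
      have h2 : ((a * (2 * s + 1) ^ 2 : ℕ) : ℝ) ≤ (n : ℝ) := by exact_mod_cast h1
      push_cast at h2
      simpa [hp] using h2
    have hlow' : p ^ 2 ≤ n := by nlinarith [sq_nonneg p]
    have hup : (n : ℝ) ≤ a * p ^ 2 + C * p := by
      have h2 : (n : ℝ) ≤ ((a * (2 * (s + 1) + 1) ^ 2 + b * (2 * (s + 1) + 1) + c : ℕ) : ℝ) := by
        exact_mod_cast hs2'.le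
      push_cast at h2
      have h3 : (a : ℝ) * (2 * ((s : ℝ) + 1) + 1) ^ 2 + b * (2 * ((s : ℝ) + 1) + 1) + c =
          a * (p + 2) ^ 2 + b * (p + 2) + c := by rw [hp]; ring
      rw [h3] at h2
      have h4 : (a : ℝ) * (p + 2) ^ 2 + b * (p + 2) + c ≤ a * p ^ 2 + C * p := by
        have h5 : (0 : ℝ) ≤ (4 * a + 2 * b + c) * (p - 1) := by
          apply mul_nonneg
          · positivity
          · linarith
        rw [hC]
        nlinarith
      linarith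
    have hn0 : (0 : ℝ) ≤ n := by positivity
    have hp0 : 0 ≤ p := by linarith
    have hnsq : (n : ℝ) ^ 2 ≤ (a : ℝ) ^ 2 * p ^ 4 + D * p ^ 3 := by
      have h1 : (n : ℝ) ^ 2 ≤ (a * p ^ 2 + C * p) ^ 2 := by
        apply pow_le_pow_left₀ hn0 hup
      have h2 : C ^ 2 * p ^ 2 ≤ C ^ 2 * p ^ 3 := by
        apply mul_le_mul_of_nonneg_left _ (by positivity)
        exact pow_le_pow_right₀ hp1 (by norm_num)
      rw [hD]
      nlinarith
    have hnsq' : p ^ 4 ≤ (n : ℝ) ^ 2 := by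
      have := pow_le_pow_left₀ (by positivity) hlow' 2
      calc p ^ 4 = (p ^ 2) ^ 2 := by ring
        _ ≤ _ := this
    have hfR : (N : ℝ) * (p ^ 2 - 1) ^ 2 ≤ 2 * (f n : ℝ) := by
      have h1 : ((N * ((2 * s + 1) ^ 2 - 1) ^ 2 : ℕ) : ℝ) ≤ ((2 * f n : ℕ) : ℝ) := by
        exact_mod_cast hf
      have h2 : 1 ≤ (2 * s + 1) ^ 2 := Nat.one_le_pow _ _ (by omega)
      rw [Nat.cast_mul, Nat.cast_pow, Nat.cast_sub h2, Nat.cast_mul] at h1
      push_cast at h1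
      simpa [hp] using h1
    have hNa : (0 : ℝ) ≤ (N : ℝ) / (2 * (a : ℝ) ^ 2) := by positivity
    have h1 : (N : ℝ) / (2 * (a : ℝ) ^ 2) * (n : ℝ) ^ 2 ≤
        (N : ℝ) / 2 * p ^ 4 + (N : ℝ) / (2 * (a : ℝ) ^ 2) * D * p ^ 3 := by
      have h2 := mul_le_mul_of_nonneg_left hnsq hNa
      have h3 : (N : ℝ) / (2 * (a : ℝ) ^ 2) * ((a : ℝ) ^ 2 * p ^ 4 + D * p ^ 3) =
          (N : ℝ) / 2 * p ^ 4 + (N : ℝ) / (2 * (a : ℝ) ^ 2) * D * p ^ 3 := by
        field_simp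
      rw [h3] at h2
      exact h2
    have h4 : (N : ℝ) / (2 * (a : ℝ) ^ 2) * D * p ^ 3 + N * p ^ 2 ≤ ε * p ^ 4 := by
      have h5 : N * p ^ 2 ≤ N * p ^ 3 := by
        apply mul_le_mul_of_nonneg_left _ (by positivity)
        exact pow_le_pow_right₀ hp1 (by norm_num)
      have h6 := mul_le_mul_of_nonneg_right hK (by positivity : (0 : ℝ) ≤ p ^ 3)
      nlinarith
    have h7 : ε * p ^ 4 ≤ ε * (n : ℝ) ^ 2 := mul_le_mul_of_nonneg_left hnsq' hε.le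
    have h8 : (N : ℝ) / 2 * p ^ 4 - N * p ^ 2 ≤ (N : ℝ) / 2 * (p ^ 2 - 1) ^ 2 := by
      have : (0 : ℝ) ≤ N := by positivity
      nlinarith
    calc ((N : ℝ) / (2 * (a : ℝ) ^ 2) - ε) * (n : ℝ) ^ 2
        = (N : ℝ) / (2 * (a : ℝ) ^ 2) * (n : ℝ) ^ 2 - ε * (n : ℝ) ^ 2 := by ring
      _ ≤ (N : ℝ) / 2 * p ^ 4 - N * p ^ 2 := by linarith
      _ ≤ (N : ℝ) / 2 * (p ^ 2 - 1) ^ 2 := h8
      _ ≤ f n := by linarith

/-- A sequence of sizes with bounded gaps. -/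
theorem asymp' (f : ℕ → ℕ) (a c : ℕ) (L B : ℝ) (ha : 0 < a)
    (h : ∀ s : ℕ, 1 ≤ s → ∀ n, a * s + c ≤ n → L * (s : ℝ) ^ 2 - B * s ≤ f n) :
    ∀ ε : ℝ, 0 < ε → ∃ n₀ : ℕ, ∀ n, n₀ ≤ n →
      (L / (a : ℝ) ^ 2 - ε) * (n : ℝ) ^ 2 ≤ f n := by
  intro ε hε
  have haR : (1 : ℝ) ≤ (a : ℝ) := by exact_mod_cast ha
  have ha2 : (0 : ℝ) < (a : ℝ) ^ 2 := by positivity
  rcases le_or_gt (L / (a : ℝ) ^ 2 - ε) 0 with hneg | hpos
  · refine ⟨0, fun n _ => ?_⟩
    have h1 : (L / (a : ℝ) ^ 2 - ε) * (n : ℝ) ^ 2 ≤ 0 :=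
      mul_nonpos_of_nonpos_of_nonneg hneg (by positivity)
    have h2 : (0 : ℝ) ≤ f n := by positivity
    linarith
  · set M : ℝ := L / (a : ℝ) ^ 2 with hM
    have hM0 : 0 < M := by linarith
    have hL : L = M * (a : ℝ) ^ 2 := by rw [hM]; field_simp
    set d : ℝ := (a : ℝ) + c with hd
    have hd0 : 0 ≤ d := by positivity
    obtain ⟨k, hk⟩ := exists_nat_ge ((2 * d * M + |B|) / ε)
    refine ⟨k + (a + c), fun n hn => ?_⟩
    obtain ⟨s, hs⟩ : ∃ s, s = (n - c) / a := ⟨_, rfl⟩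
    have hs1 : 1 ≤ s := by
      rw [hs, Nat.one_le_div_iff ha]
      omega
    have hs2 : a * s ≤ n - c := by
      rw [hs]
      exact Nat.mul_div_le _ _
    have hs3 : n - c < a * s + a := by
      rw [hs]
      exact Nat.lt_mul_div_succ _ ha
    have hf := h s hs1 n (by omega)
    have hkn : (k : ℝ) ≤ n := by exact_mod_cast (by omega : k ≤ n)
    have hK : 2 * d * M + |B| ≤ ε * n := by
      have := le_trans hk hkn
      rw [div_le_iff₀ hε] at this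
      linarith
    have hlow : (n : ℝ) - d ≤ a * s := by
      have h1 : n ≤ a * s + a + c := by omega
      have h2 : (n : ℝ) ≤ ((a * s + a + c : ℕ) : ℝ) := by exact_mod_cast h1
      push_cast at h2
      rw [hd]
      linarith
    have hdn : (0 : ℝ) ≤ (n : ℝ) - d := by
      have h1 : ((a + c : ℕ) : ℝ) ≤ (n : ℝ) := by exact_mod_cast (by omega : a + c ≤ n)
      push_cast at h1
      rw [hd]
      linarith
    have hup : (a : ℝ) * s ≤ n := by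
      have h1 : a * s ≤ n := by omega
      exact_mod_cast h1
    have hs0 : (0 : ℝ) ≤ s := by positivity
    have hup' : (s : ℝ) ≤ n := by nlinarith
    have h1 : M * ((n : ℝ) ^ 2 - 2 * d * n) ≤ L * (s : ℝ) ^ 2 := by
      have h2 : ((n : ℝ) - d) ^ 2 ≤ (a * s) ^ 2 := pow_le_pow_left₀ hdn hlow 2
      have h3 : (n : ℝ) ^ 2 - 2 * d * n ≤ (a * s) ^ 2 := by nlinarith [sq_nonneg d]
      have h4 := mul_le_mul_of_nonneg_left h3 hM0.le
      calc M * ((n : ℝ) ^ 2 - 2 * d * n) ≤ M * (a * s) ^ 2 := h4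
        _ = L * (s : ℝ) ^ 2 := by rw [hL]; ring
    have h5 : B * s ≤ |B| * n := by
      calc B * s ≤ |B| * s := mul_le_mul_of_nonneg_right (le_abs_self B) hs0
        _ ≤ |B| * n := mul_le_mul_of_nonneg_left hup' (abs_nonneg B)
    have hn0 : (0 : ℝ) ≤ n := by positivity
    have h6 := mul_le_mul_of_nonneg_right hK hn0
    nlinarith

end Pool.Agent.FC14
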