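import Pool.Agent.FC14.SysBound
import Pool.Agent.FC14.InstCount
import Pool.Agent.FC14.Limit

/-!
# The lower bound for all `k = d + 4`

Paper proof: `Sys.bound` for `inst d M hM` with `M` large, and `asymp` with `a = (m² + m + 1) M`:
`N / (2 a²) ≥ ((m - 1)(m³ - 1) M² - (m - 1)(m² - m - 1) M) / (2 (m² + m + 1)² M²) → (m - 1)² / (2 (m² + m + 1))`.
-/

set_option autoImplicit false

namespace Pool.Agent.FC14

open SimpleGraph

/-- **The lower bound for `k = d + 4`, `m = d + 2`: density `(m - 1)² / (2 (m² + m + 1))`.** -/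
theorem lower (d : ℕ) : ∀ ε : ℝ, 0 < ε → ∃ n₀ : ℕ, ∀ n : ℕ, n₀ ≤ n →
    (((d : ℝ) + 1) ^ 2 / (2 * (((d : ℝ) + 2) ^ 2 + ((d : ℝ) + 2) + 1)) - ε) * (n : ℝ) ^ 2 ≤
      F (d + 4) n := by
  intro ε hε
  set q : ℝ := ((d : ℝ) + 2) ^ 2 + ((d : ℝ) + 2) + 1 with hq
  have hd0 : (0 : ℝ) ≤ d := Nat.cast_nonneg d
  have hq0 : 0 < q := by rw [hq]; positivity
  set c : ℝ := ((d : ℝ) + 1) * (((d : ℝ) + 2) ^ 2 - ((d : ℝ) + 2) - 1) with hc
  obtain ⟨M₀, hM₀⟩ := exists_nat_ge (c / (q ^ 2 * ε))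
  set M : ℕ := M₀ + (d + 4) with hMdef
  have hM : d + 4 ≤ M := by omega
  have hM0 : (0 : ℝ) < M := by
    have : 0 < M := by omega
    exact_mod_cast this
  have hMc : c / (q ^ 2 * ε) ≤ M := by
    refine hM₀.trans ?_
    have : M₀ ≤ M := by omega
    exact_mod_cast this
  obtain ⟨C, hC⟩ := (inst d M hM).bound
  set N : ℕ := Nat.card {p : (inst d M hM).Nd × (inst d M hM).Nd //
    (inst d M hM).R p.1.1 p.2.1} with hN
  have hsz : Nat.card (inst d M hM).Nd + Nat.card (Option (Fin (d + 2)) × Fin M) =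
      ((d + 2) ^ 2 + (d + 2) + 1) * M := by
    rw [inst_nodes, inst_classes]
    ring
  rw [hsz] at hC
  have hapos : 0 < ((d + 2) ^ 2 + (d + 2) + 1) * M := Nat.mul_pos (by positivity) (by omega)
  obtain ⟨n₀, hn₀⟩ := asymp (F (d + 4)) (((d + 2) ^ 2 + (d + 2) + 1) * M)
    (4 * Nat.card (Option (Fin (d + 2)) × Fin M)) C N hapos hC (ε / 2) (by positivity)
  refine ⟨n₀, fun n hn => le_trans ?_ (hn₀ n hn)⟩
  refine mul_le_mul_of_nonneg_right ?_ (by positivity)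
  -- the number of pairs
  have hpairs : ((d : ℝ) + 1) * (((d : ℝ) + 2) ^ 3 - 1) * (M : ℝ) ^ 2 ≤ N + c * M := by
    have h1 := inst_pairs d M hM
    rw [← hN] at h1
    have h2 : 1 ≤ (d + 2) ^ 3 := Nat.one_le_pow _ _ (by omega)
    have h3 : (d + 2) ^ 2 - (d + 2) - 1 = d ^ 2 + 3 * d + 1 := by
      have : (d + 2) ^ 2 = d ^ 2 + 3 * d + 1 + 1 + (d + 2) := by ring
      omega
    rw [h3] at h1
    have h4 : (((d + 1) * ((d + 2) ^ 3 - 1) * M ^ 2 : ℕ) : ℝ) ≤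
        ((N + (d + 1) * (d ^ 2 + 3 * d + 1) * M : ℕ) : ℝ) := by exact_mod_cast h1
    rw [Nat.cast_mul, Nat.cast_mul, Nat.cast_sub h2] at h4
    push_cast at h4
    rw [hc]
    nlinarith [h4]
  have hcast : ((((d + 2) ^ 2 + (d + 2) + 1) * M : ℕ) : ℝ) = q * M := by
    rw [hq]
    push_cast
    ring
  rw [hcast]
  have hcM : c ≤ M * (q ^ 2 * ε) := by
    rwa [div_le_iff₀ (by positivity)] at hMc
  have hkey : ((d : ℝ) + 1) ^ 2 * q * (M : ℝ) ^ 2 ≤ N + c * M := by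
    have h1 : ((d : ℝ) + 1) * (((d : ℝ) + 2) ^ 3 - 1) = ((d : ℝ) + 1) ^ 2 * q := by
      rw [hq]
      ring
    rwa [h1] at hpairs
  have hfin : ((d : ℝ) + 1) ^ 2 / (2 * q) - ε / 2 ≤ (N : ℝ) / (2 * (q * M) ^ 2) := by
    rw [le_div_iff₀ (by positivity)]
    have h1 : (((d : ℝ) + 1) ^ 2 / (2 * q) - ε / 2) * (2 * (q * M) ^ 2) =
        ((d : ℝ) + 1) ^ 2 * q * (M : ℝ) ^ 2 - (M * (q ^ 2 * ε)) * M := by
      field_simp
    rw [h1]
    have h2 := mul_le_mul_of_nonneg_right hcM hM0.le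
    linarith
  linarith

end Pool.Agent.FC14
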