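import Pool.Agent.FC14.SysDefs

/-!
# The class system with full and deficient classes

`m = d + 2`. Classes: `Option (Fin m) × Fin M`. The class `(none, j)` has nodes of all colours ('full'), the class
`(some o, j)` has nodes of all colours except `o`. Two nodes of different classes with different colours are
adjacent, except that for full classes `(none, j)`, `(none, j')`, `j < j'`, the node of the last
colour `z` of `(none, j)` is not adjacent to any node of `(none, j')`.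

Paper proofs.
* `clique`: `l c = (some x.2, f c)` with `f : Fin m → Fin M` injective and avoiding the second
  components of the classes of `x` and `y` (`M ≥ m + 2`); at least one of any two of the classes in question is deficient.
* `mix` for `x = (g, a)`, `y = (h, b)`: both full, `j < j'` (so `a ≠ z`): `β = z`, `γ = a`; both full,
  `j' < j`: `β = b`, `γ = z`; `g` full, `h = (some o, _)`: `β = b`, `γ = o`; `g = (some o, _)`, `h` full: `β = o`, `γ = a`;
  `g = (some o, _)`, `h = (some o', _)`: `β = o`, `γ = o'`.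
-/

set_option autoImplicit false

namespace Pool.Agent.FC14

/-- The adjacency. -/
def instR (d M : ℕ) (x y : (Option (Fin (d + 2)) × Fin M) × Fin (d + 2)) : Prop :=
  x.1.1 ≠ some x.2 ∧ y.1.1 ≠ some y.2 ∧ x.1 ≠ y.1 ∧ x.2 ≠ y.2 ∧
  ¬ (x.1.1 = none ∧ y.1.1 = none ∧
    ((x.1.2 < y.1.2 ∧ x.2 = Fin.last (d + 1)) ∨ (y.1.2 < x.1.2 ∧ y.2 = Fin.last (d + 1))))

theorem instR_clique (d M : ℕ) (hM : d + 4 ≤ M) (x y : (Option (Fin (d + 2)) × Fin M) × Fin (d + 2))
    (h : instR d M x y) : ∃ l : Fin (d + 2) → Option (Fin (d + 2)) × Fin M,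
    (∀ c, c ≠ x.2 → c ≠ y.2 → instR d M x (l c, c) ∧ instR d M y (l c, c)) ∧
    ∀ c c', c ≠ c' → c ≠ x.2 → c ≠ y.2 → c' ≠ x.2 → c' ≠ y.2 →
      instR d M (l c, c) (l c', c') := by
  obtain ⟨⟨⟨g, i⟩, a⟩, rfl⟩ : ∃ z, z = x := ⟨x, rfl⟩
  obtain ⟨⟨⟨g', j⟩, b⟩, rfl⟩ : ∃ z, z = y := ⟨y, rfl⟩
  obtain ⟨h1, h2, h3, h4, h5⟩ := h
  have hcard : d + 2 ≤ (({i, j} : Finset (Fin M))ᶜ).card := by
    rw [Finset.card_compl, Fintype.card_fin]
    have := Finset.card_le_two (a := i) (b := j)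
    omega
  have hne : Nonempty (Fin (d + 2) ↪ {z // z ∈ (({i, j} : Finset (Fin M))ᶜ)}) := by
    apply Function.Embedding.nonempty_of_card_le
    rw [Fintype.card_coe, Fintype.card_fin]
    exact hcard
  obtain ⟨f⟩ := hne
  have hf1 : ∀ c, (f c).1 ≠ i := by
    intro c hc
    have := (f c).2
    rw [Finset.mem_compl] at this
    exact this (by rw [hc]; exact Finset.mem_insert_self _ _)
  have hf2 : ∀ c, (f c).1 ≠ j := by
    intro c hc
    have := (f c).2
    rw [Finset.mem_compl] at this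
    exact this (by rw [hc]; exact Finset.mem_insert_of_mem (Finset.mem_singleton_self _))
  have hf3 : ∀ c c', c ≠ c' → (f c).1 ≠ (f c').1 := fun c c' hc h =>
    hc (f.injective (Subtype.ext h))
  refine ⟨fun c => (some a, (f c).1), ?_, ?_⟩
  · intro c hca hcb
    refine ⟨⟨h1, ?_, ?_, ?_, ?_⟩, ⟨h2, ?_, ?_, ?_, ?_⟩⟩
    · exact fun h => hca (Option.some.inj h).symm
    · exact fun h => hf1 c (congrArg Prod.snd h).symm
    · exact fun h => hca h.symm
    · rintro ⟨-, h, -⟩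
      exact Option.some_ne_none _ h
    · exact fun h => hca (Option.some.inj h).symm
    · exact fun h => hf2 c (congrArg Prod.snd h).symm
    · exact fun h => hcb h.symm
    · rintro ⟨-, h, -⟩
      exact Option.some_ne_none _ h
  · intro c c' hcc hca hcb hca' hcb'
    refine ⟨?_, ?_, ?_, hcc, ?_⟩
    · exact fun h => hca (Option.some.inj h).symm
    · exact fun h => hca' (Option.some.inj h).symm
    · exact fun h => hf3 c c' hcc (congrArg Prod.snd h)
    · rintro ⟨h, -, -⟩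
      exact Option.some_ne_none _ h

theorem instR_mix (d M : ℕ) (x y : (Option (Fin (d + 2)) × Fin M) × Fin (d + 2))
    (h : instR d M x y) : ∃ β γ : Fin (d + 2), β ≠ x.2 ∧ γ ≠ y.2 ∧
    ¬ instR d M x (y.1, γ) ∧ ¬ instR d M (x.1, β) y ∧ ¬ instR d M (x.1, β) (y.1, γ) := by
  obtain ⟨⟨⟨g, i⟩, a⟩, rfl⟩ : ∃ z, z = x := ⟨x, rfl⟩
  obtain ⟨⟨⟨g', j⟩, b⟩, rfl⟩ : ∃ z, z = y := ⟨y, rfl⟩
  obtain ⟨h1, h2, h3, h4, h5⟩ := h
  cases g with
  | none =>
    cases g' with
    | none =>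
      rcases lt_trichotomy i j with hij | hij | hij
      · have ha : a ≠ Fin.last (d + 1) := fun h => h5 ⟨rfl, rfl, Or.inl ⟨hij, h⟩⟩
        exact ⟨Fin.last (d + 1), a, ha.symm, h4, fun h => h.2.2.2.1 rfl,
          fun h => h.2.2.2.2 ⟨rfl, rfl, Or.inl ⟨hij, rfl⟩⟩,
          fun h => h.2.2.2.2 ⟨rfl, rfl, Or.inl ⟨hij, rfl⟩⟩⟩
      · exact absurd (by rw [hij]) h3
      · have hb : b ≠ Fin.last (d + 1) := fun h => h5 ⟨rfl, rfl, Or.inr ⟨hij, h⟩⟩
        exact ⟨b, Fin.last (d + 1), h4.symm, hb.symm,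
          fun h => h.2.2.2.2 ⟨rfl, rfl, Or.inr ⟨hij, rfl⟩⟩, fun h => h.2.2.2.1 rfl,
          fun h => h.2.2.2.2 ⟨rfl, rfl, Or.inr ⟨hij, rfl⟩⟩⟩
    | some o =>
      exact ⟨b, o, h4.symm, fun h => h2 (congrArg some h), fun h => h.2.1 rfl,
        fun h => h.2.2.2.1 rfl, fun h => h.2.1 rfl⟩
  | some o =>
    cases g' with
    | none =>
      exact ⟨o, a, fun h => h1 (congrArg some h), h4, fun h => h.2.2.2.1 rfl,
        fun h => h.1 rfl, fun h => h.1 rfl⟩
    | some o' =>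
      exact ⟨o, o', fun h => h1 (congrArg some h), fun h => h2 (congrArg some h),
        fun h => h.2.1 rfl, fun h => h.1 rfl, fun h => h.1 rfl⟩

/-- The class system. -/
def inst (d M : ℕ) (hM : d + 4 ≤ M) : Sys (d + 2) (Option (Fin (d + 2)) × Fin M) where
  A g a := g.1 ≠ some a
  R := instR d M
  symm := by
    rintro x y ⟨h1, h2, h3, h4, h5⟩
    exact ⟨h2, h1, h3.symm, h4.symm, fun ⟨h6, h7, h8⟩ => h5 ⟨h7, h6, h8.symm⟩⟩
  node := fun _ _ h => h.1
  cls := fun _ _ h => h.2.2.1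
  col := fun _ _ h => h.2.2.2.1
  clique := instR_clique d M hM
  mix := instR_mix d M

end Pool.Agent.FC14
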