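import Pool.Agent.FC14.Exist

/-!
Lower bounds for all `k ≥ 7`: with `w = (k - 2) / 2` for even `k` and `w = (3 k - 8) / 6` for odd
`k`, for every large `n` there is a `k`-critical graph on exactly `n` vertices with at least
`((1 - 1 / w) / 2 - o(1)) n^2` edges.

The construction: the join of graphs obtained from critical graphs (long odd cycles, and for odd `k` also
one dense 4-critical graph) by deleting one edge each, closed by one gadget of bounded size which can be
coloured if and only if at least two of the deleted edges have ends of different colours.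
-/

set_option autoImplicit false

namespace Pool.Agent.FC14.LargeKOld

theorem result (k : ℕ) (hk : 7 ≤ k) : ∀ ε : ℝ, 0 < ε → ∃ n₀ : ℕ, ∀ n : ℕ, n₀ ≤ n →
    ∃ G : SimpleGraph (Fin n), G.chromaticNumber = (k : ℕ∞) ∧
      (∀ e ∈ G.edgeSet, (G.deleteEdges {e}).chromaticNumber < (k : ℕ∞)) ∧
      (∀ v : Fin n, (G.induce ({v}ᶜ : Set (Fin n))).chromaticNumber < (k : ℕ∞)) ∧
      ((1 - 1 / (if Even k then ((k : ℝ) - 2) / 2 else (3 * (k : ℝ) - 8) / 6)) / 2 - ε) *
        (n : ℝ) ^ 2 ≤ (Nat.card G.edgeSet : ℝ) := by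
  rcases Nat.even_or_odd k with h | h
  · rw [if_pos h]
    obtain ⟨t, ht⟩ := h
    obtain ⟨t, rfl⟩ : ∃ s, t = s + 1 := ⟨t - 1, by omega⟩
    obtain rfl : k = 2 * t + 2 := by omega
    have ht2 : 2 ≤ t := by omega
    have h1 := FC14.exists_of_F_bound (2 * t + 1) (by omega) _ (FC14.even t ht2)
    have h2 : ((t : ℝ) - 1) / (2 * t) = (1 - 1 / ((((2 * t + 2 : ℕ) : ℝ) - 2) / 2)) / 2 := by
      have h3 : (0 : ℝ) < t := by
        have : 0 < t := by omega
        exact_mod_cast this
      have h4 : (((2 * t + 2 : ℕ) : ℝ) - 2) / 2 = t := by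
        push_cast
        ring
      rw [h4]
      field_simp
    rw [h2] at h1
    exact h1
  · rw [if_neg (Nat.not_even_iff_odd.2 h)]
    obtain ⟨s, hs⟩ := h
    obtain ⟨t, rfl⟩ : ∃ t, s = t + 2 := ⟨s - 2, by omega⟩
    obtain rfl : k = 2 * t + 5 := by omega
    have ht1 : 1 ≤ t := by omega
    have h1 := FC14.exists_of_F_bound (2 * t + 4) (by omega) _ (FC14.odd t ht1)
    have h2 : (6 * (t : ℝ) + 1) / (2 * (6 * t + 7)) =
        (1 - 1 / ((3 * ((2 * t + 5 : ℕ) : ℝ) - 8) / 6)) / 2 := by
      have h3 : (0 : ℝ) < 6 * t + 7 := by positivity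
      have h4 : (3 * ((2 * t + 5 : ℕ) : ℝ) - 8) / 6 = (6 * t + 7) / 6 := by
        push_cast
        ring
      rw [h4]
      field_simp
      ring
    rw [h2] at h1
    exact h1

end Pool.Agent.FC14.LargeKOld
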