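import Pool.Agent.FC14.LocDefs

/-!
# The certificate is sound

Paper proof of `local_sound`. Let `α = φ A`, `β = φ B`; by the certificate the colours of the `H l`, `α`, `β`, `a` are all the
`d + 3` colours. If all `S r` have colour `a` then the path `U` avoids `a` and the hub colours, so it
alternates between `α` and `β` and its ends get the same colour (`p` odd), contradiction. So some
`S r` has a colour `≠ a`; it is not a hub colour and `≠ β`, so it is `α`. Similarly some `T c` has colour `β`.
`Y r c` avoids `α`, `β` and the hub colours, so it has colour `a`.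
-/

set_option autoImplicit false

namespace Pool.Agent.FC14

/-- a path of odd order, coloured alternately by two colours, has ends of the same colour -/
private lemma loca_alt {γ : Type*} {s : ℕ} (g : Fin (2 * s + 1) → γ) {α β : γ}
    (h2 : ∀ i, g i = α ∨ g i = β)
    (hne : ∀ i j : Fin (2 * s + 1), i.val + 1 = j.val → g i ≠ g j) :
    g 0 = g (Fin.last (2 * s)) := by
  have key : ∀ n : ℕ, ∀ hn : n < 2 * s + 1,
      (n % 2 = 0 → g ⟨n, hn⟩ = g 0) ∧ (n % 2 = 1 → g ⟨n, hn⟩ ≠ g 0) := by
    intro n
    induction n with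
    | zero => exact fun hn => ⟨fun _ => rfl, fun h => absurd h (by norm_num)⟩
    | succ n ih =>
      intro hn
      have ih' := ih (by omega)
      have hstep : g ⟨n, by omega⟩ ≠ g ⟨n + 1, hn⟩ := hne _ _ rfl
      constructor
      · intro hmod
        have h1 := ih'.2 (by omega)
        have a1 := h2 0
        have a2 := h2 ⟨n, by omega⟩
        have a3 := h2 ⟨n + 1, hn⟩
        rcases a1 with a1 | a1 <;> rcases a2 with a2 | a2 <;> rcases a3 with a3 | a3 <;>
          rw [a1, a2] at h1 <;> rw [a2, a3] at hstep <;> rw [a1, a3] <;>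
          first
            | exact absurd rfl h1
            | exact absurd rfl hstep
      · intro hmod
        have h1 := ih'.1 (by omega)
        rw [← h1]
        exact hstep.symm
  exact ((key (2 * s) (by omega)).1 (by omega)).symm

theorem local_sound {d s : ℕ} (φ : Aux d s → Fin (d + 3))
    (hφ : ∀ u v, auxRel u v → φ u ≠ φ v) (a : Fin (d + 3)) (h : Cert (fun t => φ (emb t)) a) :
    ∃ r c, φ (.Y r c) = a := by
  obtain ⟨hinj, hU, hW⟩ := h
  have hsurj : ∀ x : Fin (d + 3), (∃ l, φ (.H l) = x) ∨ φ .A = x ∨ φ .B = x ∨ a = x := by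
    intro x
    have hbij := (Fintype.bijective_iff_injective_and_card _).2
      ⟨hinj, by simp only [Fintype.card_sum, Fintype.card_fin]⟩
    obtain ⟨y, hy⟩ := hbij.2 x
    rcases y with l | y
    · exact Or.inl ⟨l, hy⟩
    · change (![φ .A, φ .B, a] : Fin 3 → Fin (d + 3)) y = x at hy
      fin_cases y
      · exact Or.inr (Or.inl hy)
      · exact Or.inr (Or.inr (Or.inl hy))
      · exact Or.inr (Or.inr (Or.inr hy))
  have hU' : φ (.U 0) ≠ φ (.U (Fin.last (2 * s))) := hU
  have hW' : φ (.W 0) ≠ φ (.W (Fin.last (2 * s))) := hW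
  -- some `S r` has the colour of `A`
  have hS : ∃ r, φ (.S r) = φ .A := by
    by_contra hno
    push Not at hno
    have hSa : ∀ r, φ (.S r) = a := by
      intro r
      rcases hsurj (φ (.S r)) with ⟨l, hl⟩ | hl | hl | hl
      · exact absurd hl.symm (hφ (.S r) (.H l) trivial)
      · exact absurd hl.symm (hno r)
      · exact absurd hl.symm (hφ (.S r) .B trivial)
      · exact hl.symm
    refine hU' (loca_alt (fun i => φ (.U i)) (α := φ .A) (β := φ .B) ?_ ?_)
    · intro i
      rcases hsurj (φ (.U i)) with ⟨l, hl⟩ | hl | hl | hl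
      · exact absurd hl.symm (hφ (.U i) (.H l) trivial)
      · exact Or.inl hl.symm
      · exact Or.inr hl.symm
      · exact absurd ((hSa i).trans hl) (hφ (.S i) (.U i) rfl)
    · intro i j hij
      exact hφ (.U i) (.U j) hij
  have hT : ∃ c, φ (.T c) = φ .B := by
    by_contra hno
    push Not at hno
    have hTa : ∀ r, φ (.T r) = a := by
      intro r
      rcases hsurj (φ (.T r)) with ⟨l, hl⟩ | hl | hl | hl
      · exact absurd hl.symm (hφ (.T r) (.H l) trivial)
      · exact absurd hl.symm (hφ (.T r) .A trivial)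
      · exact absurd hl.symm (hno r)
      · exact hl.symm
    refine hW' (loca_alt (fun i => φ (.W i)) (α := φ .A) (β := φ .B) ?_ ?_)
    · intro i
      rcases hsurj (φ (.W i)) with ⟨l, hl⟩ | hl | hl | hl
      · exact absurd hl.symm (hφ (.W i) (.H l) trivial)
      · exact Or.inl hl.symm
      · exact Or.inr hl.symm
      · exact absurd ((hTa i).trans hl) (hφ (.T i) (.W i) rfl)
    · intro i j hij
      exact hφ (.W i) (.W j) hij
  obtain ⟨r, hr⟩ := hS
  obtain ⟨c, hc⟩ := hT
  refine ⟨r, c, ?_⟩
  rcases hsurj (φ (.Y r c)) with ⟨l, hl⟩ | hl | hl | hl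
  · exact absurd hl.symm (hφ (.Y r c) (.H l) trivial)
  · exact absurd (hl.symm.trans hr.symm) (hφ (.Y r c) (.S r) rfl)
  · exact absurd (hl.symm.trans hc.symm) (hφ (.Y r c) (.T c) rfl)
  · exact hl.symm

end Pool.Agent.FC14
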