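import Pool.Agent.FC14.LocDefs

/-!
# Colourings of the overhead of one class

Paper proofs.
* `exists_path`: `f i = (i odd)` for `i < r`, `f i = (i even)` for `i > r` (the last index `2 s` is even).
* `local_complete`. `Y r c = a`, `Y r c' = β`, other `Y = α`; `S r = α`, other `S = a`; `T c = β`, other
  `T = a`; `U r = a`, other `U` alternate in `{α, β}` by `exists_path` (`false` is `α`, `true` is `β`), `W c = a`, other `W`
  alternate; the hubs get all colours other than `a, α, β` (bijectively), `A = α`, `B = β`.
* `local_default`. Let `α, x, y` be distinct colours; `Y = α`, `S = T = x`, `U`, `W` alternate between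
  `α` and `y`; if `d ≥ 1` there is a fourth colour for all `H`; `A = B = α`.
-/

set_option autoImplicit false

namespace Pool.Agent.FC14

theorem exists_path (s : ℕ) (r : Fin (2 * s + 1)) :
    ∃ f : Fin (2 * s + 1) → Bool,
      (∀ i j : Fin (2 * s + 1), i.val + 1 = j.val → i ≠ r → j ≠ r → f i ≠ f j) ∧
      (r ≠ 0 → f 0 = false) ∧ (r ≠ Fin.last (2 * s) → f (Fin.last (2 * s)) = true) := by
  refine ⟨fun i => if i.val < r.val then decide (i.val % 2 = 1) else decide (i.val % 2 = 0),
    ?_, ?_, ?_⟩
  · intro i j hij hi hj
    have hi' : i.val ≠ r.val := fun h => hi (Fin.ext h)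
    have hj' : j.val ≠ r.val := fun h => hj (Fin.ext h)
    have hiff : i.val < r.val ↔ j.val < r.val := by omega
    simp only [hiff]
    by_cases h : j.val < r.val
    · simp only [h, if_true, ne_eq, decide_eq_decide]
      omega
    · simp only [h, if_false, ne_eq, decide_eq_decide]
      omega
  · intro hr
    have : (0 : Fin (2 * s + 1)).val < r.val := by
      have h1 : r.val ≠ 0 := fun h => hr (Fin.ext h)
      have h2 : (0 : Fin (2 * s + 1)).val = 0 := rfl
      omega
    refine (if_pos this).trans ?_
    simp
  · intro hr
    have h1 : ¬ (Fin.last (2 * s)).val < r.val := by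
      have := r.isLt
      rw [Fin.val_last]
      omega
    refine (if_neg h1).trans ?_
    rw [Fin.val_last]
    simp

/-- alternate colours along a path, given the exceptional vertex -/
private def locbPath {d s : ℕ} (a α β : Fin (d + 3)) (r : Fin (2 * s + 1))
    (f : Fin (2 * s + 1) → Bool) (i : Fin (2 * s + 1)) : Fin (d + 3) :=
  if i = r then a else if f i then β else α

private lemma locbPath_mem {d s : ℕ} (a α β : Fin (d + 3)) (r : Fin (2 * s + 1))
    (f : Fin (2 * s + 1) → Bool) (i : Fin (2 * s + 1)) :
    locbPath a α β r f i = a ∨ locbPath a α β r f i = β ∨ locbPath a α β r f i = α := by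
  unfold locbPath
  split_ifs <;> simp

private lemma locbPath_ne {d s : ℕ} {a α β : Fin (d + 3)} (h1 : a ≠ α) (h2 : a ≠ β)
    (h3 : α ≠ β) {r : Fin (2 * s + 1)} {f : Fin (2 * s + 1) → Bool}
    (hf : ∀ i j : Fin (2 * s + 1), i.val + 1 = j.val → i ≠ r → j ≠ r → f i ≠ f j)
    {i j : Fin (2 * s + 1)} (hij : i.val + 1 = j.val) :
    locbPath a α β r f i ≠ locbPath a α β r f j := by
  unfold locbPath
  by_cases hi : i = r
  · have hj : j ≠ r := by
      intro h
      rw [hi, h] at hij
      omega
    rw [if_pos hi, if_neg hj]
    split_ifs
    · exact h2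
    · exact h1
  · by_cases hj : j = r
    · rw [if_pos hj, if_neg hi]
      split_ifs
      · exact h2.symm
      · exact h1.symm
    · rw [if_neg hi, if_neg hj]
      have := hf i j hij hi hj
      cases h4 : f i <;> cases h5 : f j <;> simp_all [h3.symm]

private lemma locbPath_off {d s : ℕ} {a α β : Fin (d + 3)} (h1 : a ≠ α) (h2 : a ≠ β)
    {r : Fin (2 * s + 1)} {f : Fin (2 * s + 1) → Bool}
    {i : Fin (2 * s + 1)} (hi : i ≠ r) : a ≠ locbPath a α β r f i := by
  unfold locbPath
  rw [if_neg hi]
  split_ifs
  · exact h2
  · exact h1

private lemma locbPath_ends {d s : ℕ} (hs : 1 ≤ s) {a α β : Fin (d + 3)} (h1 : a ≠ α)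
    (h2 : a ≠ β) (h3 : α ≠ β) {r : Fin (2 * s + 1)} {f : Fin (2 * s + 1) → Bool}
    (hf0 : r ≠ 0 → f 0 = false) (hf1 : r ≠ Fin.last (2 * s) → f (Fin.last (2 * s)) = true) :
    locbPath a α β r f 0 ≠ locbPath a α β r f (Fin.last (2 * s)) := by
  have h0 : (0 : Fin (2 * s + 1)) ≠ Fin.last (2 * s) := by
    intro h
    have h4 := congrArg Fin.val h
    rw [Fin.val_last] at h4
    have h5 : (0 : Fin (2 * s + 1)).val = 0 := rfl
    omega
  unfold locbPath
  by_cases hr0 : r = 0
  · have hrl : r ≠ Fin.last (2 * s) := by rw [hr0]; exact h0
    rw [if_pos hr0.symm, if_neg (Ne.symm hrl), hf1 hrl]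
    simpa using h2
  · by_cases hrl : r = Fin.last (2 * s)
    · rw [if_pos hrl.symm, if_neg (Ne.symm hr0), hf0 hr0]
      simpa using h1.symm
    · rw [if_neg (Ne.symm hr0), if_neg (Ne.symm hrl), hf0 hr0, hf1 hrl]
      simpa using h3

/-- the colouring of `local_complete` -/
private def locbCol {d s : ℕ} (a α β : Fin (d + 3)) (r c : Fin (2 * s + 1))
    (f g : Fin (2 * s + 1) → Bool) (h : Fin d → Fin (d + 3)) : Aux d s → Fin (d + 3)
  | .Y r' c' => if r' = r then (if c' = c then a else β) else α
  | .S r' => if r' = r then α else a
  | .T c' => if c' = c then β else a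
  | .U i => locbPath a α β r f i
  | .W i => locbPath a α β c g i
  | .H l => h l
  | .A => α
  | .B => β

theorem local_complete {d s : ℕ} (hs : 1 ≤ s) (a α β : Fin (d + 3)) (h1 : a ≠ α) (h2 : a ≠ β)
    (h3 : α ≠ β) (r c : Fin (2 * s + 1)) :
    ∃ φ : Aux d s → Fin (d + 3), (∀ u v, auxRel u v → φ u ≠ φ v) ∧
      Cert (fun t => φ (emb t)) a ∧ φ (.Y r c) = a ∧ (∀ c', c' ≠ c → φ (.Y r c') = β) ∧
      (∀ r' c', r' ≠ r → φ (.Y r' c') = α) := by
  obtain ⟨f, hf, hf0, hf1⟩ := exists_path s r
  obtain ⟨g, hg, hg0, hg1⟩ := exists_path s c
  have hcard : (({a, α, β} : Finset (Fin (d + 3)))ᶜ).card = d := by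
    rw [Finset.card_compl, Fintype.card_fin]
    have : ({a, α, β} : Finset (Fin (d + 3))).card = 3 := by
      rw [Finset.card_eq_three]
      exact ⟨a, α, β, h1, h2, h3, rfl⟩
    omega
  have hmem : ∀ l, (({a, α, β} : Finset (Fin (d + 3)))ᶜ).orderEmbOfFin hcard l ≠ a ∧
      (({a, α, β} : Finset (Fin (d + 3)))ᶜ).orderEmbOfFin hcard l ≠ α ∧
      (({a, α, β} : Finset (Fin (d + 3)))ᶜ).orderEmbOfFin hcard l ≠ β := by
    intro l
    have h4 := Finset.orderEmbOfFin_mem (({a, α, β} : Finset (Fin (d + 3)))ᶜ) hcard l
    simp only [Finset.mem_compl, Finset.mem_insert, Finset.mem_singleton, not_or] at h4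
    exact h4
  have hinj : Function.Injective (fun l =>
      (({a, α, β} : Finset (Fin (d + 3)))ᶜ).orderEmbOfFin hcard l) :=
    ((({a, α, β} : Finset (Fin (d + 3)))ᶜ).orderEmbOfFin hcard).injective
  obtain ⟨h, hh, hmem'⟩ : ∃ h : Fin d → Fin (d + 3), Function.Injective h ∧
      ∀ l, h l ≠ a ∧ h l ≠ α ∧ h l ≠ β := ⟨_, hinj, hmem⟩
  refine ⟨locbCol a α β r c f g h, ?_, ?_, ?_, ?_, ?_⟩
  · intro u v huv
    cases u with
    | Y r' c' =>
      cases v with
      | S r'' =>
        have e : r' = r'' := huv
        subst e
        show (if r' = r then (if c' = c then a else β) else α) ≠ (if r' = r then α else a)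
        split_ifs
        · exact h1
        · exact h3.symm
        · exact h1.symm
      | T c'' =>
        have e : c' = c'' := huv
        subst e
        show (if r' = r then (if c' = c then a else β) else α) ≠ (if c' = c then β else a)
        split_ifs
        · exact h2
        · exact h2.symm
        · exact h3
        · exact h1.symm
      | H l =>
        show (if r' = r then (if c' = c then a else β) else α) ≠ h l
        have := hmem' l
        split_ifs
        · exact this.1.symm
        · exact this.2.2.symm
        · exact this.2.1.symm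
      | _ => exact absurd huv (by simp [auxRel])
    | S r' =>
      cases v with
      | U r'' =>
        have e : r' = r'' := huv
        subst e
        show (if r' = r then α else a) ≠ locbPath a α β r f r'
        by_cases hr : r' = r
        · rw [if_pos hr]
          unfold locbPath
          rw [if_pos hr]
          exact h1.symm
        · rw [if_neg hr]
          exact locbPath_off h1 h2 hr
      | H l =>
        show (if r' = r then α else a) ≠ h l
        have := hmem' l
        split_ifs
        · exact this.2.1.symm
        · exact this.1.symm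
      | B =>
        show (if r' = r then α else a) ≠ β
        split_ifs
        · exact h3
        · exact h2
      | _ => exact absurd huv (by simp [auxRel])
    | T c' =>
      cases v with
      | W c'' =>
        have e : c' = c'' := huv
        subst e
        show (if c' = c then β else a) ≠ locbPath a α β c g c'
        by_cases hr : c' = c
        · rw [if_pos hr]
          unfold locbPath
          rw [if_pos hr]
          exact h2.symm
        · rw [if_neg hr]
          exact locbPath_off h1 h2 hr
      | H l =>
        show (if c' = c then β else a) ≠ h l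
        have := hmem' l
        split_ifs
        · exact this.2.2.symm
        · exact this.1.symm
      | A =>
        show (if c' = c then β else a) ≠ α
        split_ifs
        · exact h3.symm
        · exact h1
      | _ => exact absurd huv (by simp [auxRel])
    | U i =>
      cases v with
      | U j => exact locbPath_ne h1 h2 h3 hf huv
      | H l =>
        show locbPath a α β r f i ≠ h l
        have := hmem' l
        rcases locbPath_mem a α β r f i with e | e | e <;> rw [e]
        · exact this.1.symm
        · exact this.2.2.symm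
        · exact this.2.1.symm
      | _ => exact absurd huv (by simp [auxRel])
    | W i =>
      cases v with
      | W j => exact locbPath_ne h1 h2 h3 hg huv
      | H l =>
        show locbPath a α β c g i ≠ h l
        have := hmem' l
        rcases locbPath_mem a α β c g i with e | e | e <;> rw [e]
        · exact this.1.symm
        · exact this.2.2.symm
        · exact this.2.1.symm
      | _ => exact absurd huv (by simp [auxRel])
    | H l => cases v <;> exact absurd huv (by simp [auxRel])
    | A => cases v <;> exact absurd huv (by simp [auxRel])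
    | B => cases v <;> exact absurd huv (by simp [auxRel])
  · refine ⟨?_, ?_, ?_⟩
    · refine Function.Injective.sumElim (fun x y hxy => hh hxy) ?_ ?_
      · intro x y hxy
        change (![α, β, a] : Fin 3 → Fin (d + 3)) x = (![α, β, a] : Fin 3 → Fin (d + 3)) y at hxy
        fin_cases x <;> fin_cases y <;> simp_all
      · intro l x
        change h l ≠ (![α, β, a] : Fin 3 → Fin (d + 3)) x
        have := hmem' l
        fin_cases x
        · exact this.2.1
        · exact this.2.2
        · exact this.1
    · exact locbPath_ends hs h1 h2 h3 hf0 hf1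
    · exact locbPath_ends hs h1 h2 h3 hg0 hg1
  · show (if r = r then (if c = c then a else β) else α) = a
    rw [if_pos rfl, if_pos rfl]
  · intro c' hc'
    show (if r = r then (if c' = c then a else β) else α) = β
    rw [if_pos rfl, if_neg hc']
  · intro r' c' hr'
    show (if r' = r then (if c' = c then a else β) else α) = α
    rw [if_neg hr']

/-- the colouring of `local_default` -/
private def locbDef {d s : ℕ} (α x y : Fin (d + 3)) (h : Fin d → Fin (d + 3)) :
    Aux d s → Fin (d + 3)
  | .Y _ _ => α
  | .S _ => x
  | .T _ => x
  | .U i => if i.val % 2 = 0 then α else y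
  | .W i => if i.val % 2 = 0 then α else y
  | .H l => h l
  | .A => α
  | .B => α

theorem local_default {d s : ℕ} (α : Fin (d + 3)) :
    ∃ φ : Aux d s → Fin (d + 3), (∀ u v, auxRel u v → φ u ≠ φ v) ∧ ∀ r c, φ (.Y r c) = α := by
  have hcard : (({α} : Finset (Fin (d + 3)))ᶜ).card = d + 2 := by
    rw [Finset.card_compl, Fintype.card_fin, Finset.card_singleton]
    omega
  have hmem : ∀ l, (({α} : Finset (Fin (d + 3)))ᶜ).orderEmbOfFin hcard l ≠ α := by
    intro l
    have h4 := Finset.orderEmbOfFin_mem (({α} : Finset (Fin (d + 3)))ᶜ) hcard l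
    simpa only [Finset.mem_compl, Finset.mem_singleton] using h4
  have hinj := ((({α} : Finset (Fin (d + 3)))ᶜ).orderEmbOfFin hcard).injective
  obtain ⟨e, he, hm⟩ : ∃ e : Fin (d + 2) → Fin (d + 3), Function.Injective e ∧
      ∀ l, e l ≠ α := ⟨_, hinj, hmem⟩
  have hxy : e 0 ≠ e 1 := fun h => by
    have := congrArg Fin.val (he h)
    simp at this
  have hx : ∀ l : Fin d, e 0 ≠ e ⟨l.val + 2, by omega⟩ := fun l h => by
    have := congrArg Fin.val (he h)
    simp at this
  have hy : ∀ l : Fin d, e 1 ≠ e ⟨l.val + 2, by omega⟩ := fun l h => by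
    have := congrArg Fin.val (he h)
    simp at this
  have hpath : ∀ i j : Fin (2 * s + 1), i.val + 1 = j.val →
      (if i.val % 2 = 0 then α else e 1) ≠ (if j.val % 2 = 0 then α else e 1) := by
    intro i j hij
    by_cases hi : i.val % 2 = 0
    · have hj : ¬ j.val % 2 = 0 := by omega
      rw [if_pos hi, if_neg hj]
      exact (hm 1).symm
    · have hj : j.val % 2 = 0 := by omega
      rw [if_neg hi, if_pos hj]
      exact hm 1
  refine ⟨locbDef α (e 0) (e 1) (fun l => e ⟨l.val + 2, by omega⟩), ?_, fun _ _ => rfl⟩
  intro u v huv
  cases u with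
  | Y r' c' =>
    cases v with
    | S r'' => exact (hm 0).symm
    | T c'' => exact (hm 0).symm
    | H l => exact (hm _).symm
    | _ => exact absurd huv (by simp [auxRel])
  | S r' =>
    cases v with
    | U r'' =>
      show e 0 ≠ (if r''.val % 2 = 0 then α else e 1)
      split_ifs
      · exact hm 0
      · exact hxy
    | H l => exact hx l
    | B => exact hm 0
    | _ => exact absurd huv (by simp [auxRel])
  | T c' =>
    cases v with
    | W r'' =>
      show e 0 ≠ (if r''.val % 2 = 0 then α else e 1)
      split_ifs
      · exact hm 0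
      · exact hxy
    | H l => exact hx l
    | A => exact hm 0
    | _ => exact absurd huv (by simp [auxRel])
  | U i =>
    cases v with
    | U j => exact hpath i j huv
    | H l =>
      show (if i.val % 2 = 0 then α else e 1) ≠ e ⟨l.val + 2, by omega⟩
      split_ifs
      · exact (hm _).symm
      · exact hy l
    | _ => exact absurd huv (by simp [auxRel])
  | W i =>
    cases v with
    | W j => exact hpath i j huv
    | H l =>
      show (if i.val % 2 = 0 then α else e 1) ≠ e ⟨l.val + 2, by omega⟩
      split_ifs
      · exact (hm _).symm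
      · exact hy l
    | _ => exact absurd huv (by simp [auxRel])
  | H l => cases v <;> exact absurd huv (by simp [auxRel])
  | A => cases v <;> exact absurd huv (by simp [auxRel])
  | B => cases v <;> exact absurd huv (by simp [auxRel])

end Pool.Agent.FC14
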