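import Pool.Agent.FC14.Defs

/-!
# The overhead of one class: definitions

`p = 2 s + 1` is odd. Vertices: a grid `Y r c`, row vertices `S r`, column vertices `T c`, a path `U`, a path
`W`, hubs `H l` (`l < d`), and `A`, `B`. Colours: `Fin (d + 3)`.
For `Finite` and `card_Aux` give an explicit equivalence with a sum type.
-/

set_option autoImplicit false

namespace Pool.Agent.FC14

/-- The overhead vertices of one class. -/
inductive Aux (d s : ℕ) : Type
  | Y : Fin (2 * s + 1) → Fin (2 * s + 1) → Aux d s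
  | S : Fin (2 * s + 1) → Aux d s
  | T : Fin (2 * s + 1) → Aux d s
  | U : Fin (2 * s + 1) → Aux d s
  | W : Fin (2 * s + 1) → Aux d s
  | H : Fin d → Aux d s
  | A : Aux d s
  | B : Aux d s

/-- The edges among the overhead vertices, in one direction. -/
def auxRel {d s : ℕ} : Aux d s → Aux d s → Prop
  | .Y r _, .S r' => r = r'
  | .Y _ c, .T c' => c = c'
  | .S r, .U r' => r = r'
  | .T c, .W c' => c = c'
  | .U r, .U r' => r.val + 1 = r'.val
  | .W c, .W c' => c.val + 1 = c'.val
  | .Y _ _, .H _ => True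
  | .S _, .H _ => True
  | .T _, .H _ => True
  | .U _, .H _ => True
  | .W _, .H _ => True
  | .T _, .A => True
  | .S _, .B => True
  | _, _ => False

/-- The terminals among the overhead vertices. -/
def emb {d s : ℕ} : Fin d ⊕ Fin 6 → Aux d s
  | .inl l => .H l
  | .inr 0 => .A
  | .inr 1 => .B
  | .inr 2 => .U 0
  | .inr 3 => .U (Fin.last (2 * s))
  | .inr 4 => .W 0
  | .inr 5 => .W (Fin.last (2 * s))

/-- The certificate: the colours of the hubs, of `A`, `B` and the colour `a` are different, and both paths have ends of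
different colours. -/
def Cert {d : ℕ} (c : Fin d ⊕ Fin 6 → Fin (d + 3)) (a : Fin (d + 3)) : Prop :=
  Function.Injective (Sum.elim (fun l => c (.inl l)) ![c (.inr 0), c (.inr 1), a] :
    Fin d ⊕ Fin 3 → Fin (d + 3)) ∧
  c (.inr 2) ≠ c (.inr 3) ∧ c (.inr 4) ≠ c (.inr 5)

theorem cert_perm {d : ℕ} (π : Equiv.Perm (Fin (d + 3))) (c : Fin d ⊕ Fin 6 → Fin (d + 3))
    (a : Fin (d + 3)) (h : Cert c a) : Cert (fun t => π (c t)) (π a) := by
  obtain ⟨h1, h2, h3⟩ := h
  refine ⟨?_, fun e => h2 (π.injective e), fun e => h3 (π.injective e)⟩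
  have he : (Sum.elim (fun l => π (c (.inl l))) ![π (c (.inr 0)), π (c (.inr 1)), π a] :
      Fin d ⊕ Fin 3 → Fin (d + 3)) =
      fun x => π ((Sum.elim (fun l => c (.inl l)) ![c (.inr 0), c (.inr 1), a] :
        Fin d ⊕ Fin 3 → Fin (d + 3)) x) := by
    funext x
    rcases x with l | i
    · rfl
    · fin_cases i <;> rfl
  rw [he]
  exact π.injective.comp h1

/-- The overhead vertices as a sum type. -/
def auxEquiv (d s : ℕ) : Aux d s ≃
    (Fin (2 * s + 1) × Fin (2 * s + 1)) ⊕ (Fin 4 × Fin (2 * s + 1)) ⊕ (Fin d ⊕ Fin 2) where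
  toFun
    | .Y r c => .inl (r, c)
    | .S r => .inr (.inl (0, r))
    | .T r => .inr (.inl (1, r))
    | .U r => .inr (.inl (2, r))
    | .W r => .inr (.inl (3, r))
    | .H l => .inr (.inr (.inl l))
    | .A => .inr (.inr (.inr 0))
    | .B => .inr (.inr (.inr 1))
  invFun
    | .inl (r, c) => .Y r c
    | .inr (.inl (0, r)) => .S r
    | .inr (.inl (1, r)) => .T r
    | .inr (.inl (2, r)) => .U r
    | .inr (.inl (3, r)) => .W r
    | .inr (.inr (.inl l)) => .H l
    | .inr (.inr (.inr 0)) => .A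
    | .inr (.inr (.inr 1)) => .B
  left_inv x := by
    cases x <;> rfl
  right_inv x := by
    rcases x with ⟨r, c⟩ | ⟨i, r⟩ | l | i
    · rfl
    · fin_cases i <;> rfl
    · rfl
    · fin_cases i <;> rfl

instance (d s : ℕ) : Finite (Aux d s) :=
  Finite.of_equiv _ (auxEquiv d s).symm

noncomputable instance (d s : ℕ) : Fintype (Aux d s) := Fintype.ofFinite _

theorem card_Aux (d s : ℕ) :
    Fintype.card (Aux d s) = (2 * s + 1) ^ 2 + 4 * (2 * s + 1) + (d + 2) := by
  rw [Fintype.card_congr (auxEquiv d s)]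
  simp only [Fintype.card_sum, Fintype.card_prod, Fintype.card_fin]
  ring

end Pool.Agent.FC14
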