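import Pool.Agent.FC14.Hajos
import Pool.Agent.FC14.Gadget

/-!
# Closing a dense graph by a gadget of bounded size

Paper proof of `master`. Take the gadget `(Y, J)` of `gadget`, put `H` on `V ⊕ Y` with the edges of `D`, an
edge `v y` for `v = τ x`, `J.Adj (inl x) (inr y)`, and the edges of `J` inside `Y`. For a subgraph `D'` of
`D` (on the same vertices) the corresponding graph `H'` is `q`-colourable iff `Accepts q D' τ Acc`; apply this
to `D` and to `D - e` (for `e = s(v, w)`, `H - s(inl v, inl w)` is the graph of `D - e`). Then use `pad`;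
the map `Sym2.map Sum.inl` is injective. `C = card Y + (q + 5)`.
-/

set_option autoImplicit false

namespace Pool.Agent.FC14

open SimpleGraph

variable {V X Y : Type}

/-- The graph `D` closed by the gadget `J`. -/
def closeG (D : SimpleGraph V) (τ : X → V) (J : SimpleGraph (X ⊕ Y)) : SimpleGraph (V ⊕ Y) where
  Adj u v := match u, v with
    | .inl v, .inl w => D.Adj v w
    | .inl v, .inr y => ∃ x, τ x = v ∧ J.Adj (.inl x) (.inr y)
    | .inr y, .inl v => ∃ x, τ x = v ∧ J.Adj (.inl x) (.inr y)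
    | .inr y, .inr z => J.Adj (.inr y) (.inr z)
  symm := ⟨by
    rintro (v | y) (w | z) h
    · exact SimpleGraph.Adj.symm (G := D) h
    · exact h
    · exact h
    · exact SimpleGraph.Adj.symm (G := J) h⟩
  loopless := ⟨by
    rintro (v | y) h
    · exact D.loopless.irrefl v h
    · exact J.loopless.irrefl _ h⟩

theorem closeG_colorable {q : ℕ} (D : SimpleGraph V) (τ : X → V) (J : SimpleGraph (X ⊕ Y))
    (Acc : (X → Fin q) → Prop) (hJ0 : ∀ x x' : X, ¬ J.Adj (Sum.inl x) (Sum.inl x'))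
    (hJ : ∀ c : X → Fin q, Acc c ↔ ∃ φ : J.Coloring (Fin q), ∀ x, φ (Sum.inl x) = c x) :
    (closeG D τ J).Colorable q ↔ Accepts q D τ Acc := by
  constructor
  · rintro ⟨ψ⟩
    refine ⟨Coloring.mk (fun v => ψ (.inl v)) (fun {v w} h => ψ.valid (v := .inl v) (w := .inl w) h),
      ?_⟩
    rw [hJ]
    refine ⟨Coloring.mk (Sum.elim (fun x => ψ (.inl (τ x))) (fun y => ψ (.inr y))) ?_, fun x => rfl⟩
    rintro (x | y) (x' | y') h
    · exact (hJ0 x x' h).elim
    · exact ψ.valid (v := .inl (τ x)) (w := .inr y') ⟨x, rfl, h⟩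
    · exact ψ.valid (v := .inr y) (w := .inl (τ x')) ⟨x', rfl, h.symm⟩
    · exact ψ.valid (v := .inr y) (w := .inr y') h
  · rintro ⟨φ, h⟩
    rw [hJ] at h
    obtain ⟨ψ, h1⟩ := h
    refine ⟨Coloring.mk (Sum.elim (fun v => φ v) (fun y => ψ (.inr y))) ?_⟩
    rintro (v | y) (w | z) h
    · exact φ.valid h
    · obtain ⟨x, rfl, h2⟩ := h
      have h3 := ψ.valid h2
      rw [h1] at h3
      exact h3
    · obtain ⟨x, rfl, h2⟩ := h
      have h3 := ψ.valid h2
      rw [h1] at h3
      exact h3.symm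
    · exact ψ.valid h

theorem closeG_delete (D : SimpleGraph V) (τ : X → V) (J : SimpleGraph (X ⊕ Y)) (v w : V) :
    (closeG D τ J).deleteEdges {s(Sum.inl v, Sum.inl w)} = closeG (D.deleteEdges {s(v, w)}) τ J := by
  ext a b
  rw [deleteEdges_adj]
  rcases a with a | a <;> rcases b with b | b
  · show (D.Adj a b ∧ _) ↔ (D.deleteEdges {s(v, w)}).Adj a b
    rw [deleteEdges_adj]
    simp only [Set.mem_singleton_iff, Sym2.eq_iff, Sum.inl.injEq]
  · show (_ ∧ _) ↔ _
    simp only [Set.mem_singleton_iff, Sym2.eq_iff, Sum.inl.injEq, reduceCtorEq, and_false,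
      or_false, false_and, not_false_iff, and_true]
    rfl
  · show (_ ∧ _) ↔ _
    simp only [Set.mem_singleton_iff, Sym2.eq_iff, Sum.inl.injEq, reduceCtorEq, and_false,
      or_false, false_and, not_false_iff, and_true]
    rfl
  · show (_ ∧ _) ↔ _
    simp only [Set.mem_singleton_iff, Sym2.eq_iff, reduceCtorEq, and_false,
      or_false, false_and, not_false_iff, and_true]
    rfl

theorem master (q : ℕ) (hq : 3 ≤ q) {X : Type} [Finite X] (Acc : (X → Fin q) → Prop)
    (hinv : ∀ (π : Equiv.Perm (Fin q)) (c : X → Fin q), Acc c → Acc (fun x => π (c x))) :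
    ∃ C : ℕ, ∀ (V : Type) [Fintype V] (D : SimpleGraph V) (τ : X → V),
      ¬ Accepts q D τ Acc → ∀ n, Fintype.card V + C ≤ n →
      {e | e ∈ D.edgeSet ∧ Accepts q (D.deleteEdges {e}) τ Acc}.ncard ≤ F (q + 1) n := by
  obtain ⟨Y, hY, J, hJ0, hJ⟩ := gadget hq Acc hinv
  refine ⟨Fintype.card Y + (q + 5), ?_⟩
  intro V _ D τ hD n hn
  have h1 : ¬ (closeG D τ J).Colorable q := by
    rw [closeG_colorable D τ J Acc hJ0 hJ]
    exact hD
  have h2 := pad q hq (closeG D τ J) h1 n (by rw [Fintype.card_sum]; omega)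
  refine le_trans ?_ h2
  refine Set.ncard_le_ncard_of_injOn (Sym2.map Sum.inl) ?_
    (Sym2.map.injective Sum.inl_injective).injOn (Set.toFinite _)
  intro e he
  induction e with
  | h v w =>
    obtain ⟨h3, h4⟩ := he
    rw [Sym2.map_mk]
    refine ⟨?_, ?_⟩
    · rw [mem_edgeSet] at h3 ⊢
      exact h3
    · rw [closeG_delete, closeG_colorable _ τ J Acc hJ0 hJ]
      exact h4

end Pool.Agent.FC14
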