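import Pool.Agent.FC14.SysDefs
import Pool.Agent.FC14.LocA

/-!
# No accepted colouring

Paper proof of `Sys.sound`. An accepted colouring gives adjacent nodes `x`, `y` with certificates. By `local_sound` for the class of
`x` with `a` = the colour of the vertex `(x, (0, 0))` there is `(r, c)` with `Y r c` of colour `a`, so the
vertex `(x, (r, c))` has a different colour: the part `x` has at least two colours; similarly
`y`. With the clique of `S.clique` (vertices `((l c, c), (0, 0))` for the `d` colours `c` other than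
`x.2`, `y.2`) we get `d + 4` vertices of pairwise different colours. Contradiction.
-/

set_option autoImplicit false

namespace Pool.Agent.FC14

open SimpleGraph

variable {d : ℕ} {K : Type}

private lemma auxRel_ne {s : ℕ} (u v : Aux d s) (h : auxRel u v) : u ≠ v := by
  rintro rfl
  cases u <;> simp [auxRel] at h

private lemma adj_aux (S : Sys (d + 2) K) (s : ℕ) (g : K) (u v : Aux d s) (h : auxRel u v) :
    (S.G s).Adj (Sum.inr (g, u)) (Sum.inr (g, v)) := by
  rw [Sys.G, SimpleGraph.fromRel_adj]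
  refine ⟨?_, Or.inl ⟨rfl, h⟩⟩
  intro h'
  apply auxRel_ne u v h
  have h1 := Sum.inr_injective h'
  exact congrArg Prod.snd h1

private lemma adj_nd (S : Sys (d + 2) K) (s : ℕ) (x y : S.Nd) (h : S.R x.1 y.1)
    (t t' : Fin (2 * s + 1) × Fin (2 * s + 1)) :
    (S.G s).Adj (Sum.inl (x, t)) (Sum.inl (y, t')) := by
  rw [Sys.G, SimpleGraph.fromRel_adj]
  refine ⟨?_, Or.inl h⟩
  intro h'
  apply S.cls _ _ h
  have h1 : x = y := congrArg Prod.fst (Sum.inl_injective h')
  rw [h1]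

private lemma adj_Y (S : Sys (d + 2) K) (s : ℕ) (x : S.Nd)
    (t : Fin (2 * s + 1) × Fin (2 * s + 1)) :
    (S.G s).Adj (Sum.inl (x, t)) (Sum.inr (x.1.1, Aux.Y t.1 t.2)) := by
  rw [Sys.G, SimpleGraph.fromRel_adj]
  exact ⟨Sum.inl_ne_inr, Or.inl ⟨rfl, rfl⟩⟩

private lemma two_colours (S : Sys (d + 2) K) (s : ℕ) (φ : (S.G s).Coloring (Fin (d + 3)))
    (x : S.Nd)
    (h : Cert (fun t => φ (S.τ s (.inr (x.1.1, t)))) (φ (S.τ s (.inl x)))) :
    ∃ t, φ (Sum.inl (x, t)) ≠ φ (Sum.inl (x, (0, 0))) := by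
  obtain ⟨r, c, hrc⟩ := local_sound (fun u => φ (Sum.inr (x.1.1, u)))
    (fun u v huv => φ.valid (adj_aux S s x.1.1 u v huv)) (φ (Sum.inl (x, (0, 0)))) h
  refine ⟨(r, c), fun h' => ?_⟩
  have := φ.valid (adj_Y S s x (r, c))
  apply this
  rw [h']
  exact hrc.symm

theorem Sys.sound (S : Sys (d + 2) K) (s : ℕ) : ¬ Accepts (d + 3) (S.G s) (S.τ s) S.Acc := by
  classical
  rintro ⟨φ, x, y, hR, hx, hy⟩
  obtain ⟨t, ht⟩ := two_colours S s φ x hx
  obtain ⟨t', ht'⟩ := two_colours S s φ y hy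
  obtain ⟨l, hl1, hl2⟩ := S.clique _ _ hR
  have hnode : ∀ c, c ≠ x.1.2 → c ≠ y.1.2 → S.A (l c) c := fun c h1 h2 =>
    S.node (l c, c) x.1 (S.symm _ _ (hl1 c h1 h2).1)
  let z : {c : Fin (d + 2) // c ≠ x.1.2 ∧ c ≠ y.1.2} → S.Nd := fun c =>
    ⟨(l c.1, c.1), hnode c.1 c.2.1 c.2.2⟩
  let f : Fin 4 ⊕ {c : Fin (d + 2) // c ≠ x.1.2 ∧ c ≠ y.1.2} → Fin (d + 3) :=
    Sum.elim ![φ (Sum.inl (x, (0, 0))), φ (Sum.inl (x, t)), φ (Sum.inl (y, (0, 0))),
      φ (Sum.inl (y, t'))] (fun c => φ (Sum.inl (z c, (0, 0))))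
  have hxy : ∀ t t', φ (Sum.inl (x, t)) ≠ φ (Sum.inl (y, t')) := fun t t' =>
    φ.valid (adj_nd S s x y hR t t')
  have hxz : ∀ t c, φ (Sum.inl (x, t)) ≠ φ (Sum.inl (z c, (0, 0))) := fun t c =>
    φ.valid (adj_nd S s x (z c) (hl1 c.1 c.2.1 c.2.2).1 t (0, 0))
  have hyz : ∀ t c, φ (Sum.inl (y, t)) ≠ φ (Sum.inl (z c, (0, 0))) := fun t c =>
    φ.valid (adj_nd S s y (z c) (hl1 c.1 c.2.1 c.2.2).2 t (0, 0))
  have hzz : ∀ c c', c ≠ c' → φ (Sum.inl (z c, (0, 0))) ≠ φ (Sum.inl (z c', (0, 0))) := by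
    intro c c' hne
    exact φ.valid (adj_nd S s (z c) (z c')
      (hl2 c.1 c'.1 (fun h => hne (Subtype.ext h)) c.2.1 c.2.2 c'.2.1 c'.2.2) _ _)
  have hf4 : ∀ (i : Fin 4) c, f (Sum.inl i) ≠ f (Sum.inr c) := by
    intro i c
    fin_cases i
    · exact hxz _ c
    · exact hxz _ c
    · exact hyz _ c
    · exact hyz _ c
  have hf : Function.Injective f := by
    rintro (i | c) (j | c') h
    · congr 1
      fin_cases i <;> fin_cases j <;> first
        | rfl
        | exact absurd h ht'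
        | exact absurd h ht
        | exact absurd h ht'.symm
        | exact absurd h ht.symm
        | exact absurd h (hxy _ _)
        | exact absurd h (hxy _ _).symm
    · exact absurd h (hf4 i c')
    · exact absurd h.symm (hf4 j c)
    · by_contra hne
      exact hzz c c' (fun h' => hne (by rw [h'])) h
  have hcard := Fintype.card_le_of_injective f hf
  rw [Fintype.card_sum, Fintype.card_fin, Fintype.card_fin] at hcard
  have h2 : d ≤ Fintype.card {c : Fin (d + 2) // c ≠ x.1.2 ∧ c ≠ y.1.2} := by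
    rw [Fintype.card_subtype]
    have h3 : (Finset.univ.filter (fun c : Fin (d + 2) => c ≠ x.1.2 ∧ c ≠ y.1.2)) =
        (Finset.univ \ {x.1.2, y.1.2}) := by
      ext c
      simp
    rw [h3, Finset.card_sdiff_of_subset (Finset.subset_univ _), Finset.card_univ,
      Fintype.card_fin]
    have h4 : ({x.1.2, y.1.2} : Finset (Fin (d + 2))).card ≤ 2 := Finset.card_le_two
    omega
  omega

end Pool.Agent.FC14
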