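import Pool.Agent.FC14.SysDefs
import Pool.Agent.FC14.LocB

/-!
# Accepted colourings after deleting a cross edge

Paper proof of `Sys.complete`. For adjacent nodes `x = (g, a)`, `y = (h, b)` and `i = (r, c)`, `j = (r', c')`, both `≠ (0, 0)`, take
`β ≠ a`, `γ ≠ b` from `S.mix`. Write `*` for the colour `Fin.last`.
Class `g`: overhead from `local_complete` with `a`, `α = *`, `β`, `(r, c)`; vertex `(x, i) = *`, the other vertices of
`x` get `a`; the node `(g, β)` (if present) gets `*` at the `(r, c'')`, `c'' ≠ c`, and `β` elsewhere;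
the nodes `(g, e)`, `e ≠ a, β` get `e`. Class `h`: the same with `b`, `γ`, `(r', c')`. Other classes: overhead from `local_default`
with `*`, node `(l, e)` gets `e`.
-/

set_option autoImplicit false

namespace Pool.Agent.FC14

open SimpleGraph

variable {d : ℕ} {K : Type}

/-- the positions with the exceptional colour in the node of colour `e` of a class -/
private def exc {d s : ℕ} (a β : Fin (d + 2)) (i : Fin (2 * s + 1) × Fin (2 * s + 1))
    (e : Fin (d + 2)) (t : Fin (2 * s + 1) × Fin (2 * s + 1)) : Prop :=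
  (e = a ∧ t = i) ∨ (e = β ∧ t.1 = i.1 ∧ t.2 ≠ i.2)

private theorem class_aux {d s : ℕ} (hs : 1 ≤ s) (a β : Fin (d + 2)) (hβ : β ≠ a)
    (i : Fin (2 * s + 1) × Fin (2 * s + 1)) :
    ∃ ψ : Aux d s → Fin (d + 3), (∀ u v, auxRel u v → ψ u ≠ ψ v) ∧
      Cert (fun t => ψ (emb t)) a.castSucc ∧
      ∀ (e : Fin (d + 2)) (t : Fin (2 * s + 1) × Fin (2 * s + 1)),
        (exc a β i e t → Fin.last (d + 2) ≠ ψ (.Y t.1 t.2)) ∧
        (¬ exc a β i e t → e.castSucc ≠ ψ (.Y t.1 t.2)) := by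
  have hlast : ∀ e : Fin (d + 2), e.castSucc ≠ Fin.last (d + 2) := fun e => (Fin.castSucc_lt_last e).ne
  have hinj : ∀ e f : Fin (d + 2), e.castSucc = f.castSucc → e = f :=
    fun e f h => Fin.castSucc_injective _ h
  obtain ⟨ψ, h1, h2, h3, h4, h5⟩ := local_complete (d := d) (s := s) hs a.castSucc
    (Fin.last (d + 2)) β.castSucc (hlast a) (fun h => hβ (hinj _ _ h).symm) (hlast β).symm i.1 i.2
  refine ⟨ψ, h1, h2, fun e t => ?_⟩
  by_cases ht1 : t.1 = i.1
  · by_cases ht2 : t.2 = i.2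
    · rw [ht1, ht2, h3]
      refine ⟨fun _ => (hlast a).symm, fun hE h => hE (Or.inl ⟨hinj _ _ h, Prod.ext ht1 ht2⟩)⟩
    · rw [ht1, h4 _ ht2]
      refine ⟨fun _ => (hlast β).symm, fun hE h => hE (Or.inr ⟨hinj _ _ h, ht1, ht2⟩)⟩
  · rw [h5 _ _ ht1]
    refine ⟨fun hE => ?_, fun _ => hlast e⟩
    rcases hE with ⟨-, h⟩ | ⟨-, h, -⟩
    · exact absurd (congrArg Prod.fst h) ht1
    · exact absurd h ht1

theorem Sys.complete (S : Sys (d + 2) K) {s : ℕ} (hs : 1 ≤ s) (x y : S.Nd) (hxy : S.R x.1 y.1)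
    (i j : Fin (2 * s + 1) × Fin (2 * s + 1)) (hi : i ≠ (0, 0)) (hj : j ≠ (0, 0)) :
    Accepts (d + 3) ((S.G s).deleteEdges {s(.inl (x, i), .inl (y, j))}) (S.τ s) S.Acc := by
  classical
  obtain ⟨β, γ, hβ, hγ, m1, m2, m3⟩ := S.mix x.1 y.1 hxy
  have hgh := S.cls _ _ hxy
  obtain ⟨ψg, g1, g2, g3⟩ := class_aux (d := d) (s := s) hs x.1.2 β hβ i
  obtain ⟨ψh, h1, h2, h3⟩ := class_aux (d := d) (s := s) hs y.1.2 γ hγ j
  obtain ⟨ψ0, k1, k2⟩ := local_default (d := d) (s := s) (Fin.last (d + 2))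
  have hlast : ∀ e : Fin (d + 2), e.castSucc ≠ Fin.last (d + 2) := fun e => (Fin.castSucc_lt_last e).ne
  have hinj : ∀ e f : Fin (d + 2), e.castSucc = f.castSucc → e = f :=
    fun e f h => Fin.castSucc_injective _ h
  let E : K × Fin (d + 2) → Fin (2 * s + 1) × Fin (2 * s + 1) → Prop := fun u t =>
    (u.1 = x.1.1 ∧ exc x.1.2 β i u.2 t) ∨ (u.1 = y.1.1 ∧ exc y.1.2 γ j u.2 t)
  let φ : S.Vx s → Fin (d + 3) := Sum.elim
    (fun u => if E u.1.1 u.2 then Fin.last (d + 2) else u.1.1.2.castSucc)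
    (fun v => if v.1 = x.1.1 then ψg v.2 else if v.1 = y.1.1 then ψh v.2 else ψ0 v.2)
  have hφl : ∀ u, φ (.inl u) = if E u.1.1 u.2 then Fin.last (d + 2) else u.1.1.2.castSucc :=
    fun u => rfl
  have hφr : ∀ v, φ (.inr v) =
    if v.1 = x.1.1 then ψg v.2 else if v.1 = y.1.1 then ψh v.2 else ψ0 v.2 := fun v => rfl
  -- exceptional vertices of different classes
  have hEE : ∀ (u v : S.Nd × (Fin (2 * s + 1) × Fin (2 * s + 1))), S.R u.1.1 v.1.1 →
      exc x.1.2 β i u.1.1.2 u.2 → exc y.1.2 γ j v.1.1.2 v.2 → u.1.1.1 = x.1.1 → v.1.1.1 = y.1.1 →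
      u = (x, i) ∧ v = (y, j) := by
    rintro ⟨⟨⟨ug, ue⟩, hu⟩, ut⟩ ⟨⟨⟨vg, ve⟩, hv⟩, vt⟩ hR hu1 hv1 hug hvg
    simp only at hR hu1 hv1 hug hvg
    subst hug hvg
    rcases hu1 with ⟨rfl, rfl⟩ | ⟨rfl, -⟩
    · rcases hv1 with ⟨rfl, rfl⟩ | ⟨rfl, -⟩
      · exact ⟨rfl, rfl⟩
      · exact absurd hR m1
    · rcases hv1 with ⟨rfl, rfl⟩ | ⟨rfl, -⟩
      · exact absurd hR m2
      · exact absurd hR m3
  have key : ∀ p q : S.Vx s, S.rel s p q →
      s(p, q) ≠ s(Sum.inl (x, i), Sum.inl (y, j)) → φ p ≠ φ q := by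
    rintro (u | u) (v | v) hrel hne
    · change S.R u.1.1 v.1.1 at hrel
      rw [hφl, hφl]
      have hc := S.col _ _ hrel
      have hcls := S.cls _ _ hrel
      by_cases hu : E u.1.1 u.2
      · by_cases hv : E v.1.1 v.2
        · exfalso
          rcases hu with ⟨hu1, hu2⟩ | ⟨hu1, hu2⟩
          · rcases hv with ⟨hv1, hv2⟩ | ⟨hv1, hv2⟩
            · exact hcls (hu1.trans hv1.symm)
            · obtain ⟨e1, e2⟩ := hEE u v hrel hu2 hv2 hu1 hv1
              apply hne
              rw [e1, e2]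
          · rcases hv with ⟨hv1, hv2⟩ | ⟨hv1, hv2⟩
            · obtain ⟨e1, e2⟩ := hEE v u (S.symm _ _ hrel) hv2 hu2 hv1 hu1
              apply hne
              rw [e1, e2]
              exact Sym2.eq_swap
            · exact hcls (hu1.trans hv1.symm)
        · rw [if_pos hu, if_neg hv]
          exact (hlast _).symm
      · by_cases hv : E v.1.1 v.2
        · rw [if_neg hu, if_pos hv]
          exact hlast _
        · rw [if_neg hu, if_neg hv]
          exact fun h => hc (hinj _ _ h)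
    · obtain ⟨hr1, hr2⟩ := hrel
      rw [hφl, hφr, ← hr1, hr2]
      by_cases hg : u.1.1.1 = x.1.1
      · rw [if_pos hg]
        have hh : u.1.1.1 ≠ y.1.1 := fun h => hgh (hg.symm.trans h)
        by_cases hu : E u.1.1 u.2
        · rw [if_pos hu]
          rcases hu with ⟨-, hu⟩ | ⟨h, -⟩
          · exact (g3 _ _).1 hu
          · exact absurd h hh
        · rw [if_neg hu]
          exact (g3 _ _).2 fun h => hu (Or.inl ⟨hg, h⟩)
      · rw [if_neg hg]
        by_cases hh : u.1.1.1 = y.1.1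
        · rw [if_pos hh]
          by_cases hu : E u.1.1 u.2
          · rw [if_pos hu]
            rcases hu with ⟨h, -⟩ | ⟨-, hu⟩
            · exact absurd h hg
            · exact (h3 _ _).1 hu
          · rw [if_neg hu]
            exact (h3 _ _).2 fun h => hu (Or.inr ⟨hh, h⟩)
        · rw [if_neg hh, k2]
          have hu : ¬ E u.1.1 u.2 := by
            rintro (⟨h, -⟩ | ⟨h, -⟩)
            · exact hg h
            · exact hh h
          rw [if_neg hu]
          exact hlast _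
    · exact absurd hrel id
    · obtain ⟨hr1, hr2⟩ := hrel
      rw [hφr, hφr, ← hr1]
      split_ifs
      · exact g1 _ _ hr2
      · exact h1 _ _ hr2
      · exact k1 _ _ hr2
  have hval : ∀ {p q : S.Vx s},
      ((S.G s).deleteEdges {s(Sum.inl (x, i), Sum.inl (y, j))}).Adj p q → φ p ≠ φ q := by
    intro p q hpq
    rw [SimpleGraph.deleteEdges_adj, Set.mem_singleton_iff] at hpq
    obtain ⟨hadj, hne⟩ := hpq
    rcases hadj.2 with h | h
    · exact key p q h hne
    · refine (key q p h ?_).symm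
      rw [Sym2.eq_swap]
      exact hne
  refine ⟨SimpleGraph.Coloring.mk φ hval, x, y, hxy, ?_, ?_⟩
  · have e1 : φ (S.τ s (.inl x)) = x.1.2.castSucc := by
      change φ (.inl (x, (0, 0))) = _
      rw [hφl, if_neg]
      rintro (⟨-, h⟩ | ⟨h, -⟩)
      · rcases h with ⟨-, h⟩ | ⟨h, -⟩
        · exact hi h.symm
        · exact hβ h.symm
      · exact hgh h
    have e2 : (fun t => φ (S.τ s (.inr (x.1.1, t)))) = fun t => ψg (emb t) := by
      funext t
      change φ (.inr (x.1.1, emb t)) = _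
      rw [hφr, if_pos rfl]
    change Cert (fun t => φ (S.τ s (.inr (x.1.1, t)))) (φ (S.τ s (.inl x)))
    rw [e1, e2]
    exact g2
  · have e1 : φ (S.τ s (.inl y)) = y.1.2.castSucc := by
      change φ (.inl (y, (0, 0))) = _
      rw [hφl, if_neg]
      rintro (⟨h, -⟩ | ⟨-, h⟩)
      · exact hgh h.symm
      · rcases h with ⟨-, h⟩ | ⟨h, -⟩
        · exact hj h.symm
        · exact hγ h.symm
    have e2 : (fun t => φ (S.τ s (.inr (y.1.1, t)))) = fun t => ψh (emb t) := by
      funext t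
      change φ (.inr (y.1.1, emb t)) = _
      rw [hφr, if_neg (fun h => hgh h.symm), if_pos rfl]
    change Cert (fun t => φ (S.τ s (.inr (y.1.1, t)))) (φ (S.τ s (.inl y)))
    rw [e1, e2]
    exact h2

end Pool.Agent.FC14
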