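import Pool.Agent.FC14.Master
import Pool.Agent.FC14.SysA
import Pool.Agent.FC14.SysB

/-!
# The lower bound of a class system

Paper proofs.
* `card_Vx`: `card_Aux`.
* `two_mul_count`: the edges `s(inl (x, i), inl (y, j))` with `R x y`, `i, j ≠ (0, 0)` are critical by
  `Sys.complete`; the map from the set of quadruples `((x, y), (i, j))` to these edges is at most
  two-to-one (or: these edges form a graph whose darts are the quadruples, `SimpleGraph.dart_card_eq_twice_card_edges`).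
* `bound`: `master` with `Sys.sound`, `Sys.acc_perm`.
-/

set_option autoImplicit false

namespace Pool.Agent.FC14

open SimpleGraph

variable {d : ℕ} {K : Type}

theorem Sys.card_Vx [Finite K] (S : Sys (d + 2) K) (s : ℕ) :
    Nat.card (S.Vx s) = Nat.card S.Nd * (2 * s + 1) ^ 2 +
      Nat.card K * ((2 * s + 1) ^ 2 + 4 * (2 * s + 1) + (d + 2)) := by
  have h1 : Nat.card (Aux d s) = (2 * s + 1) ^ 2 + 4 * (2 * s + 1) + (d + 2) := by
    rw [Nat.card_eq_fintype_card, card_Aux]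
  rw [Sys.Vx, Nat.card_sum, Nat.card_prod, Nat.card_prod, Nat.card_prod, h1, Nat.card_fin, pow_two]

/-- Unordered pairs with a property are at least half the ordered pairs with it. -/
theorem sysBound_half {V : Type} [Finite V] (E : Set (Sym2 V)) :
    Nat.card {uv : V × V // s(uv.1, uv.2) ∈ E} ≤ 2 * E.ncard := by
  classical
  have := Fintype.ofFinite V
  set T : Finset (V × V) := Finset.univ.filter fun uv => s(uv.1, uv.2) ∈ E with hT
  have h0 : Nat.card {uv : V × V // s(uv.1, uv.2) ∈ E} = T.card := by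
    rw [Nat.card_eq_fintype_card, Fintype.card_subtype]
  have h1 : (T.image fun uv => s(uv.1, uv.2)).card ≤ E.ncard := by
    rw [← Set.ncard_coe_finset]
    apply Set.ncard_le_ncard _ (Set.toFinite _)
    intro e he
    rw [Finset.mem_coe, Finset.mem_image] at he
    obtain ⟨uv, huv, rfl⟩ := he
    exact (Finset.mem_filter.1 huv).2
  have h2 := Finset.card_le_mul_card_image (s := T) (f := fun uv => s(uv.1, uv.2)) 2 (by
    intro e he
    rw [Finset.mem_image] at he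
    obtain ⟨ab, _, rfl⟩ := he
    refine (Finset.card_le_card (t := {(ab.1, ab.2), (ab.2, ab.1)}) ?_).trans
      Finset.card_le_two
    intro uv huv
    have h3 := (Finset.mem_filter.1 huv).2
    rw [Finset.mem_insert, Finset.mem_singleton]
    rw [Sym2.eq_iff] at h3
    rcases h3 with ⟨h4, h5⟩ | ⟨h4, h5⟩
    · left; exact Prod.ext h4 h5
    · right; exact Prod.ext h4 h5)
  rw [h0]
  exact h2.trans (Nat.mul_le_mul_left 2 h1)

theorem Sys.two_mul_count [Finite K] (S : Sys (d + 2) K) {s : ℕ} (hs : 1 ≤ s) :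
    Nat.card {p : S.Nd × S.Nd // S.R p.1.1 p.2.1} * ((2 * s + 1) ^ 2 - 1) ^ 2 ≤
      2 * {e | e ∈ (S.G s).edgeSet ∧
        Accepts (d + 3) ((S.G s).deleteEdges {e}) (S.τ s) S.Acc}.ncard := by
  classical
  set E : Set (Sym2 (S.Vx s)) := {e | e ∈ (S.G s).edgeSet ∧
        Accepts (d + 3) ((S.G s).deleteEdges {e}) (S.τ s) S.Acc} with hE
  refine le_trans ?_ (sysBound_half E)
  have h1 : Nat.card {i : Fin (2 * s + 1) × Fin (2 * s + 1) // i ≠ (0, 0)} =
      (2 * s + 1) ^ 2 - 1 := by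
    rw [Nat.card_eq_fintype_card]
    have h2 := Fintype.card_subtype_compl
      (fun i : Fin (2 * s + 1) × Fin (2 * s + 1) => i = (0, 0))
    rw [Fintype.card_prod, Fintype.card_fin, Fintype.card_subtype_eq, ← pow_two] at h2
    exact h2
  have h3 : Nat.card ({p : S.Nd × S.Nd // S.R p.1.1 p.2.1} ×
      ({i : Fin (2 * s + 1) × Fin (2 * s + 1) // i ≠ (0, 0)} ×
        {i : Fin (2 * s + 1) × Fin (2 * s + 1) // i ≠ (0, 0)})) =
      Nat.card {p : S.Nd × S.Nd // S.R p.1.1 p.2.1} * ((2 * s + 1) ^ 2 - 1) ^ 2 := by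
    rw [Nat.card_prod, Nat.card_prod, h1, pow_two ((2 * s + 1) ^ 2 - 1)]
  rw [← h3]
  refine Nat.card_le_card_of_injective (fun q =>
    (⟨(.inl (q.1.1.1, q.2.1.1), .inl (q.1.1.2, q.2.2.1)), ?_, ?_⟩ :
      {uv : S.Vx s × S.Vx s // s(uv.1, uv.2) ∈ E})) ?_
  · rw [SimpleGraph.mem_edgeSet, Sys.G, SimpleGraph.fromRel_adj]
    refine ⟨?_, Or.inl q.1.2⟩
    intro h
    have h4 := S.cls _ _ q.1.2
    rw [Sum.inl.injEq, Prod.mk.injEq] at h
    apply h4
    rw [h.1]
  · exact S.complete hs _ _ q.1.2 _ _ q.2.1.2 q.2.2.2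
  · rintro ⟨⟨⟨x, y⟩, hxy⟩, ⟨i, hi⟩, ⟨j, hj⟩⟩ ⟨⟨⟨x', y'⟩, hxy'⟩, ⟨i', hi'⟩, ⟨j', hj'⟩⟩ h
    simp only [Subtype.mk.injEq, Prod.mk.injEq, Sum.inl.injEq] at h
    obtain ⟨⟨rfl, rfl⟩, rfl, rfl⟩ := h
    rfl

theorem Sys.bound [Finite K] (S : Sys (d + 2) K) :
    ∃ C : ℕ, ∀ s, 1 ≤ s → ∀ n,
      (Nat.card S.Nd + Nat.card K) * (2 * s + 1) ^ 2 + (4 * Nat.card K) * (2 * s + 1) + C ≤ n →
      Nat.card {p : S.Nd × S.Nd // S.R p.1.1 p.2.1} * ((2 * s + 1) ^ 2 - 1) ^ 2 ≤
        2 * F (d + 4) n := by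
  classical
  obtain ⟨C, hC⟩ := master (d + 3) (by omega) S.Acc S.acc_perm
  refine ⟨Nat.card K * (d + 2) + C, fun s hs n hn => ?_⟩
  refine (S.two_mul_count hs).trans (Nat.mul_le_mul_left 2 ?_)
  have := Fintype.ofFinite (S.Vx s)
  refine hC (S.Vx s) (S.G s) (S.τ s) (S.sound s) n ?_
  rw [← Nat.card_eq_fintype_card, S.card_Vx s]
  refine le_trans (le_of_eq ?_) hn
  ring

end Pool.Agent.FC14
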