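import Pool.Agent.FC14.LocDefs

/-!
# The graph of a class system: definitions

`K` is a finite set of classes, `S.A g a` says that the class `g` has a part (node) of bulk colour `a < m`,
`S.R` is the adjacency of nodes. Every node `(g, a)` is blown up to an independent set indexed by
`(r, c) ∈ Fin p × Fin p`, `p = 2 s + 1`; adjacent nodes are completely joined; the vertex `(r, c)` of each
node of class `g` is joined to the overhead vertex `Y r c` of the class `g`.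
Colours: `Fin (d + 3)`, `m = d + 2`; bulk colours `a.castSucc`, exceptional colour `Fin.last`.
-/

set_option autoImplicit false

namespace Pool.Agent.FC14

open SimpleGraph

/-- A class system. -/
structure Sys (m : ℕ) (K : Type) where
  /-- the class `g` has a node of colour `a` -/
  A : K → Fin m → Prop
  /-- adjacency of nodes -/
  R : K × Fin m → K × Fin m → Prop
  symm : ∀ x y, R x y → R y x
  node : ∀ x y, R x y → A x.1 x.2
  cls : ∀ x y, R x y → x.1 ≠ y.1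
  col : ∀ x y, R x y → x.2 ≠ y.2
  clique : ∀ x y, R x y → ∃ l : Fin m → K,
    (∀ c, c ≠ x.2 → c ≠ y.2 → R x (l c, c) ∧ R y (l c, c)) ∧
    ∀ c c', c ≠ c' → c ≠ x.2 → c ≠ y.2 → c' ≠ x.2 → c' ≠ y.2 → R (l c, c) (l c', c')
  mix : ∀ x y, R x y → ∃ β γ : Fin m, β ≠ x.2 ∧ γ ≠ y.2 ∧
    ¬ R x (y.1, γ) ∧ ¬ R (x.1, β) y ∧ ¬ R (x.1, β) (y.1, γ)

variable {d : ℕ} {K : Type}

/-- The nodes. -/
abbrev Sys.Nd {m : ℕ} (S : Sys m K) : Type := {x : K × Fin m // S.A x.1 x.2}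

/-- The vertices. -/
abbrev Sys.Vx (S : Sys (d + 2) K) (s : ℕ) : Type :=
  (S.Nd × (Fin (2 * s + 1) × Fin (2 * s + 1))) ⊕ (K × Aux d s)

/-- The edges, in one direction. -/
def Sys.rel (S : Sys (d + 2) K) (s : ℕ) : S.Vx s → S.Vx s → Prop
  | .inl u, .inl v => S.R u.1.1 v.1.1
  | .inl u, .inr v => u.1.1.1 = v.1 ∧ v.2 = .Y u.2.1 u.2.2
  | .inr _, .inl _ => False
  | .inr u, .inr v => u.1 = v.1 ∧ auxRel u.2 v.2

/-- The graph. -/
def Sys.G (S : Sys (d + 2) K) (s : ℕ) : SimpleGraph (S.Vx s) := SimpleGraph.fromRel (S.rel s)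

/-- The terminals. -/
abbrev Sys.Ter (S : Sys (d + 2) K) : Type := S.Nd ⊕ (K × (Fin d ⊕ Fin 6))

/-- The position of the terminals. -/
def Sys.τ (S : Sys (d + 2) K) (s : ℕ) : S.Ter → S.Vx s
  | .inl x => .inl (x, (0, 0))
  | .inr t => .inr (t.1, emb t.2)

/-- Acceptance. -/
def Sys.Acc (S : Sys (d + 2) K) (c : S.Ter → Fin (d + 3)) : Prop :=
  ∃ x y : S.Nd, S.R x.1 y.1 ∧ Cert (fun t => c (.inr (x.1.1, t))) (c (.inl x)) ∧
    Cert (fun t => c (.inr (y.1.1, t))) (c (.inl y))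

theorem Sys.acc_perm (S : Sys (d + 2) K) (π : Equiv.Perm (Fin (d + 3)))
    (c : S.Ter → Fin (d + 3)) (h : S.Acc c) : S.Acc (fun x => π (c x)) := by
  obtain ⟨x, y, h1, h2, h3⟩ := h
  exact ⟨x, y, h1, cert_perm π _ _ h2, cert_perm π _ _ h3⟩

end Pool.Agent.FC14
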